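import Pool.Agent.Helper45.DC.NotInv
import Pool.Agent.Helper55.OB.Defs
import Pool.Agent.Helper84.OB.S1

/-!
# Project OB (MP_0f6f3f_an), layer DC: final statements for the target `so(2, n)`

The positions `px S` (points), `pl S` (lines) satisfy the hypotheses of the abstract layer; (S1) gives `Inc`; `layerDC1`, `layerDC2`: the boundary maps at `v`, `u`; `layerDC3`, `layerDC4`: the operator valued measure of the other
vertex commutes with the boundary map.
-/

set_option autoImplicit false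
set_option linter.unusedSectionVars false

open MeasureTheory Filter Topology Matrix

namespace Pool.Agent.Helper45.DC

open Pool.Agent.Helper84 Pool.Agent.Helper84.GN Pool.Agent.Helper84.GN.S3 Pool.Agent.Helper84.GN.S3.X
open Pool.Agent.Helper84.NI Pool.Agent.Helper84.GVN Pool.Agent.Helper90.RK
open Pool.Agent.Helper96.RK hiding toReg
open Pool.Agent.Helper66.FR Pool.Agent.Helper84.FR Pool.Agent.Helper55.FR
open Pool.Agent.Helper78.BM
open Pool.Agent.Helper55.OB
open Pool.Agent.Helper9.Lin (cjM cjM_apply)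
open Pool.Agent.Helper84.OB (NonInc s1_main)

section Pos

variable {G : Type} [Group G] {N : ℕ} {P : PH G N} {S : Sv P}

/-- The projection on the span of the columns of `kR` with the weights `e`. -/
private noncomputable def pe45 (S : Sv P) (e : Fin N → ℂ) (γ : G) : MN N :=
  S.kR γ * diagonal e * (S.kR γ)ᴴ

private theorem real_kR45 (hS : SO2 P S) (γ : G) (i j : Fin N) :
    (starRingEnd ℂ) (S.kR γ i j) = S.kR γ i j := by
  have h := congrFun (congrFun (hS.realR γ) i) j
  exact h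

private theorem pe_apply45 (hS : SO2 P S) (e : Fin N → ℂ) (γ : G) (i j : Fin N) :
    pe45 S e γ i j = ∑ k, S.kR γ i k * e k * S.kR γ j k := by
  unfold pe45
  rw [Matrix.mul_apply]
  refine Finset.sum_congr rfl fun k _ => ?_
  rw [Matrix.mul_diagonal, Matrix.conjTranspose_apply]
  have h := real_kR45 hS γ j k
  rw [show star (S.kR γ j k) = S.kR γ j k from h]

private theorem star_mul45 (γ : G) : (S.kR γ)ᴴ * S.kR γ = 1 := S.uR γ

private theorem mul_star45 (γ : G) : S.kR γ * (S.kR γ)ᴴ = 1 := mul_eq_one_comm.mp (S.uR γ)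

private theorem pe_re45 (hS : SO2 P S) (e : Fin N → ℂ) (he : ∀ k, (starRingEnd ℂ) (e k) = e k) (γ : G)
    (i j : Fin N) : (starRingEnd ℂ) (pe45 S e γ i j) = pe45 S e γ i j := by
  rw [pe_apply45 hS, map_sum]
  refine Finset.sum_congr rfl fun k _ => ?_
  rw [map_mul, map_mul, real_kR45 hS, real_kR45 hS, he]

private theorem pe_symm45 (hS : SO2 P S) (e : Fin N → ℂ) (γ : G) (i j : Fin N) :
    pe45 S e γ j i = pe45 S e γ i j := by
  rw [pe_apply45 hS, pe_apply45 hS]
  refine Finset.sum_congr rfl fun k _ => ?_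
  ring

private theorem pe_idem45 (e : Fin N → ℂ) (he : ∀ k, e k * e k = e k) (γ : G) (i j : Fin N) :
    ∑ k, pe45 S e γ i k * pe45 S e γ k j = pe45 S e γ i j := by
  rw [← Matrix.mul_apply]
  have h : pe45 S e γ * pe45 S e γ = pe45 S e γ := by
    unfold pe45
    calc S.kR γ * diagonal e * (S.kR γ)ᴴ * (S.kR γ * diagonal e * (S.kR γ)ᴴ)
        = S.kR γ * diagonal e * ((S.kR γ)ᴴ * S.kR γ) * diagonal e * (S.kR γ)ᴴ := by
          simp only [Matrix.mul_assoc]
      _ = S.kR γ * (diagonal e * diagonal e) * (S.kR γ)ᴴ := by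
          rw [star_mul45, Matrix.mul_one]
          simp only [Matrix.mul_assoc]
      _ = _ := by
          rw [Matrix.diagonal_mul_diagonal]
          have h1 : (fun i => e i * e i) = e := funext he
          rw [h1]
  rw [h]

private theorem pe_tr45 (e : Fin N → ℂ) (γ : G) : ∑ i, pe45 S e γ i i = ∑ i, e i := by
  have h : (pe45 S e γ).trace = (diagonal e).trace := by
    unfold pe45
    rw [Matrix.trace_mul_comm, ← Matrix.mul_assoc, star_mul45, Matrix.one_mul]
  rw [Matrix.trace_diagonal] at h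
  exact h

private theorem ns_pe_sub45 (γ : G) (e e' : Fin N → ℂ) :
    pe45 S (fun i => e i - e' i) γ = pe45 S e γ - pe45 S e' γ := by
  unfold pe45
  rw [← Matrix.diagonal_sub, Matrix.mul_sub, Matrix.sub_mul]

private theorem jj_jj45 (N : ℕ) (i : Fin N) : jj N (jj N i) = i := by
  unfold jj
  by_cases h : (i : ℕ) < 2 ∨ N ≤ (i : ℕ) + 2
  · have h1 : ((i.rev : Fin N) : ℕ) = N - 1 - i := by
      rw [Fin.val_rev]
      omega
    have h2 : ((i.rev : Fin N) : ℕ) < 2 ∨ N ≤ ((i.rev : Fin N) : ℕ) + 2 := by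
      have := i.2
      omega
    rw [if_pos h, if_pos h2, Fin.rev_rev]
  · rw [if_neg h, if_neg h]

private theorem JJ_mul45 (A : MN N) (i j : Fin N) : (JJ N * A) i j = A (jj N i) j := by
  rw [Matrix.mul_apply, Finset.sum_eq_single (jj N i)]
  · simp [JJ]
  · intro k _ hk
    simp [JJ, hk]
  · intro h
    exact absurd (Finset.mem_univ _) h

private theorem mul_JJ45 (A : MN N) (i j : Fin N) : (A * JJ N) i j = A i (jj N j) := by
  rw [Matrix.mul_apply, Finset.sum_eq_single (jj N j)]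
  · simp [JJ, jj_jj45]
  · intro k _ hk
    have h : j ≠ jj N k := fun h => hk (by rw [h, jj_jj45])
    simp [JJ, h]
  · intro h
    exact absurd (Finset.mem_univ _) h

private theorem JJ_sq45 (N : ℕ) : JJ N * JJ N = (1 : MN N) := by
  ext i j
  rw [mul_JJ45]
  by_cases h : i = j
  · subst h
    rw [Matrix.one_apply_eq]
    simp [JJ]
  · rw [Matrix.one_apply_ne h]
    have h2 : jj N j ≠ jj N i := fun h3 => h (by rw [← jj_jj45 N i, ← h3, jj_jj45])
    simp [JJ, h2]

private theorem JJ_star45 (N : ℕ) : (JJ N)ᴴ = (JJ N : MN N) := by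
  ext i j
  rw [Matrix.conjTranspose_apply]
  by_cases h : i = jj N j
  · have h2 : j = jj N i := by rw [h, jj_jj45]
    simp only [JJ, Matrix.of_apply]
    rw [if_pos h, if_pos h2, star_one]
  · have h2 : j ≠ jj N i := fun h3 => h (by rw [h3, jj_jj45])
    simp only [JJ, Matrix.of_apply]
    rw [if_neg h, if_neg h2, star_zero]

private theorem isU_JJ45 (N : ℕ) : IsU (JJ N : MN N) := by
  unfold IsU
  rw [JJ_star45, JJ_sq45]

private theorem comm_JJ45 (hS : SO2 P S) (γ : G) : JJ N * S.kR γ = S.kR γ * JJ N := by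
  have h1 : (S.kR γ)ᵀ = (S.kR γ)ᴴ := by
    ext i j
    rw [Matrix.transpose_apply, Matrix.conjTranspose_apply]
    exact (real_kR45 hS γ j i).symm
  have h2 := hS.formR γ
  rw [h1] at h2
  calc JJ N * S.kR γ = S.kR γ * (S.kR γ)ᴴ * (JJ N * S.kR γ) := by rw [mul_star45, Matrix.one_mul]
    _ = S.kR γ * ((S.kR γ)ᴴ * JJ N * S.kR γ) := by simp only [Matrix.mul_assoc]
    _ = _ := by rw [h2]

private theorem pe_jj45 (hS : SO2 P S) (e : Fin N → ℂ) (γ : G) :
    pe45 S (fun i => e (jj N i)) γ = JJ N * pe45 S e γ * JJ N := by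
  have h1 : diagonal (fun i => e (jj N i)) = JJ N * diagonal e * JJ N := by
    ext i j
    rw [mul_JJ45, JJ_mul45]
    by_cases h : i = j
    · subst h
      rw [Matrix.diagonal_apply_eq, Matrix.diagonal_apply_eq]
    · have h2 : jj N i ≠ jj N j := fun h3 => h (by rw [← jj_jj45 N i, h3, jj_jj45])
      rw [Matrix.diagonal_apply_ne _ h, Matrix.diagonal_apply_ne _ h2]
  have h2 : JJ N * (S.kR γ)ᴴ = (S.kR γ)ᴴ * JJ N := by
    have h3 := congrArg Matrix.conjTranspose (comm_JJ45 hS γ)
    rw [Matrix.conjTranspose_mul, Matrix.conjTranspose_mul, JJ_star45] at h3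
    exact h3.symm
  unfold pe45
  rw [h1]
  calc S.kR γ * (JJ N * diagonal e * JJ N) * (S.kR γ)ᴴ
      = (S.kR γ * JJ N) * diagonal e * (JJ N * (S.kR γ)ᴴ) := by simp only [Matrix.mul_assoc]
    _ = (JJ N * S.kR γ) * diagonal e * ((S.kR γ)ᴴ * JJ N) := by rw [comm_JJ45 hS, h2]
    _ = _ := by simp only [Matrix.mul_assoc]

private theorem ns_add_le46 (A B : MN N) : ns (A + B) ≤ 2 * (ns A + ns B) := by
  unfold ns
  simp only [Matrix.add_apply]
  rw [← Finset.sum_add_distrib, Finset.mul_sum]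
  refine Finset.sum_le_sum fun i _ => ?_
  rw [← Finset.sum_add_distrib, Finset.mul_sum]
  refine Finset.sum_le_sum fun j _ => ?_
  have h := norm_add_le (A i j) (B i j)
  nlinarith [norm_nonneg (A i j + B i j), sq_nonneg (‖A i j‖ - ‖B i j‖), norm_nonneg (A i j), norm_nonneg (B i j)]

private theorem ns_neg46 (A : MN N) : ns (-A) = ns A := by
  unfold ns
  simp

/-- The positions of all the blocks are controlled by the first one. -/
private theorem ns_pos45 (hS : SO2 P S) {b : Fin N → ℕ} {e : Fin N → ℂ}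
    (hb : ∀ j, (∀ i, (if b i = b j then (1 : ℂ) else 0) = e i) ∨
      (∀ i, (if b i = b j then (1 : ℂ) else 0) = e (jj N i)) ∨
      (∀ i, (if b i = b j then (1 : ℂ) else 0) = 1 - e i - e (jj N i))) (γ γ' : G) (j : Fin N) :
    ns (pos S b γ j - pos S b γ' j) ≤ 4 * ns (pe45 S e γ - pe45 S e γ') := by
  have h0 : 0 ≤ ns (pe45 S e γ - pe45 S e γ') := ns_nonneg _
  have hpos : ∀ γ, pos S b γ j = pe45 S (fun i => if b i = b j then (1 : ℂ) else 0) γ := fun _ => rfl
  have hJ : ns (pe45 S (fun i => e (jj N i)) γ - pe45 S (fun i => e (jj N i)) γ') =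
      ns (pe45 S e γ - pe45 S e γ') := by
    rw [pe_jj45 hS, pe_jj45 hS, ← Matrix.sub_mul, ← Matrix.mul_sub, ns_mul_unitary (isU_JJ45 N),
      ns_unitary_mul (isU_JJ45 N)]
  rw [hpos, hpos]
  rcases hb j with h | h | h
  · rw [funext h]
    linarith
  · rw [funext h, hJ]
    linarith
  · have h1 : ∀ γ, pe45 S (fun i => 1 - e i - e (jj N i)) γ =
        pe45 S (fun _ => 1) γ - pe45 S e γ - pe45 S (fun i => e (jj N i)) γ := by
      intro γ
      rw [ns_pe_sub45 γ (fun i => 1 - e i), ns_pe_sub45 γ (fun _ => 1)]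
    have h2 : ∀ γ, pe45 S (fun _ => 1) γ = 1 := by
      intro γ
      unfold pe45
      have h3 : diagonal (fun _ : Fin N => (1 : ℂ)) = 1 := Matrix.diagonal_one
      rw [h3, Matrix.mul_one, mul_star45]
    rw [funext h, h1, h1, h2, h2]
    have e3 : (1 - pe45 S e γ - pe45 S (fun i => e (jj N i)) γ) -
        (1 - pe45 S e γ' - pe45 S (fun i => e (jj N i)) γ') =
        -(pe45 S e γ - pe45 S e γ') +
          -(pe45 S (fun i => e (jj N i)) γ - pe45 S (fun i => e (jj N i)) γ') := by abel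
    rw [e3]
    refine (ns_add_le46 _ _).trans ?_
    rw [ns_neg46, ns_neg46, hJ]
    linarith

private theorem pm_of45 (hS : SO2 P S) {b : Fin N → ℕ} {e : Fin N → ℂ} {d : ℕ}
    (h0 : ∃ j, ∀ i, (if b i = b j then (1 : ℂ) else 0) = e i)
    (hb : ∀ j, (∀ i, (if b i = b j then (1 : ℂ) else 0) = e i) ∨
      (∀ i, (if b i = b j then (1 : ℂ) else 0) = e (jj N i)) ∨
      (∀ i, (if b i = b j then (1 : ℂ) else 0) = 1 - e i - e (jj N i)))
    (hd : ∑ i, e i = d) : Pm (posPD S b) d (pe45 S e) := by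
  have he : ∀ i, e i = 0 ∨ e i = 1 := by
    obtain ⟨j, hj⟩ := h0
    intro i
    rw [← hj i]
    split_ifs
    · exact Or.inr rfl
    · exact Or.inl rfl
  have hN : (0 : ℝ) < N := by
    have := hS.hN
    exact_mod_cast (by omega : 0 < N)
  refine ⟨fun γ i j => pe_re45 hS e (fun k => ?_) γ i j, fun γ i j => pe_symm45 hS e γ i j,
    fun γ i j => pe_idem45 e (fun k => ?_) γ i j, fun γ => (pe_tr45 e γ).trans hd, fun i j => ?_,
    fun δ hδ => ?_⟩
  · rcases he k with h | h <;> rw [h] <;> simp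
  · rcases he k with h | h <;> rw [h] <;> simp
  · obtain ⟨j0, hj0⟩ := h0
    intro ε hε
    refine ⟨ε, hε, fun γ γ' hd => ?_⟩
    have h1 : ‖pe45 S e γ i j - pe45 S e γ' i j‖ ≤ Real.sqrt (ns (pos S b γ j0 - pos S b γ' j0)) := by
      have e1 : ∀ γ, pos S b γ j0 = pe45 S e γ := by
        intro γ
        have e2 : pos S b γ j0 = pe45 S (fun i => if b i = b j0 then (1 : ℂ) else 0) γ := rfl
        rw [e2, funext hj0]
      rw [e1, e1]
      refine Real.le_sqrt_of_sq_le ?_
      unfold ns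
      have h2 : ‖(pe45 S e γ - pe45 S e γ') i j‖ ^ 2 ≤ ∑ j, ‖(pe45 S e γ - pe45 S e γ') i j‖ ^ 2 :=
        Finset.single_le_sum (f := fun j => ‖(pe45 S e γ - pe45 S e γ') i j‖ ^ 2)
          (fun _ _ => sq_nonneg _) (Finset.mem_univ j)
      have h3 : ∑ j, ‖(pe45 S e γ - pe45 S e γ') i j‖ ^ 2 ≤
          ∑ i, ∑ j, ‖(pe45 S e γ - pe45 S e γ') i j‖ ^ 2 :=
        Finset.single_le_sum (f := fun i => ∑ j, ‖(pe45 S e γ - pe45 S e γ') i j‖ ^ 2)
          (fun _ _ => Finset.sum_nonneg fun _ _ => sq_nonneg _) (Finset.mem_univ i)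
      exact h2.trans h3
    have h2 : Real.sqrt (ns (pos S b γ j0 - pos S b γ' j0)) ≤ (posPD S b).d γ γ' :=
      Finset.single_le_sum (f := fun j => Real.sqrt (ns (pos S b γ j - pos S b γ' j)))
        (fun _ _ => Real.sqrt_nonneg _) (Finset.mem_univ j0)
    linarith
  · refine ⟨(δ / (2 * N)) ^ 2, by positivity, fun γ γ' hd => ?_⟩
    have h1 : (posPD S b).d γ γ' ≤ N * (2 * Real.sqrt (ns (pe45 S e γ - pe45 S e γ'))) := by
      have h2 : ∀ j ∈ (Finset.univ : Finset (Fin N)), Real.sqrt (ns (pos S b γ j - pos S b γ' j)) ≤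
          2 * Real.sqrt (ns (pe45 S e γ - pe45 S e γ')) := by
        intro j _
        refine (Real.sqrt_le_sqrt (ns_pos45 hS hb γ γ' j)).trans ?_
        rw [Real.sqrt_mul (by norm_num : (0 : ℝ) ≤ 4)]
        have h4 : Real.sqrt 4 = 2 := by
          rw [show (4 : ℝ) = 2 ^ 2 by norm_num]
          exact Real.sqrt_sq (by norm_num)
        rw [h4]
      refine (Finset.sum_le_card_nsmul _ _ _ h2).trans ?_
      rw [nsmul_eq_mul, Finset.card_univ, Fintype.card_fin]
    have h2 : δ / (2 * N) ≤ Real.sqrt (ns (pe45 S e γ - pe45 S e γ')) := by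
      rw [div_le_iff₀ (by positivity)]
      linarith
    have h3 := pow_le_pow_left₀ (by positivity) h2 2
    rwa [Real.sq_sqrt (ns_nonneg _)] at h3

private theorem bJ_eq45 (J : Finset (Fin N)) (m m' : ℕ) (hJ : ∀ k : Fin N, k ∉ J ↔ (k : ℕ) = m ∨ (k : ℕ) = m')
    (hm : m < m') (hm' : m' < N) (i : Fin N) :
    bJ J i = (if m < (i : ℕ) then 1 else 0) + (if m' < (i : ℕ) then 1 else 0) := by
  classical
  unfold bJ
  refine (congrArg Finset.card (?_ : _ = (if m < (i : ℕ) then {(⟨m, by omega⟩ : Fin N)} else (∅ : Finset (Fin N))) ∪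
        (if m' < (i : ℕ) then {(⟨m', hm'⟩ : Fin N)} else ∅))).trans ?_
  · ext k
    rw [Finset.mem_filter, Finset.mem_union, hJ k, Fin.lt_def]
    simp only [Finset.mem_univ, true_and]
    have hk : ∀ (c : Prop) [Decidable c] (x : Fin N), (k ∈ (if c then ({x} : Finset (Fin N)) else ∅)) ↔
        c ∧ (k : ℕ) = x := by
      intro c _ x
      split_ifs with hc
      · simp [hc, Fin.ext_iff]
      · simp [hc]
    rw [hk, hk]
    constructor
    · rintro ⟨h1, h2 | h2⟩
      · exact Or.inl ⟨by omega, h2⟩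
      · exact Or.inr ⟨by omega, h2⟩
    · rintro (⟨h1, h2⟩ | ⟨h1, h2⟩)
      · exact ⟨by simp only at h2; omega, Or.inl h2⟩
      · exact ⟨by simp only at h2; omega, Or.inr h2⟩
  have hd : Disjoint (if m < (i : ℕ) then {(⟨m, by omega⟩ : Fin N)} else (∅ : Finset (Fin N)))
      (if m' < (i : ℕ) then {(⟨m', hm'⟩ : Fin N)} else ∅) := by
    split_ifs
    · rw [Finset.disjoint_singleton]
      intro h
      have := congrArg Fin.val h
      simp only at this
      omega
    all_goals simp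
  rw [Finset.card_union_of_disjoint hd]
  congr 1
  · split_ifs <;> simp
  · split_ifs <;> simp

theorem pm_px (hS : SO2 P S) : Pm (pd1 S) 1 (px S) := by
  have hN := hS.hN
  have hb : ∀ i : Fin N, (chStr S (K1 N) []).b i =
      (if 0 < (i : ℕ) then 1 else 0) + (if N - 2 < (i : ℕ) then 1 else 0) := by
    intro i
    refine bJ_eq45 (K1 N) 0 (N - 2) (fun k => ?_) (by omega) (by omega) i
    unfold K1
    rw [Finset.mem_filter]
    simp only [Finset.mem_univ, true_and]
    have := k.2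
    omega
  have hjj : ∀ i : Fin N, ((jj N i : Fin N) : ℕ) = if (i : ℕ) < 2 ∨ N ≤ (i : ℕ) + 2 then N - 1 - i else i := by
    intro i
    unfold jj
    split_ifs
    · rw [Fin.val_rev]
      omega
    · rfl
  refine pm_of45 hS (e := fun i : Fin N => if (i : ℕ) = 0 then (1 : ℂ) else 0) ⟨⟨0, by omega⟩, fun i => ?_⟩
    (fun j => ?_) ?_
  · rw [hb, hb]
    have := i.2
    by_cases h : (i : ℕ) = 0
    · rw [h]
      simp
    · rw [if_neg h, if_neg]
      simp only
      rw [if_pos (by omega : 0 < (i : ℕ))]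
      simp
  · have hj := j.2
    by_cases h1 : (j : ℕ) = 0
    · left
      intro i
      rw [hb, hb, h1]
      have := i.2
      by_cases h : (i : ℕ) = 0
      · rw [h]
        simp
      · rw [if_neg h, if_neg]
        rw [if_pos (by omega : 0 < (i : ℕ))]
        simp
    · by_cases h2 : (j : ℕ) + 1 = N
      · right; left
        intro i
        rw [hb, hb, hjj]
        have hi := i.2
        rw [if_pos (by omega : 0 < (j : ℕ)), if_pos (by omega : N - 2 < (j : ℕ))]
        by_cases h : (i : ℕ) + 1 = N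
        · rw [if_pos (by omega : 0 < (i : ℕ)), if_pos (by omega : N - 2 < (i : ℕ)), if_pos rfl, if_pos]
          rw [if_pos (by omega)]
          omega
        · rw [if_neg (by omega : ¬ N - 2 < (i : ℕ)), if_neg, if_neg]
          · split_ifs <;> omega
          · split_ifs <;> omega
      · right; right
        intro i
        rw [hb, hb, hjj]
        have hi := i.2
        rw [if_pos (by omega : 0 < (j : ℕ)), if_neg (by omega : ¬ N - 2 < (j : ℕ))]
        by_cases h : (i : ℕ) = 0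
        · rw [h]
          simp only [lt_self_iff_false, if_false, Nat.not_lt_zero, add_zero, if_true]
          rw [if_neg (by omega), if_neg (by
            rw [if_pos (by omega)]
            omega)]
          ring
        · by_cases h' : (i : ℕ) + 1 = N
          · rw [if_pos (by omega : 0 < (i : ℕ)), if_pos (by omega : N - 2 < (i : ℕ)), if_neg (by omega),
              if_neg h, if_pos (by
                rw [if_pos (by omega)]
                omega)]
            ring
          · rw [if_pos (by omega : 0 < (i : ℕ)), if_neg (by omega : ¬ N - 2 < (i : ℕ)), if_pos rfl,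
              if_neg h, if_neg (by split_ifs <;> omega)]
            ring
  · rw [Finset.sum_eq_single (⟨0, by omega⟩ : Fin N)]
    · simp
    · intro i _ hi
      rw [if_neg]
      intro h
      exact hi (Fin.ext h)
    · intro h
      exact absurd (Finset.mem_univ _) h

theorem pm_pl (hS : SO2 P S) : Pm (pd2 S) 2 (pl S) := by
  have hN := hS.hN
  have hb : ∀ i : Fin N, (chStr S (K2 N) []).b i =
      (if 1 < (i : ℕ) then 1 else 0) + (if N - 3 < (i : ℕ) then 1 else 0) := by
    intro i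
    refine bJ_eq45 (K2 N) 1 (N - 3) (fun k => ?_) (by omega) (by omega) i
    unfold K2
    rw [Finset.mem_filter]
    simp only [Finset.mem_univ, true_and]
    have := k.2
    omega
  have hjj : ∀ i : Fin N, ((jj N i : Fin N) : ℕ) = if (i : ℕ) < 2 ∨ N ≤ (i : ℕ) + 2 then N - 1 - i else i := by
    intro i
    unfold jj
    split_ifs
    · rw [Fin.val_rev]
      omega
    · rfl
  refine pm_of45 hS (e := fun i : Fin N => if (i : ℕ) ≤ 1 then (1 : ℂ) else 0) ⟨⟨0, by omega⟩, fun i => ?_⟩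
    (fun j => ?_) ?_
  · rw [hb, hb]
    have := i.2
    have h00 : ((⟨0, by omega⟩ : Fin N) : ℕ) = 0 := rfl
    rw [h00]
    by_cases h : (i : ℕ) ≤ 1
    · rw [if_neg (by omega : ¬ 1 < (i : ℕ)), if_neg (by omega : ¬ N - 3 < (i : ℕ)), if_pos h]
      simp
    · rw [if_pos (by omega : 1 < (i : ℕ)), if_neg h, if_neg]
      simp
  · have hj := j.2
    by_cases h1 : (j : ℕ) ≤ 1
    · left
      intro i
      rw [hb, hb, if_neg (by omega : ¬ 1 < (j : ℕ)), if_neg (by omega : ¬ N - 3 < (j : ℕ))]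
      have := i.2
      by_cases h : (i : ℕ) ≤ 1
      · rw [if_neg (by omega : ¬ 1 < (i : ℕ)), if_neg (by omega : ¬ N - 3 < (i : ℕ)), if_pos h]
        simp
      · rw [if_pos (by omega : 1 < (i : ℕ)), if_neg h, if_neg]
        omega
    · by_cases h2 : N ≤ (j : ℕ) + 2
      · right; left
        intro i
        rw [hb, hb, hjj]
        have hi := i.2
        rw [if_pos (by omega : 1 < (j : ℕ)), if_pos (by omega : N - 3 < (j : ℕ))]
        by_cases h : N ≤ (i : ℕ) + 2
        · rw [if_pos (by omega : 1 < (i : ℕ)), if_pos (by omega : N - 3 < (i : ℕ)), if_pos rfl, if_pos]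
          rw [if_pos (by omega)]
          omega
        · rw [if_neg (by omega : ¬ N - 3 < (i : ℕ)), if_neg, if_neg]
          · split_ifs <;> omega
          · split_ifs <;> omega
      · right; right
        intro i
        rw [hb, hb, hjj]
        have hi := i.2
        rw [if_pos (by omega : 1 < (j : ℕ)), if_neg (by omega : ¬ N - 3 < (j : ℕ))]
        by_cases h : (i : ℕ) ≤ 1
        · rw [if_neg (by omega : ¬ 1 < (i : ℕ)), if_neg (by omega : ¬ N - 3 < (i : ℕ)), if_neg (by omega),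
            if_pos h, if_neg (by
              rw [if_pos (by omega)]
              omega)]
          ring
        · by_cases h' : N ≤ (i : ℕ) + 2
          · rw [if_pos (by omega : 1 < (i : ℕ)), if_pos (by omega : N - 3 < (i : ℕ)), if_neg (by omega),
              if_neg h, if_pos (by
                rw [if_pos (by omega)]
                omega)]
            ring
          · rw [if_pos (by omega : 1 < (i : ℕ)), if_neg (by omega : ¬ N - 3 < (i : ℕ)), if_pos rfl,
              if_neg h, if_neg (by split_ifs <;> omega)]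
            ring
  · have h1 : ∀ i : Fin N, (if (i : ℕ) ≤ 1 then (1 : ℂ) else 0) =
        (if i = (⟨0, by omega⟩ : Fin N) then (1 : ℂ) else 0) + (if i = (⟨1, by omega⟩ : Fin N) then (1 : ℂ) else 0) := by
      intro i
      rcases Nat.lt_or_ge (i : ℕ) 1 with h | h
      · have h0 : i = (⟨0, by omega⟩ : Fin N) := Fin.ext (by simp only; omega)
        rw [h0]
        simp
      · rcases Nat.lt_or_ge (i : ℕ) 2 with h' | h'
        · have h0 : i = (⟨1, by omega⟩ : Fin N) := Fin.ext (by simp only; omega)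
          rw [h0]
          simp
        · rw [if_neg (by omega), if_neg (fun h0 => by rw [h0] at h'; simp at h'),
            if_neg (fun h0 => by rw [h0] at h'; simp at h'), add_zero]
    rw [Finset.sum_congr rfl fun i _ => h1 i, Finset.sum_add_distrib, Finset.sum_ite_eq' Finset.univ,
      Finset.sum_ite_eq' Finset.univ, if_pos (Finset.mem_univ _), if_pos (Finset.mem_univ _)]
    norm_num

theorem min3_pl (hS : SO2 P S) : Min3 (pl S) := by
  have hN := hS.hN
  intro γ a b c d e f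
  have h : ∀ i j, pl S γ i j = S.kR γ i ⟨0, by omega⟩ * S.kR γ j ⟨0, by omega⟩ +
      S.kR γ i ⟨1, by omega⟩ * S.kR γ j ⟨1, by omega⟩ := by
    intro i j
    have h1 : pl S γ i j = ∑ k, S.kR γ i k * (if (k : ℕ) ≤ 1 then (1 : ℂ) else 0) * S.kR γ j k :=
      pe_apply45 hS _ γ i j
    rw [h1, ← Finset.sum_subset (Finset.subset_univ {(⟨0, by omega⟩ : Fin N), ⟨1, by omega⟩}),
      Finset.sum_pair (fun h => by have := congrArg Fin.val h; simp at this)]
    · simp
    · intro k _ hk
      rw [if_neg, mul_zero, zero_mul]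
      intro h2
      refine hk ?_
      rw [Finset.mem_insert, Finset.mem_singleton, Fin.ext_iff, Fin.ext_iff]
      simp only
      omega
  simp only [h]
  ring

end Pos

section Main

variable {G1 X G Λ : Type} [Group G1] [TopologicalSpace G1] [IsTopologicalGroup G1] [MeasurableSpace X] [MulAction G1 X]
  [MeasurableConstSMul G1 X] [Group G] [Group Λ] [Countable Λ] {μ : Measure X} [SMulInvariantMeasure G1 X μ]
  [IsProbabilityMeasure μ] {a : Cocy G1 X Λ} {E : Emb Λ G} {bv bu : ℕ → G1} {N : ℕ} {P : PH G N} {S : Sv P}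

theorem inc_of_am (hS : SO2 P S)
    (hAM : ∀ A B : Set G, NonInc S A B → ∀ x, iUX (R1 S) A (Tb μ a E (R1 S) bv
      (ContinuousLinearMap.adjoint (Tb μ a E (R2 S) bu) (iUX (R2 S) B x))) = 0) :
    Inc μ (px S) (pl S) ((Tb μ a E (R2 S) bu).comp (ContinuousLinearMap.adjoint (Tb μ a E (R1 S) bv))) := by
  have hp := pm_px hS
  have hP := pm_pl hS
  have hfl1 : ∀ γ, Pool.Agent.Helper84.OB.fl S 1 γ = px S γ := by
    intro γ
    unfold Pool.Agent.Helper84.OB.fl px
    congr 2
    congr 1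
    funext i
    by_cases h : (i : ℕ) = 0
    · rw [if_pos h, if_pos (by omega)]
    · rw [if_neg h, if_neg (by omega)]
  have hfl2 : ∀ γ, Pool.Agent.Helper84.OB.fl S 2 γ = pl S γ := by
    intro γ
    unfold Pool.Agent.Helper84.OB.fl pl
    congr 2
    congr 1
    funext i
    by_cases h : (i : ℕ) ≤ 1
    · rw [if_pos h, if_pos (by omega)]
    · rw [if_neg h, if_neg (by omega)]
  have hre : ∀ γ i j, (S.kR γ i j).im = 0 := fun γ i j =>
    Complex.conj_eq_iff_im.1 (real_kR45 hS γ i j)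
  intro i k y
  rw [← sub_eq_zero]
  refine ext_inner_left ℂ fun x => ?_
  rw [inner_zero_right]
  have hself1 : ∀ (i j : Fin N) (u w : XUa μ (R1 S)), inner ℂ (Mf μ (R1 S) (fun γ => px S γ i j) u) w =
      inner ℂ u (Mf μ (R1 S) (fun γ => px S γ i j) w) := by
    intro i j u w
    rw [Mf_adj (fun γ => hp.le_one γ i j)]
    simp only [hp.re]
  have hself2 : ∀ (i j : Fin N) (u w : XUa μ (R2 S)), inner ℂ (Mf μ (R2 S) (fun γ => pl S γ i j) u) w =
      inner ℂ u (Mf μ (R2 S) (fun γ => pl S γ i j) w) := by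
    intro i j u w
    rw [Mf_adj (fun γ => hP.le_one γ i j)]
    simp only [hP.re]
  have h := s1_main S hre ((Tb μ a E (R1 S) bv).comp (ContinuousLinearMap.adjoint (Tb μ a E (R2 S) bu)))
    (fun A B hAB x => hAM A B hAB x) i k x
  have h2 : ∀ (j : Fin N) (z : XUa μ (R2 S)), Mf μ (R2 S) (fun γ => (1 - Pool.Agent.Helper84.OB.fl S 2 γ) j k) z =
      (if j = k then (1 : ℂ) else 0) • z - Mf μ (R2 S) (fun γ => pl S γ j k) z := by
    intro j z
    have e : (fun γ => (1 - Pool.Agent.Helper84.OB.fl S 2 γ) j k) = fun γ => (if j = k then (1 : ℂ) else 0) - pl S γ j k := by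
      funext γ
      rw [Matrix.sub_apply, hfl2, Matrix.one_apply]
    rw [e, Mf_sub (f := fun _ => (if j = k then (1 : ℂ) else 0)) (C := 1) (fun γ => by split_ifs <;> simp)
      (fun γ => hP.le_one γ j k), Mf_const]
  simp only [h2, hfl1, ContinuousLinearMap.comp_apply, map_sub, map_smul] at h
  rw [Finset.sum_sub_distrib] at h
  simp only [ite_smul, one_smul, zero_smul] at h
  rw [Finset.sum_ite_eq' Finset.univ k, if_pos (Finset.mem_univ k)] at h
  -- the inner product of the relation with `y`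
  have h3 := congrArg (fun w : XUa μ (R1 S) => inner ℂ w y) h
  simp only [inner_sub_left, inner_zero_left, sum_inner, hself1] at h3
  simp only [inner_sub_right, inner_sum, ContinuousLinearMap.comp_apply, ← hself2,
    ← ContinuousLinearMap.adjoint_inner_left (Tb μ a E (R2 S) bu)] at h3 ⊢
  simp only [ContinuousLinearMap.adjoint_inner_right] at h3 ⊢
  rw [sub_eq_zero] at h3 ⊢
  have e1 : ∀ j : Fin N, (fun γ => px S γ j i) = fun γ => px S γ i j := fun j => funext fun γ => hp.symm γ i j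
  have e2 : ∀ j : Fin N, (fun γ => pl S γ k j) = fun γ => pl S γ j k := fun j => funext fun γ => hP.symm γ j k
  simp only [e1, e2]
  exact h3.symm

theorem psh1 : PSh (R1 S) (pd1 S) := psh_pos (chStr S (K1 N) [])

theorem psh2 : PSh (R2 S) (pd2 S) := psh_pos (chStr S (K2 N) [])

theorem plf1 : PLf (R1 S) (pd1 S) := plf_pos (chStr S (K1 N) [])

theorem plf2 : PLf (R2 S) (pd2 S) := plf_pos (chStr S (K2 N) [])

/-- **Layer DC, points**: `v` is mapped to points, `u` to lines: there is a boundary map at `v`. -/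
theorem layerDC1 (hS : SO2 P S) (h3 : Tendsto (fun g : G1 => μ {x | a.a g x ≠ 1}) (𝓝 1) (𝓝 0))
    (hK : Kcont G1 μ) (hEv : ErgU μ a E (Ctr bv)) (hEu : ErgU μ a E (Ctr bu))
    (hgen : ∀ Z : Subgroup G1, IsClosed (Z : Set G1) → cen bv ≤ Z → cen bu ≤ Z → Z = ⊤)
    (hv : XPpr (R1 S) (vec μ a E bv) ≠ 0) (hu : XPpr (R2 S) (vec μ a E bu) ≠ 0)
    (hAM : ∀ A B : Set G, NonInc S A B → ∀ x, iUX (R1 S) A (Tb μ a E (R1 S) bv
      (ContinuousLinearMap.adjoint (Tb μ a E (R2 S) bu) (iUX (R2 S) B x))) = 0)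
    (hF : ∃ c : ℝ, 0 < c ∧ ∀ γ0, Full μ a E (R1 S) bv {γ | c ≤ ns ((1 - pl S γ0) * px S γ)}) :
    Nonempty (BMap μ a E (R1 S) (pd1 S) bv) := by
  have hI := inc_of_am hS hAM
  obtain ⟨q, f, hf, hne⟩ := not_inv_ln (pm_px hS) (pm_pl hS) plf2 h3 hK hgen hu hI hF
  exact bmap_pt (pm_px hS) (pm_pl hS) (min3_pl hS) psh1 plf1 h3 hEv hEu hv hI q hf hne

/-- **Layer DC, lines**: there is a boundary map at `u`. -/
theorem layerDC2 (hS : SO2 P S) (h3 : Tendsto (fun g : G1 => μ {x | a.a g x ≠ 1}) (𝓝 1) (𝓝 0))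
    (hK : Kcont G1 μ) (hEv : ErgU μ a E (Ctr bv)) (hEu : ErgU μ a E (Ctr bu))
    (hgen : ∀ Z : Subgroup G1, IsClosed (Z : Set G1) → cen bv ≤ Z → cen bu ≤ Z → Z = ⊤)
    (hv : XPpr (R1 S) (vec μ a E bv) ≠ 0) (hu : XPpr (R2 S) (vec μ a E bu) ≠ 0)
    (hAM : ∀ A B : Set G, NonInc S A B → ∀ x, iUX (R1 S) A (Tb μ a E (R1 S) bv
      (ContinuousLinearMap.adjoint (Tb μ a E (R2 S) bu) (iUX (R2 S) B x))) = 0)
    (hF : ∃ c : ℝ, 0 < c ∧ ∀ γ0, Full μ a E (R2 S) bu {γ | c ≤ ns ((1 - pl S γ) * px S γ0)}) :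
    Nonempty (BMap μ a E (R2 S) (pd2 S) bu) := by
  have hI := inc_of_am hS hAM
  obtain ⟨q, f, hf, hne⟩ := not_inv_pt (pm_px hS) (pm_pl hS) plf1 h3 hK hgen hv hI hF
  exact bmap_ln (pm_px hS) (pm_pl hS) (min3_pl hS) psh2 plf2 h3 hEv hEu hu hI q hf hne

/-- **Layer DC, commutation at a point**: `Φ_u(f)` commutes with the boundary map at `v`. -/
theorem layerDC3 (hS : SO2 P S) (h3 : Tendsto (fun g : G1 => μ {x | a.a g x ≠ 1}) (𝓝 1) (𝓝 0))
    (hEu : ErgU μ a E (Ctr bu))
    (hAM : ∀ A B : Set G, NonInc S A B → ∀ x, iUX (R1 S) A (Tb μ a E (R1 S) bv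
      (ContinuousLinearMap.adjoint (Tb μ a E (R2 S) bu) (iUX (R2 S) B x))) = 0)
    (B : BMap μ a E (R1 S) (pd1 S) bv) {f g : G → ℂ} (hf : AV (R2 S) (pd2 S) f) (hg : AV (R1 S) (pd1 S) g)
    (φ : XL μ (L2 G)) : Po μ a E (R2 S) bu f (B.Ph g φ) = B.Ph g (Po μ a E (R2 S) bu f φ) :=
  com_pt (pm_px hS) (pm_pl hS) (min3_pl hS) h3 hEu (inc_of_am hS hAM) B hf hg φ

/-- **Layer DC, commutation at a line**: `Φ_v(f)` commutes with the boundary map at `u`. -/
theorem layerDC4 (hS : SO2 P S) (h3 : Tendsto (fun g : G1 => μ {x | a.a g x ≠ 1}) (𝓝 1) (𝓝 0))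
    (hEv : ErgU μ a E (Ctr bv))
    (hAM : ∀ A B : Set G, NonInc S A B → ∀ x, iUX (R1 S) A (Tb μ a E (R1 S) bv
      (ContinuousLinearMap.adjoint (Tb μ a E (R2 S) bu) (iUX (R2 S) B x))) = 0)
    (B : BMap μ a E (R2 S) (pd2 S) bu) {f g : G → ℂ} (hf : AV (R1 S) (pd1 S) f) (hg : AV (R2 S) (pd2 S) g)
    (φ : XL μ (L2 G)) : Po μ a E (R1 S) bv f (B.Ph g φ) = B.Ph g (Po μ a E (R1 S) bv f φ) :=
  com_ln (pm_px hS) (pm_pl hS) (min3_pl hS) h3 hEv (inc_of_am hS hAM) B hf hg φ

end Main

end Pool.Agent.Helper45.DC
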