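import Mathlib

/-!
# Layer DC, block 4: the algebra for lines

`l i j`, `r i j`: left and right multiplication by the entries of the projections on the lines `l`, `l'`; `σ h = J* h J`, `p` the projection on a point of both. Relations: `P p = p`, `P' p = p`, `tr p = 1`, symmetric, `P` has rank two (the `3 × 3` minors
of the operators `l` vanish), `tr P' = 2` is not needed. Claim: `(2 - tr P P') p = P P' P - (tr P P' - 1) P`.
Proof: `0 = ∑_{b,c,e,f} minor_l(a,c,e; b,d,f) (r b c (σ (p_fe * h)))`. The six terms: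
* `P_ab P_cd P_ef`: `∑_e l e f σ(p_fe h) = σ(p_ff h)`, sum over `f`: `σ(h)`: `∑_{b,c} l a b (l c d (r b c σ(h)))`.
* `- P_ab P_cf P_ed`: `∑_f l c f σ(p_fe h) = σ(p_ce h)`, `∑_e l e d σ(p_ce h) = σ(p_cd h)`, `∑_c r b c σ(p_cd h) = σ(p_bd h)`, `∑_b l a b σ(p_bd h) = σ(p_ad h)`: `- σ(p_ad h)`.
* `- P_ad P_cb P_ef`: `- ∑_{b,c} l a d (l c b (r b c σ(h)))`.
* `P_ad P_cf P_eb`: `∑_f l c f σ(p_fe h) = σ(p_ce h)`, `∑_e l e b σ(p_ce h) = σ(p_cb h)`, `∑_c r b c σ(p_cb h) = σ(p_bb h)`, sum over `b`: `l a d σ(h)`.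
* `P_af P_cb P_ed`: `∑_f l a f σ(p_fe h) = σ(p_ae h)`, `∑_e l e d σ(p_ae h) = σ(p_ad h)`: `∑_{b,c} l c b (r b c σ(p_ad h))`.
* `- P_af P_cd P_eb`: `∑_f l a f σ(p_fe h) = σ(p_ae h)`, `∑_e l e b σ(p_ae h) = σ(p_ab h)`, `∑_b r b c σ(p_ab h) = σ(p_ac h)`, `∑_c l c d σ(p_ac h) = σ(p_ad h)`: `- σ(p_ad h)`.
So `∑ l l r σ(h) - 2 σ(p_ad h) - ∑ l_ad l_cb r_bc σ(h) + l_ad σ(h) + ∑_{c,b} l_cb r_bc σ(p_ad h) = 0`.
-/

set_option autoImplicit false

namespace Pool.Agent.Helper45.DC

theorem core_lines {A M : Type*} [CommRing A] [AddCommGroup M] {N : ℕ} (σ : A →+ M)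
    (l r : Fin N → Fin N → M →+ M) (p : Fin N → Fin N → A)
    (hp : ∀ i j, p j i = p i j) (hls : ∀ i j, l j i = l i j) (hrs : ∀ i j, r j i = r i j)
    (hlr : ∀ i j k m x, l i j (r k m x) = r k m (l i j x))
    (hll : ∀ i j k m x, l i j (l k m x) = l k m (l i j x))
    (hl : ∀ i k h, ∑ j, l i j (σ (p j k * h)) = σ (p i k * h))
    (hr : ∀ i k h, ∑ j, r i j (σ (p j k * h)) = σ (p i k * h))
    (ht : ∀ h, ∑ i, σ (p i i * h) = σ h)
    (hdet : ∀ a b c d e f x, l a b (l c d (l e f x)) - l a b (l c f (l e d x)) - l a d (l c b (l e f x)) +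
      l a d (l c f (l e b x)) + l a f (l c b (l e d x)) - l a f (l c d (l e b x)) = 0)
    (a d : Fin N) (h : A) :
    (2 : ℕ) • σ (p a d * h) - ∑ c, ∑ b, l c b (r b c (σ (p a d * h))) =
      ∑ b, ∑ c, l a b (l c d (r b c (σ h))) - ∑ b, ∑ c, l a d (l c b (r b c (σ h))) + l a d (σ h) := by
  have E1 : ∀ i k, ∑ j, l i j (σ (p j k * h)) = σ (p i k * h) := fun i k => hl i k h
  have E2 : ∀ k m, ∑ j, l j m (σ (p k j * h)) = σ (p m k * h) := by
    intro k m
    rw [← E1 m k]
    refine Finset.sum_congr rfl fun j _ => ?_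
    rw [hls m j, hp k j]
  have R1 : ∀ i k, ∑ j, r i j (σ (p j k * h)) = σ (p i k * h) := fun i k => hr i k h
  have R2 : ∀ i k, ∑ j, r i j (σ (p k j * h)) = σ (p i k * h) := by
    intro i k
    rw [← R1 i k]
    refine Finset.sum_congr rfl fun j _ => ?_
    rw [hp k j]
  have R3 : ∀ i k, ∑ j, r j i (σ (p j k * h)) = σ (p i k * h) := by
    intro i k
    rw [← R1 i k]
    refine Finset.sum_congr rfl fun j _ => ?_
    rw [hrs i j]
  have t1 : ∑ b, ∑ c, ∑ e, ∑ f, l a b (l c d (l e f (r b c (σ (p f e * h))))) =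
      ∑ b, ∑ c, l a b (l c d (r b c (σ h))) := by
    refine Finset.sum_congr rfl fun b _ => Finset.sum_congr rfl fun c _ => ?_
    rw [← ht h]
    simp only [map_sum]
    refine Finset.sum_congr rfl fun e _ => ?_
    rw [← E1 e e]
    simp only [map_sum]
    refine Finset.sum_congr rfl fun f _ => ?_
    rw [hlr e f]
  have t3 : ∑ b, ∑ c, ∑ e, ∑ f, l a d (l c b (l e f (r b c (σ (p f e * h))))) =
      ∑ b, ∑ c, l a d (l c b (r b c (σ h))) := by
    refine Finset.sum_congr rfl fun b _ => Finset.sum_congr rfl fun c _ => ?_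
    rw [← ht h]
    simp only [map_sum]
    refine Finset.sum_congr rfl fun e _ => ?_
    rw [← E1 e e]
    simp only [map_sum]
    refine Finset.sum_congr rfl fun f _ => ?_
    rw [hlr e f]
  have t2 : ∑ b, ∑ c, ∑ e, ∑ f, l a b (l c f (l e d (r b c (σ (p f e * h))))) =
      σ (p a d * h) := by
    calc ∑ b, ∑ c, ∑ e, ∑ f, l a b (l c f (l e d (r b c (σ (p f e * h)))))
        = ∑ b, ∑ c, ∑ e, l a b (r b c (l e d (σ (p c e * h)))) := by
          refine Finset.sum_congr rfl fun b _ => Finset.sum_congr rfl fun c _ =>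
            Finset.sum_congr rfl fun e _ => ?_
          rw [← E1 c e]
          simp only [map_sum]
          refine Finset.sum_congr rfl fun f _ => ?_
          rw [hlr e d, hlr c f, hll c f e d]
      _ = ∑ b, ∑ c, l a b (r b c (σ (p d c * h))) := by
          refine Finset.sum_congr rfl fun b _ => Finset.sum_congr rfl fun c _ => ?_
          rw [← E2 c d]
          simp only [map_sum]
      _ = ∑ b, l a b (σ (p b d * h)) := by
          refine Finset.sum_congr rfl fun b _ => ?_
          rw [← R2 b d]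
          simp only [map_sum]
      _ = σ (p a d * h) := E1 a d
  have t4 : ∑ b, ∑ c, ∑ e, ∑ f, l a d (l c f (l e b (r b c (σ (p f e * h))))) =
      l a d (σ h) := by
    calc ∑ b, ∑ c, ∑ e, ∑ f, l a d (l c f (l e b (r b c (σ (p f e * h)))))
        = ∑ b, ∑ c, ∑ e, l a d (r b c (l e b (σ (p c e * h)))) := by
          refine Finset.sum_congr rfl fun b _ => Finset.sum_congr rfl fun c _ =>
            Finset.sum_congr rfl fun e _ => ?_
          rw [← E1 c e]
          simp only [map_sum]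
          refine Finset.sum_congr rfl fun f _ => ?_
          rw [hlr e b, hlr c f, hll c f e b]
      _ = ∑ b, ∑ c, l a d (r b c (σ (p b c * h))) := by
          refine Finset.sum_congr rfl fun b _ => Finset.sum_congr rfl fun c _ => ?_
          rw [← E2 c b]
          simp only [map_sum]
      _ = ∑ b, l a d (σ (p b b * h)) := by
          refine Finset.sum_congr rfl fun b _ => ?_
          rw [← R2 b b]
          simp only [map_sum]
      _ = l a d (σ h) := by
          rw [← ht h]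
          simp only [map_sum]
  have t5 : ∑ b, ∑ c, ∑ e, ∑ f, l a f (l c b (l e d (r b c (σ (p f e * h))))) =
      ∑ b, ∑ c, l c b (r b c (σ (p a d * h))) := by
    refine Finset.sum_congr rfl fun b _ => Finset.sum_congr rfl fun c _ => ?_
    rw [hp d a, ← E2 a d]
    simp only [map_sum]
    refine Finset.sum_congr rfl fun e _ => ?_
    rw [← E1 a e]
    simp only [map_sum]
    refine Finset.sum_congr rfl fun f _ => ?_
    rw [hlr e d, hlr c b, hlr a f, hlr c b, hll a f c b, hll a f e d]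
  have t6 : ∑ b, ∑ c, ∑ e, ∑ f, l a f (l c d (l e b (r b c (σ (p f e * h))))) =
      σ (p a d * h) := by
    calc ∑ b, ∑ c, ∑ e, ∑ f, l a f (l c d (l e b (r b c (σ (p f e * h)))))
        = ∑ b, ∑ c, ∑ e, l c d (r b c (l e b (σ (p a e * h)))) := by
          refine Finset.sum_congr rfl fun b _ => Finset.sum_congr rfl fun c _ =>
            Finset.sum_congr rfl fun e _ => ?_
          rw [← E1 a e]
          simp only [map_sum]
          refine Finset.sum_congr rfl fun f _ => ?_
          rw [hll a f c d, hlr e b, hlr a f, hll a f e b]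
      _ = ∑ b, ∑ c, l c d (r b c (σ (p b a * h))) := by
          refine Finset.sum_congr rfl fun b _ => Finset.sum_congr rfl fun c _ => ?_
          rw [← E2 a b]
          simp only [map_sum]
      _ = ∑ c, ∑ b, l c d (r b c (σ (p b a * h))) := Finset.sum_comm
      _ = ∑ c, l c d (σ (p a c * h)) := by
          refine Finset.sum_congr rfl fun c _ => ?_
          rw [hp c a, ← R3 c a]
          simp only [map_sum]
      _ = σ (p a d * h) := by
          rw [E2 a d, hp d a]
  have key : ∑ b, ∑ c, ∑ e, ∑ f, (l a b (l c d (l e f (r b c (σ (p f e * h))))) -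
      l a b (l c f (l e d (r b c (σ (p f e * h))))) - l a d (l c b (l e f (r b c (σ (p f e * h))))) +
      l a d (l c f (l e b (r b c (σ (p f e * h))))) + l a f (l c b (l e d (r b c (σ (p f e * h))))) -
      l a f (l c d (l e b (r b c (σ (p f e * h)))))) = 0 :=
    Finset.sum_eq_zero fun b _ => Finset.sum_eq_zero fun c _ => Finset.sum_eq_zero fun e _ =>
      Finset.sum_eq_zero fun f _ => hdet a b c d e f _
  simp only [Finset.sum_sub_distrib, Finset.sum_add_distrib] at key
  rw [t1, t2, t3, t4, t5, t6] at key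
  have hc : ∑ c, ∑ b, l c b (r b c (σ (p a d * h))) =
      ∑ b, ∑ c, l c b (r b c (σ (p a d * h))) := Finset.sum_comm
  rw [hc, two_nsmul]
  rw [← sub_eq_zero]
  rw [← neg_eq_zero]
  rw [← key]
  abel

end Pool.Agent.Helper45.DC
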