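import Mathlib

/-!
# Layer DC, block 3: the algebra for points

`M` is an additive group with two commuting families of additive operators `l i j` (left multiplication by the entries of the projection on the point `z`), `r i j` (right multiplication by the entries of the projection on the point `y`),
`σ : A → M` additive (`σ h = J* h J`), `P` the projection on the line. Relations: `p(z) P = p(z)`, `P p(y) = p(y)`, traces one, symmetric, the `3 × 3` minors of `P` vanish. Claim: `(1 - tr p(z)p(y)) P = p(z) + p(y) - p(z)p(y) - p(y)p(z)`.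
Proof: `0 = ∑_{c,d,e,f} l f e (r d c (σ (minor(a,c,e; b,d,f) * h)))`. The six terms:
* `P_ab P_cd P_ef`: `∑_e l f e σ(P_ef ..) = l f f σ(..)`, sum over `f`: `σ`; the same on the right: `σ(P_ab h)`.
* `- P_ab P_cf P_ed`: `∑_e l f e σ(P_ed ..) = l f d σ(..)`, `∑_c r d c σ(P_cf ..) = r d f σ(..)`: `- ∑_{f,d} l f d (r d f σ(P_ab h))`.
* `- P_ad P_cb P_ef`: left `σ`, `∑_c r d c σ(P_cb ..) = r d b σ`, `∑_d r d b σ(P_ad h) = r a b σ(h)`: `- r a b σ(h)`.
* `P_ad P_cf P_eb`: `∑_e l f e σ(P_eb ..) = l f b σ`, `∑_c r d c σ(P_cf ..) = r d f σ`, `∑_d r d f σ(P_ad h) = r a f σ(h)`: `∑_f l f b (r a f σ(h))`.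
* `P_af P_cb P_ed`: `∑_e l f e σ(P_ed ..) = l f d σ`, `∑_f l f d σ(P_af ..) = l a d σ`, `∑_c r d c σ(P_cb h) = r d b σ(h)`: `∑_d l a d (r d b σ(h))`.
* `- P_af P_cd P_eb`: right `σ`, `∑_e l f e σ(P_eb ..) = l f b σ`, `∑_f l f b σ(P_af h) = l a b σ(h)`: `- l a b σ(h)`.
(`l`, `r`, `P` symmetric; `l` and `r` commute; `r` commute with `r`? not needed if the sums are done in this order.)
-/

set_option autoImplicit false

namespace Pool.Agent.Helper45.DC

theorem core_points {A M : Type*} [CommRing A] [AddCommGroup M] {N : ℕ} (σ : A →+ M)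
    (l r : Fin N → Fin N → M →+ M) (P : Fin N → Fin N → A)
    (hP : ∀ i j, P j i = P i j) (hls : ∀ i j, l j i = l i j) (hrs : ∀ i j, r j i = r i j)
    (hlr : ∀ i j k m x, l i j (r k m x) = r k m (l i j x))
    (hl : ∀ i k h, ∑ j, l i j (σ (P j k * h)) = l i k (σ h))
    (hr : ∀ i k h, ∑ j, r i j (σ (P j k * h)) = r i k (σ h))
    (hlt : ∀ x, ∑ i, l i i x = x) (hrt : ∀ x, ∑ i, r i i x = x)
    (hdet : ∀ a b c d e f, P a b * P c d * P e f - P a b * P c f * P e d - P a d * P c b * P e f +
      P a d * P c f * P e b + P a f * P c b * P e d - P a f * P c d * P e b = 0)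
    (a b : Fin N) (h : A) :
    σ (P a b * h) - ∑ f, ∑ d, l f d (r d f (σ (P a b * h))) =
      l a b (σ h) + r a b (σ h) - ∑ f, l f b (r a f (σ h)) - ∑ d, l a d (r d b (σ h)) := by
  have L0 : ∀ i k h', ∑ j, l j i (σ (P k j * h')) = l i k (σ h') := by
    intro i k h'
    rw [← hl i k h']
    refine Finset.sum_congr rfl fun j _ => ?_
    rw [hls i j, hP j k]
  have R0 : ∀ i k h', ∑ j, r j i (σ (P k j * h')) = r i k (σ h') := by
    intro i k h'
    rw [← hr i k h']
    refine Finset.sum_congr rfl fun j _ => ?_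
    rw [hrs i j, hP j k]
  have L1 : ∀ h', ∑ e, ∑ f, l f e (σ (P e f * h')) = σ h' := by
    intro h'
    rw [Finset.sum_comm, ← hlt (σ h')]
    exact Finset.sum_congr rfl fun f _ => hl f f h'
  have R1 : ∀ h', ∑ c, ∑ d, r d c (σ (P c d * h')) = σ h' := by
    intro h'
    rw [Finset.sum_comm, ← hrt (σ h')]
    exact Finset.sum_congr rfl fun f _ => hr f f h'
  have t1 : ∑ c, ∑ d, ∑ e, ∑ f, l f e (r d c (σ (P a b * P c d * P e f * h))) = σ (P a b * h) := by
    rw [← R1 (P a b * h)]
    refine Finset.sum_congr rfl fun c _ => Finset.sum_congr rfl fun d _ => ?_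
    rw [← L1 (P c d * (P a b * h))]
    simp only [map_sum]
    refine Finset.sum_congr rfl fun e _ => Finset.sum_congr rfl fun f _ => ?_
    rw [hlr]
    congr 3
    ring
  have t2 : ∑ c, ∑ d, ∑ e, ∑ f, l f e (r d c (σ (P a b * P c f * P e d * h))) =
      ∑ f, ∑ d, l f d (r d f (σ (P a b * h))) := by
    calc ∑ c, ∑ d, ∑ e, ∑ f, l f e (r d c (σ (P a b * P c f * P e d * h)))
        = ∑ c, ∑ d, ∑ f, l f d (r d c (σ (P c f * (P a b * h)))) := by
          refine Finset.sum_congr rfl fun c _ => Finset.sum_congr rfl fun d _ => ?_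
          rw [Finset.sum_comm]
          refine Finset.sum_congr rfl fun f _ => ?_
          rw [hlr f d, ← hl f d]
          simp only [map_sum]
          refine Finset.sum_congr rfl fun e _ => ?_
          rw [hlr]
          congr 3
          ring
      _ = ∑ d, ∑ f, ∑ c, l f d (r d c (σ (P c f * (P a b * h)))) := by
          rw [Finset.sum_comm]
          refine Finset.sum_congr rfl fun d _ => Finset.sum_comm
      _ = ∑ d, ∑ f, l f d (r d f (σ (P a b * h))) := by
          refine Finset.sum_congr rfl fun d _ => Finset.sum_congr rfl fun f _ => ?_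
          rw [← hr d f]
          simp only [map_sum]
      _ = ∑ f, ∑ d, l f d (r d f (σ (P a b * h))) := Finset.sum_comm
  have t3 : ∑ c, ∑ d, ∑ e, ∑ f, l f e (r d c (σ (P a d * P c b * P e f * h))) = r a b (σ h) := by
    calc ∑ c, ∑ d, ∑ e, ∑ f, l f e (r d c (σ (P a d * P c b * P e f * h)))
        = ∑ c, ∑ d, r d c (σ (P c b * (P a d * h))) := by
          refine Finset.sum_congr rfl fun c _ => Finset.sum_congr rfl fun d _ => ?_
          rw [← L1 (P c b * (P a d * h))]
          simp only [map_sum]
          refine Finset.sum_congr rfl fun e _ => Finset.sum_congr rfl fun f _ => ?_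
          rw [hlr]
          congr 3
          ring
      _ = ∑ d, r d b (σ (P a d * h)) := by
          rw [Finset.sum_comm]
          exact Finset.sum_congr rfl fun d _ => hr d b _
      _ = r a b (σ h) := by
          rw [R0 b a h, hrs a b]
  have t4 : ∑ c, ∑ d, ∑ e, ∑ f, l f e (r d c (σ (P a d * P c f * P e b * h))) =
      ∑ f, l f b (r a f (σ h)) := by
    calc ∑ c, ∑ d, ∑ e, ∑ f, l f e (r d c (σ (P a d * P c f * P e b * h)))
        = ∑ c, ∑ d, ∑ f, l f b (r d c (σ (P c f * (P a d * h)))) := by
          refine Finset.sum_congr rfl fun c _ => Finset.sum_congr rfl fun d _ => ?_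
          rw [Finset.sum_comm]
          refine Finset.sum_congr rfl fun f _ => ?_
          rw [hlr f b, ← hl f b]
          simp only [map_sum]
          refine Finset.sum_congr rfl fun e _ => ?_
          rw [hlr]
          congr 3
          ring
      _ = ∑ d, ∑ f, ∑ c, l f b (r d c (σ (P c f * (P a d * h)))) := by
          rw [Finset.sum_comm]
          refine Finset.sum_congr rfl fun d _ => Finset.sum_comm
      _ = ∑ d, ∑ f, l f b (r d f (σ (P a d * h))) := by
          refine Finset.sum_congr rfl fun d _ => Finset.sum_congr rfl fun f _ => ?_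
          rw [← hr d f]
          simp only [map_sum]
      _ = ∑ f, ∑ d, l f b (r d f (σ (P a d * h))) := Finset.sum_comm
      _ = ∑ f, l f b (r a f (σ h)) := by
          refine Finset.sum_congr rfl fun f _ => ?_
          rw [hrs f a, ← R0 f a h]
          simp only [map_sum]
  have t5 : ∑ c, ∑ d, ∑ e, ∑ f, l f e (r d c (σ (P a f * P c b * P e d * h))) =
      ∑ d, l a d (r d b (σ h)) := by
    calc ∑ c, ∑ d, ∑ e, ∑ f, l f e (r d c (σ (P a f * P c b * P e d * h)))
        = ∑ c, ∑ d, ∑ f, l f d (r d c (σ (P a f * (P c b * h)))) := by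
          refine Finset.sum_congr rfl fun c _ => Finset.sum_congr rfl fun d _ => ?_
          rw [Finset.sum_comm]
          refine Finset.sum_congr rfl fun f _ => ?_
          rw [hlr f d, ← hl f d]
          simp only [map_sum]
          refine Finset.sum_congr rfl fun e _ => ?_
          rw [hlr]
          congr 3
          ring
      _ = ∑ c, ∑ d, l a d (r d c (σ (P c b * h))) := by
          refine Finset.sum_congr rfl fun c _ => Finset.sum_congr rfl fun d _ => ?_
          rw [hls d a, hlr d a, ← L0 d a]
          simp only [map_sum]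
          refine Finset.sum_congr rfl fun f _ => ?_
          rw [hlr]
      _ = ∑ d, ∑ c, l a d (r d c (σ (P c b * h))) := Finset.sum_comm
      _ = ∑ d, l a d (r d b (σ h)) := by
          refine Finset.sum_congr rfl fun d _ => ?_
          rw [← hr d b]
          simp only [map_sum]
  have t6 : ∑ c, ∑ d, ∑ e, ∑ f, l f e (r d c (σ (P a f * P c d * P e b * h))) = l a b (σ h) := by
    calc ∑ c, ∑ d, ∑ e, ∑ f, l f e (r d c (σ (P a f * P c d * P e b * h)))
        = ∑ c, ∑ d, ∑ f, l f b (r d c (σ (P c d * (P a f * h)))) := by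
          refine Finset.sum_congr rfl fun c _ => Finset.sum_congr rfl fun d _ => ?_
          rw [Finset.sum_comm]
          refine Finset.sum_congr rfl fun f _ => ?_
          rw [hlr f b, ← hl f b]
          simp only [map_sum]
          refine Finset.sum_congr rfl fun e _ => ?_
          rw [hlr]
          congr 3
          ring
      _ = ∑ f, ∑ c, ∑ d, l f b (r d c (σ (P c d * (P a f * h)))) := by
          have e1 : ∀ c, ∑ d, ∑ f, l f b (r d c (σ (P c d * (P a f * h)))) =
              ∑ f, ∑ d, l f b (r d c (σ (P c d * (P a f * h)))) := fun c => Finset.sum_comm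
          simp only [e1]
          exact Finset.sum_comm
      _ = ∑ f, l f b (σ (P a f * h)) := by
          refine Finset.sum_congr rfl fun f _ => ?_
          rw [← R1 (P a f * h)]
          simp only [map_sum]
      _ = l a b (σ h) := by
          rw [L0 b a h, hls a b]
  have key : ∑ c, ∑ d, ∑ e, ∑ f, l f e (r d c (σ ((P a b * P c d * P e f - P a b * P c f * P e d -
      P a d * P c b * P e f + P a d * P c f * P e b + P a f * P c b * P e d - P a f * P c d * P e b) *
        h))) = 0 := by
    refine Finset.sum_eq_zero fun c _ => Finset.sum_eq_zero fun d _ => Finset.sum_eq_zero fun e _ =>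
      Finset.sum_eq_zero fun f _ => ?_
    rw [hdet a b c d e f, zero_mul, map_zero, map_zero, map_zero]
  simp only [sub_mul, add_mul, map_sub, map_add, Finset.sum_sub_distrib, Finset.sum_add_distrib] at key
  rw [t1, t2, t3, t4, t5, t6] at key
  rw [← sub_eq_zero, ← key]
  abel

end Pool.Agent.Helper45.DC
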