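import Pool.Agent.Helper45.DC.Defs

/-!
# Layer DC, block 1: the criterion

`T = Tb μ a E R b`, `T* T = p > 0` (`exists_mass`, `p = ‖XPpr R (vec μ a E b)‖ ^ 2`). Let `F` be the set of the `η` such that `T T* (f T η) = p f T η` for all `f` with `AV R pd f` (that is `f T η ∈ T H`).
`F` is a closed subspace. `D ξ ∈ F`: `T D T*` is local, so it commutes with `Mf f` (`loc_Mf`): `f T D (p ξ) = f (T D T*) (T ξ) = T D T* f T ξ =: T ζ`, and `T T* T ζ = p T ζ`.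
`F` is invariant under `W_k` for all `k` (`Tb_W`, `Mf_XBU`: `f (XBU k x) = XBU k (f(· k⁻¹) x)`, `AV.shift hPS`; `T T*` commutes with `XBU k`: `T T* XBU k = T (T* XBU_k) = T W_k T*`, as `XBU k T = T W_k` and both are unitary),
under `xE D` (`Tb_xE`, `(pyU μ b R).p D` commutes with `Mf f`: see `adj_xE`) and under `V_q`, `q ∈ Ctr b` (`Tb_contr`, `Mf_sSU`; `q⁻¹ ∈ Ctr b`).
So the orthogonal projection on `F` commutes with all these operators (a projection on a subspace invariant under `u` and its adjoint commutes with `u`; e.g. `proj_comm`, used in `XPpr_sS`), so it is a scalar (`ErgU`), not `0` as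
`D ξ ∈ F`, so `F = H` (`φ = c⁻¹ • proj φ ∈ F`). Then `T T* f T T* x = p f T T* x` for all `x`, `f`; with the adjoint (for `conj f`, `AV.conj`, `Mf_adj`): `T T* f T T* = p T T* f`. So `T T*` commutes with `Mf f`; `loc_of_Mf`.
-/

set_option autoImplicit false
set_option linter.unusedSectionVars false

open MeasureTheory Filter Topology

namespace Pool.Agent.Helper45.DC

open Pool.Agent.Helper84 Pool.Agent.Helper84.GN Pool.Agent.Helper84.GN.S3 Pool.Agent.Helper84.GN.S3.X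
open Pool.Agent.Helper84.NI Pool.Agent.Helper84.GVN Pool.Agent.Helper90.RK
open Pool.Agent.Helper96.RK Pool.Agent.Helper66.FR Pool.Agent.Helper84.FR Pool.Agent.Helper55.FR
open Pool.Agent.Helper78.BM

variable {G1 X G Λ : Type} [Group G1] [TopologicalSpace G1] [IsTopologicalGroup G1] [MeasurableSpace X] [MulAction G1 X]
  [MeasurableConstSMul G1 X] [Group G] [Group Λ] [Countable Λ] {μ : Measure X} [SMulInvariantMeasure G1 X μ]
  [IsProbabilityMeasure μ] {a : Cocy G1 X Λ} {E : Emb Λ G} {R : Reg G} {pd : PD G} {b : ℕ → G1}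

section Abs94

variable {H K : Type} [NormedAddCommGroup H] [InnerProductSpace ℂ H] [CompleteSpace H]
  [NormedAddCommGroup K] [InnerProductSpace ℂ K] [CompleteSpace K]

private noncomputable def F94 (T : H →L[ℂ] K) (p : ℂ) (Q : Set (K →L[ℂ] K)) : Submodule ℂ H where
  carrier := {η | ∀ M ∈ Q, T (ContinuousLinearMap.adjoint T (M (T η))) = p • M (T η)}
  zero_mem' := fun M _ => by simp only [map_zero, smul_zero]
  add_mem' := by
    intro x y hx hy M hM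
    simp only [map_add, smul_add]
    rw [hx M hM, hy M hM]
  smul_mem' := by
    intro c x hx M hM
    simp only [map_smul]
    rw [hx M hM, smul_comm]

private theorem mem_F94 {T : H →L[ℂ] K} {p : ℂ} {Q : Set (K →L[ℂ] K)} {η : H} :
    η ∈ F94 T p Q ↔ ∀ M ∈ Q, T (ContinuousLinearMap.adjoint T (M (T η))) = p • M (T η) := Iff.rfl

private theorem closed_F94 (T : H →L[ℂ] K) (p : ℂ) (Q : Set (K →L[ℂ] K)) :
    IsClosed (F94 T p Q : Set H) := by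
  have h : (F94 T p Q : Set H) =
      ⋂ M ∈ Q, {η | T (ContinuousLinearMap.adjoint T (M (T η))) = p • M (T η)} := by
    ext η
    simp only [SetLike.mem_coe, mem_F94, Set.mem_iInter, Set.mem_ofPred_eq]
  rw [h]
  refine isClosed_biInter fun M _ => isClosed_eq ?_ ?_
  · exact (T.continuous.comp ((ContinuousLinearMap.adjoint T).continuous.comp
      (M.continuous.comp T.continuous)))
  · exact (M.continuous.comp T.continuous).const_smul p

/-- Invariance. -/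
private theorem inv_F94 {T : H →L[ℂ] K} {p : ℂ} {Q : Set (K →L[ℂ] K)} {u : H → H} {s : K → K}
    (hs : ∀ (c : ℂ) y, s (c • y) = c • s y)
    (h : ∀ x, T (u x) = s (T x)) (h1 : ∀ y, ContinuousLinearMap.adjoint T (s y) = u (ContinuousLinearMap.adjoint T y))
    (hQ : ∀ M ∈ Q, ∃ M' ∈ Q, ∀ y, M (s y) = s (M' y)) {η : H} (hη : η ∈ F94 T p Q) : u η ∈ F94 T p Q := by
  intro M hM
  obtain ⟨M', hM', h2⟩ := hQ M hM
  rw [h, h2, h1, h, mem_F94.1 hη M' hM', hs]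

private theorem adj_unit94 (T : H →L[ℂ] K) {u : H → H} {s : K → K}
    (hu : ∀ x y, inner ℂ (u x) (u y) = inner ℂ x y) (husur : ∀ y, ∃ x, u x = y)
    (hs : ∀ x y, inner ℂ (s x) (s y) = inner ℂ x y) (h : ∀ x, T (u x) = s (T x)) (y : K) :
    ContinuousLinearMap.adjoint T (s y) = u (ContinuousLinearMap.adjoint T y) := by
  refine ext_inner_left ℂ fun z => ?_
  obtain ⟨w, rfl⟩ := husur z
  rw [ContinuousLinearMap.adjoint_inner_right, h, hs, hu, ContinuousLinearMap.adjoint_inner_right]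

private theorem adj_sa94 (T : H →L[ℂ] K) {u : H → H} {s : K → K}
    (hu : ∀ x y, inner ℂ (u x) y = inner ℂ x (u y)) (hs : ∀ x y, inner ℂ (s x) y = inner ℂ x (s y))
    (h : ∀ x, T (u x) = s (T x)) (y : K) :
    ContinuousLinearMap.adjoint T (s y) = u (ContinuousLinearMap.adjoint T y) := by
  refine ext_inner_left ℂ fun z => ?_
  rw [ContinuousLinearMap.adjoint_inner_right, ← hs, ← h, ← hu, ContinuousLinearMap.adjoint_inner_right]

/-- The abstract form. -/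
private theorem top_F94 {T : H →L[ℂ] K} {p : ℂ} {Q : Set (K →L[ℂ] K)} {U : Set (H →L[ℂ] H)}
    (hU : ∀ u ∈ U, (∀ x ∈ F94 T p Q, u x ∈ F94 T p Q) ∧ ∃ u' : H →L[ℂ] H,
      (∀ x y, inner ℂ (u x) y = inner ℂ x (u' y)) ∧ ∀ x ∈ F94 T p Q, u' x ∈ F94 T p Q)
    (hE : ∀ Y : H →L[ℂ] H, (∀ u ∈ U, ∀ φ, Y (u φ) = u (Y φ)) → ∃ c : ℂ, ∀ φ, Y φ = c • φ)
    {η : H} (hη : η ∈ F94 T p Q) (hη0 : η ≠ 0) (φ : H) : φ ∈ F94 T p Q := by
  have : CompleteSpace (F94 T p Q) := (closed_F94 T p Q).isComplete.completeSpace_coe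
  obtain ⟨c, hc⟩ := hE (F94 T p Q).starProjection fun u hu φ => by
    obtain ⟨h1, u', h2, h3⟩ := hU u hu
    exact proj_comm h2 h1 h3 φ
  have h1 : c • η = η := by
    rw [← hc]
    exact Submodule.starProjection_eq_self_iff.2 hη
  have h2 : c = 1 := by
    have h3 : (c - 1) • η = 0 := by
      rw [sub_smul, one_smul, h1, sub_self]
    rcases smul_eq_zero.1 h3 with h4 | h4
    · exact sub_eq_zero.1 h4
    · exact absurd h4 hη0
  have h3 := hc φ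
  rw [h2, one_smul] at h3
  exact Submodule.starProjection_eq_self_iff.1 h3

/-- Commutation. -/
private theorem comm_F94 {T : H →L[ℂ] K} {p : ℝ} (hp : 0 < p) {Q : Set (K →L[ℂ] K)}
    (hQ : ∀ M ∈ Q, ∃ M' ∈ Q, ∀ x y, inner ℂ (M x) y = inner ℂ x (M' y))
    (hF : ∀ φ, φ ∈ F94 T (p : ℂ) Q) {M : K →L[ℂ] K} (hM : M ∈ Q) (x : K) :
    T (ContinuousLinearMap.adjoint T (M x)) = M (T (ContinuousLinearMap.adjoint T x)) := by
  obtain ⟨M', hM', hMM⟩ := hQ M hM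
  have hS : ∀ x y, inner ℂ (T (ContinuousLinearMap.adjoint T x)) y =
      inner ℂ x (T (ContinuousLinearMap.adjoint T y)) := by
    intro x y
    rw [← ContinuousLinearMap.adjoint_inner_right T, ← ContinuousLinearMap.adjoint_inner_left T]
  have h1 : ∀ x, T (ContinuousLinearMap.adjoint T (M (T (ContinuousLinearMap.adjoint T x)))) =
      (p : ℂ) • M (T (ContinuousLinearMap.adjoint T x)) := fun x => mem_F94.1 (hF _) M hM
  have h2 : ∀ x, T (ContinuousLinearMap.adjoint T (M' (T (ContinuousLinearMap.adjoint T x)))) =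
      (p : ℂ) • M' (T (ContinuousLinearMap.adjoint T x)) := fun x => mem_F94.1 (hF _) M' hM'
  have h3 : ∀ x, T (ContinuousLinearMap.adjoint T (M (T (ContinuousLinearMap.adjoint T x)))) =
      (p : ℂ) • T (ContinuousLinearMap.adjoint T (M x)) := by
    intro x
    refine ext_inner_right ℂ fun y => ?_
    rw [hS, hMM, hS, h2, inner_smul_right, inner_smul_left, hS, hMM, Complex.conj_ofReal]
  have h4 : (p : ℂ) ≠ 0 := Complex.ofReal_ne_zero.2 hp.ne'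
  exact smul_right_injective _ h4 ((h3 x).symm.trans (h1 x))

end Abs94

/-- The multiplications. -/
private def Q94 (μ : Measure X) (R : Reg G) (pd : PD G) : Set (XUa μ R →L[ℂ] XUa μ R) :=
  {M | ∃ f : G → ℂ, AV R pd f ∧ M = Mf μ R f}

private theorem invW94 (hPS : PSh R pd) (p : ℂ) (k : G) (x : XL μ (L2 G))
    (hx : x ∈ F94 (Tb μ a E R b) p (Q94 μ R pd)) : Wk μ k x ∈ F94 (Tb μ a E R b) p (Q94 μ R pd) := by
  have hadj := adj_unit94 (Tb μ a E R b) (u := Wk μ k) (s := XBU R k) (inner_Wk k)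
    (fun y => ⟨Wk μ k⁻¹ y, Wk_inv' k y⟩) (inner_XBU k) (Tb_W k)
  refine inv_F94 (u := Wk μ k) (s := XBU R k) (fun c y => map_smul (XBU R k) c y) (Tb_W k) hadj ?_ hx
  rintro M ⟨f, hf, rfl⟩
  obtain ⟨C, hC⟩ := hf.bdd
  refine ⟨Mf μ R fun γ => f (γ * k⁻¹), ⟨_, hf.shift hPS k⁻¹, rfl⟩, fun y => ?_⟩
  have h1 := Mf_XBU (μ := μ) (R := R) (f := fun γ => f (γ * k⁻¹)) (C := C) (fun γ => hC _) k y
  simp only [mul_inv_cancel_right] at h1
  exact h1.symm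

private theorem invV94 (h3 : Tendsto (fun g : G1 => μ {x | a.a g x ≠ 1}) (𝓝 1) (𝓝 0)) (p : ℂ) {q : G1}
    (hq : q ∈ Ctr b) (x : XL μ (L2 G))
    (hx : x ∈ F94 (Tb μ a E R b) p (Q94 μ R pd)) : Vq μ a E q x ∈ F94 (Tb μ a E R b) p (Q94 μ R pd) := by
  have hadj := adj_unit94 (Tb μ a E R b) (u := Vq μ a E q) (s := sSU μ R fun n => b n * q * (b n)⁻¹)
    (inner_Vq q) (fun y => ⟨Vq μ a E q⁻¹ y, Vq_inv' q y⟩) (inner_sSU _) (Tb_contr h3 hq)
  refine inv_F94 (u := Vq μ a E q) (s := sSU μ R fun n => b n * q * (b n)⁻¹)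
    (fun c y => map_smul (sSU μ R fun n => b n * q * (b n)⁻¹) c y) (Tb_contr h3 hq) hadj ?_ hx
  rintro M ⟨f, hf, rfl⟩
  exact ⟨_, ⟨f, hf, rfl⟩, fun y => (Mf_sSU _ y).symm⟩

private theorem invX94 (p : ℂ) {D : Set X} (hD : MeasurableSet D) (x : XL μ (L2 G))
    (hx : x ∈ F94 (Tb μ a E R b) p (Q94 μ R pd)) : xE μ (L2 G) D x ∈ F94 (Tb μ a E R b) p (Q94 μ R pd) := by
  have hadj := adj_sa94 (Tb μ a E R b) (u := xE μ (L2 G) D) (s := (pyU μ b R).p D)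
    (xE_symm hD) ((pyU μ b R).symm D hD) (Tb_xE hD)
  refine inv_F94 (u := xE μ (L2 G) D) (s := (pyU μ b R).p D)
    (fun c y => map_smul ((pyU μ b R).p D) c y) (Tb_xE hD) hadj ?_ hx
  rintro M ⟨f, hf, rfl⟩
  exact ⟨_, ⟨f, hf, rfl⟩, fun y => (hom_rst (xmU_hom b (mulop f)) _ _ fun _ hx => mulop_memX R hx).y D hD y⟩

private theorem D_mem94 {p : ℝ} (hp0 : (p : ℂ) ≠ 0)
    (hTT : ∀ φ, ContinuousLinearMap.adjoint (Tb μ a E R b) (Tb μ a E R b φ) = (p : ℂ) • φ)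
    (D : XL μ (L2 G) →L[ℂ] XL μ (L2 G))
    (hloc : LocX R pd ((Tb μ a E R b).comp (D.comp (ContinuousLinearMap.adjoint (Tb μ a E R b)))))
    (φ : XL μ (L2 G)) : D φ ∈ F94 (Tb μ a E R b) (p : ℂ) (Q94 μ R pd) := by
  rintro M ⟨f, hf, rfl⟩
  have h1 := loc_Mf hloc hf (Tb μ a E R b φ)
  change Tb μ a E R b (D (ContinuousLinearMap.adjoint (Tb μ a E R b) (Mf μ R f (Tb μ a E R b φ)))) =
    Mf μ R f (Tb μ a E R b (D (ContinuousLinearMap.adjoint (Tb μ a E R b) (Tb μ a E R b φ)))) at h1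
  rw [hTT, map_smul, map_smul, map_smul] at h1
  have h2 : Mf μ R f (Tb μ a E R b (D φ)) = (p : ℂ)⁻¹ •
      Tb μ a E R b (D (ContinuousLinearMap.adjoint (Tb μ a E R b) (Mf μ R f (Tb μ a E R b φ)))) := by
    rw [h1, smul_smul, inv_mul_cancel₀ hp0, one_smul]
  rw [h2, map_smul, map_smul, hTT, map_smul, smul_comm]

/-- The operators. -/
private def U94 (μ : Measure X) [SMulInvariantMeasure G1 X μ] (a : Cocy G1 X Λ) (E : Emb Λ G) (b : ℕ → G1) :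
    Set (XL μ (L2 G) →L[ℂ] XL μ (L2 G)) :=
  {u | (∃ D : Set X, MeasurableSet D ∧ u = xE μ (L2 G) D) ∨ (∃ k : G, u = Wk μ k) ∨ ∃ q ∈ Ctr b, u = Vq μ a E q}

private theorem inv_Ctr94 {q : G1} (hq : q ∈ Ctr b) : q⁻¹ ∈ Ctr b := by
  have h1 : Tendsto (fun n => (b n * q * (b n)⁻¹)⁻¹) (hyperfilter ℕ : Filter ℕ) (𝓝 1) := by
    have h2 := (show Tendsto (fun n => b n * q * (b n)⁻¹) (hyperfilter ℕ : Filter ℕ) (𝓝 1) from hq).inv
    rwa [inv_one] at h2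
  refine h1.congr fun n => ?_
  rw [mul_inv_rev, mul_inv_rev, inv_inv, mul_assoc]

private theorem U94_inv (hPS : PSh R pd) (h3 : Tendsto (fun g : G1 => μ {x | a.a g x ≠ 1}) (𝓝 1) (𝓝 0)) (p : ℂ)
    (u : XL μ (L2 G) →L[ℂ] XL μ (L2 G)) (hu : u ∈ U94 μ a E b) :
    (∀ x ∈ F94 (Tb μ a E R b) p (Q94 μ R pd), u x ∈ F94 (Tb μ a E R b) p (Q94 μ R pd)) ∧
    ∃ u' : XL μ (L2 G) →L[ℂ] XL μ (L2 G), (∀ x y, inner ℂ (u x) y = inner ℂ x (u' y)) ∧
      ∀ x ∈ F94 (Tb μ a E R b) p (Q94 μ R pd), u' x ∈ F94 (Tb μ a E R b) p (Q94 μ R pd) := by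
  rcases hu with ⟨D, hD, rfl⟩ | ⟨k, rfl⟩ | ⟨q, hq, rfl⟩
  · exact ⟨invX94 p hD, xE μ (L2 G) D, xE_symm hD, invX94 p hD⟩
  · refine ⟨invW94 hPS p k, Wk μ k⁻¹, fun x y => ?_, invW94 hPS p k⁻¹⟩
    rw [← inner_Wk k x, Wk_inv']
  · refine ⟨invV94 h3 p hq, Vq μ a E q⁻¹, fun x y => ?_, invV94 h3 p (inv_Ctr94 hq)⟩
    rw [← inner_Vq (μ := μ) (a := a) (E := E) q x, Vq_inv']

private theorem U94_erg (hE : ErgU μ a E (Ctr b)) (Y : XL μ (L2 G) →L[ℂ] XL μ (L2 G))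
    (hY : ∀ u ∈ U94 μ a E b, ∀ φ, Y (u φ) = u (Y φ)) : ∃ c : ℂ, ∀ φ, Y φ = c • φ := by
  refine hE Y (fun D hD φ => ?_) (fun k φ => ?_) fun q hq φ => ?_
  · exact hY _ (Or.inl ⟨D, hD, rfl⟩) φ
  · exact hY _ (Or.inr (Or.inl ⟨k, rfl⟩)) φ
  · exact hY _ (Or.inr (Or.inr ⟨q, hq, rfl⟩)) φ

private theorem Q94_adj (M : XUa μ R →L[ℂ] XUa μ R) (hM : M ∈ Q94 μ R pd) :
    ∃ M' ∈ Q94 μ R pd, ∀ x y, inner ℂ (M x) y = inner ℂ x (M' y) := by
  obtain ⟨f, hf, rfl⟩ := hM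
  obtain ⟨C, hC⟩ := hf.bdd
  exact ⟨Mf μ R fun γ => (starRingEnd ℂ) (f γ), ⟨_, hf.conj, rfl⟩, Mf_adj hC⟩

/-- The projection onto `F`. -/
theorem crit (hPS : PSh R pd) (h3 : Tendsto (fun g : G1 => μ {x | a.a g x ≠ 1}) (𝓝 1) (𝓝 0))
    (hE : ErgU μ a E (Ctr b)) (h0 : XPpr R (vec μ a E b) ≠ 0)
    (D : XL μ (L2 G) →L[ℂ] XL μ (L2 G)) (hD : ∃ φ, D φ ≠ 0)
    (hloc : LocX R pd ((Tb μ a E R b).comp (D.comp (ContinuousLinearMap.adjoint (Tb μ a E R b))))) :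
    Nonempty (BMap μ a E R pd b) := by
  have hpp : 0 < ‖XPpr R (vec μ a E b)‖ ^ 2 := pow_pos (norm_pos_iff.2 h0) 2
  obtain ⟨p, hp⟩ : ∃ p : ℝ, p = ‖XPpr R (vec μ a E b)‖ ^ 2 := ⟨_, rfl⟩
  have hTT := exists_mass (R := R) (b := b) hE h3
  rw [← hp] at hpp hTT
  have hp0 : (p : ℂ) ≠ 0 := Complex.ofReal_ne_zero.2 hpp.ne'
  obtain ⟨φ, hφ⟩ := hD
  have hall : ∀ ψ, ψ ∈ F94 (Tb μ a E R b) (p : ℂ) (Q94 μ R pd) := fun ψ =>
    top_F94 (U := U94 μ a E b) (U94_inv hPS h3 (p : ℂ)) (U94_erg hE) (D_mem94 hp0 hTT D hloc φ) hφ ψ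
  refine ⟨⟨p, hpp, hTT, loc_of_Mf fun f hf hfb x => ?_⟩⟩
  obtain ⟨C, hC⟩ := hfb
  have h4 : Mf μ R f ∈ Q94 μ R pd := ⟨f, AV.of_uc hf hC, rfl⟩
  exact comm_F94 hpp (Q := Q94 μ R pd) Q94_adj hall h4 x

end Pool.Agent.Helper45.DC
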