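import Pool.Agent.Helper78.BM.Phi
import Pool.Agent.Helper78.BM.Pos

/-!
# Project OB (MP_0f6f3f_an, target `so(2,n)`), layer DC: definitions

`p`, `P : G → MN N`: the positions as projection valued functions (points of an isotropic quadric: rank one, lines: rank two), real and symmetric. `Pm pd d p`: idempotent, trace `d`, uniformly continuous entries, and
`p` controls the pseudometric `pd`. `Min3 P`: the `3 × 3` minors vanish. `Inc μ p P J`: the kernel of `J : XUa μ R1 → XUa μ R2` is carried by the incident pairs, `P J p = J p`.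
`sg J f = J* f J`. `Bdf G`: the ring of bounded functions on `G`.
-/

set_option autoImplicit false
set_option linter.unusedSectionVars false

open MeasureTheory Filter Topology

namespace Pool.Agent.Helper45.DC

open Pool.Agent.Helper84 Pool.Agent.Helper84.GN Pool.Agent.Helper84.GN.S3 Pool.Agent.Helper84.GN.S3.X
open Pool.Agent.Helper84.NI Pool.Agent.Helper84.GVN Pool.Agent.Helper90.RK
open Pool.Agent.Helper96.RK Pool.Agent.Helper66.FR Pool.Agent.Helper84.FR Pool.Agent.Helper55.FR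
open Pool.Agent.Helper78.BM

/-- Real symmetric idempotents of trace `d`, uniformly continuous, which control the pseudometric. -/
structure Pm {G : Type} (pd : PD G) {N : ℕ} (d : ℕ) (p : G → MN N) : Prop where
  re : ∀ γ i j, (starRingEnd ℂ) (p γ i j) = p γ i j
  symm : ∀ γ i j, p γ j i = p γ i j
  idem : ∀ γ i j, ∑ k, p γ i k * p γ k j = p γ i j
  tr : ∀ γ, ∑ i, p γ i i = d
  uc : ∀ i j, UC pd fun γ => p γ i j
  sep : ∀ δ : ℝ, 0 < δ → ∃ c : ℝ, 0 < c ∧ ∀ γ γ', δ ≤ pd.d γ γ' → c ≤ ns (p γ - p γ')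

/-- The `3 × 3` minors vanish. -/
def Min3 {G : Type} {N : ℕ} (P : G → MN N) : Prop := ∀ γ a b c d e f,
  P γ a b * P γ c d * P γ e f - P γ a b * P γ c f * P γ e d - P γ a d * P γ c b * P γ e f +
    P γ a d * P γ c f * P γ e b + P γ a f * P γ c b * P γ e d - P γ a f * P γ c d * P γ e b = 0

section

variable {G X : Type} [Group G] [MeasurableSpace X] (μ : Measure X) {R1 R2 : Reg G} {N : ℕ}

/-- The kernel of `J` is carried by the incident pairs. -/
def Inc (p P : G → MN N) (J : XUa μ R1 →L[ℂ] XUa μ R2) : Prop :=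
  ∀ (a c : Fin N) (x : XUa μ R1),
    ∑ b, Mf μ R2 (fun γ => P γ c b) (J (Mf μ R1 (fun γ => p γ b a) x)) =
      J (Mf μ R1 (fun γ => p γ c a) x)

variable {μ}

/-- The operator `J* f J`. -/
noncomputable def sg (J : XUa μ R1 →L[ℂ] XUa μ R2) (f : G → ℂ) : XUa μ R1 →L[ℂ] XUa μ R1 :=
  (ContinuousLinearMap.adjoint J).comp ((Mf μ R2 f).comp J)

theorem sg_apply (J : XUa μ R1 →L[ℂ] XUa μ R2) (f : G → ℂ) (x : XUa μ R1) :
    sg J f x = ContinuousLinearMap.adjoint J (Mf μ R2 f (J x)) := rfl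

end

/-- The ring of the bounded functions. -/
def Bdf (G : Type) : Subring (G → ℂ) where
  carrier := {f | ∃ C : ℝ, ∀ γ, ‖f γ‖ ≤ C}
  zero_mem' := ⟨0, fun γ => by simp⟩
  one_mem' := ⟨1, fun γ => by simp⟩
  add_mem' := by
    rintro f g ⟨C, hC⟩ ⟨D, hD⟩
    exact ⟨C + D, fun γ => (norm_add_le _ _).trans (add_le_add (hC γ) (hD γ))⟩
  mul_mem' := by
    rintro f g ⟨C, hC⟩ ⟨D, hD⟩
    exact ⟨C * D, fun γ => (norm_mul_le _ _).trans
      (mul_le_mul (hC γ) (hD γ) (norm_nonneg _) ((norm_nonneg _).trans (hC γ)))⟩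
  neg_mem' := by
    rintro f ⟨C, hC⟩
    exact ⟨C, fun γ => by rw [Pi.neg_apply, norm_neg]; exact hC γ⟩

theorem mem_Bdf {G : Type} {f : G → ℂ} : f ∈ Bdf G ↔ ∃ C : ℝ, ∀ γ, ‖f γ‖ ≤ C := Iff.rfl

/-- The entries are bounded by one. -/
theorem Pm.le_one {G : Type} {pd : PD G} {N d : ℕ} {p : G → MN N} (hp : Pm pd d p) (γ : G)
    (i j : Fin N) : ‖p γ i j‖ ≤ 1 := by
  have key : ∀ i : Fin N, ∑ k, ‖p γ i k‖ ^ 2 = (p γ i i).re := by
    intro i
    have h1 := hp.idem γ i i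
    have h2 : ∀ k, p γ i k * p γ k i = ((‖p γ i k‖ ^ 2 : ℝ) : ℂ) := by
      intro k
      rw [hp.symm γ i k]
      have h3 := Complex.mul_conj (p γ i k)
      rw [hp.re, Complex.normSq_eq_norm_sq] at h3
      exact h3
    rw [Finset.sum_congr rfl fun k _ => h2 k, ← Complex.ofReal_sum] at h1
    rw [← h1, Complex.ofReal_re]
  have h0 : ∀ i : Fin N, ‖p γ i i‖ ^ 2 ≤ ‖p γ i i‖ := by
    intro i
    have h1 : ‖p γ i i‖ ^ 2 ≤ ∑ k, ‖p γ i k‖ ^ 2 :=
      Finset.single_le_sum (f := fun k => ‖p γ i k‖ ^ 2) (fun k _ => sq_nonneg _) (Finset.mem_univ i)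
    rw [key] at h1
    exact h1.trans (Complex.re_le_norm _)
  have h1 : ∀ i : Fin N, ‖p γ i i‖ ≤ 1 := by
    intro i
    have := h0 i
    nlinarith [norm_nonneg (p γ i i)]
  have h2 : ‖p γ i j‖ ^ 2 ≤ 1 := by
    have h3 : ‖p γ i j‖ ^ 2 ≤ ∑ k, ‖p γ i k‖ ^ 2 :=
      Finset.single_le_sum (f := fun k => ‖p γ i k‖ ^ 2) (fun k _ => sq_nonneg _) (Finset.mem_univ j)
    rw [key] at h3
    exact h3.trans ((Complex.re_le_norm _).trans (h1 i))
  nlinarith [norm_nonneg (p γ i j)]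

theorem Pm.bdf {G : Type} {pd : PD G} {N d : ℕ} {p : G → MN N} (hp : Pm pd d p) (i j : Fin N) :
    (fun γ => p γ i j) ∈ Bdf G := ⟨1, fun γ => hp.le_one γ i j⟩

theorem Pm.av {G : Type} [Group G] {R : Reg G} {pd : PD G} {N d : ℕ} {p : G → MN N} (hp : Pm pd d p)
    (i j : Fin N) : AV R pd fun γ => p γ i j := AV.of_uc (hp.uc i j) (C := 1) fun γ => hp.le_one γ i j

end Pool.Agent.Helper45.DC
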