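import Pool.Agent.Helper45.DC.SW

/-!
# Layer DC, block 8: from one step to all functions which are uniformly continuous at infinity

`S` = the bounded functions `f` such that `sg J f - sg J' f` is local. `Mf_add`, `Mf_smul`; the sum, multiples and norm limits of local operators are local (`‖iUX B (Z (iUX A x))‖ ≤ ‖Z‖ ‖x‖`, `‖iUX‖ ≤ 1`: `Mf_ind`, `norm_Mf_le`), and
`‖sg J f - sg J g‖ ≤ ε ‖J‖^2` if `‖f - g‖ ≤ ε` eventually in all `R2.F n` (`Mf_small`). So `uc_poly` gives all bounded uniformly continuous functions; `AV R2 pd2 f`: `f` is a limit at infinity (`AV.apx`) of elements of `SF pd2 ℂ`, which are bounded (`SF.bdd`) and uniformly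
continuous (`SF.uc`).
-/

set_option autoImplicit false
set_option linter.unusedSectionVars false

open MeasureTheory Filter Topology

namespace Pool.Agent.Helper45.DC

open Pool.Agent.Helper84 Pool.Agent.Helper84.GN Pool.Agent.Helper84.GN.S3 Pool.Agent.Helper84.GN.S3.X
open Pool.Agent.Helper84.NI Pool.Agent.Helper84.GVN Pool.Agent.Helper90.RK
open Pool.Agent.Helper96.RK Pool.Agent.Helper66.FR Pool.Agent.Helper84.FR Pool.Agent.Helper55.FR
open Pool.Agent.Helper78.BM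

variable {G X : Type} [Group G] [MeasurableSpace X] {μ : Measure X} {R1 R2 : Reg G} {pd1 pd2 : PD G} {N : ℕ}

private theorem h80_sg_add (J : XUa μ R1 →L[ℂ] XUa μ R2) {f g : G → ℂ} (hf : f ∈ Bdf G)
    (hg : g ∈ Bdf G) : sg J (fun γ => f γ + g γ) = sg J f + sg J g := by
  obtain ⟨C, hC⟩ := hf
  obtain ⟨D, hD⟩ := hg
  refine ContinuousLinearMap.ext fun x => ?_
  rw [ContinuousLinearMap.add_apply, sg_apply, sg_apply, sg_apply, Mf_add hC hD, map_add]

private theorem h80_sg_sub (J : XUa μ R1 →L[ℂ] XUa μ R2) {f g : G → ℂ} (hf : f ∈ Bdf G)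
    (hg : g ∈ Bdf G) : sg J (fun γ => f γ - g γ) = sg J f - sg J g := by
  obtain ⟨C, hC⟩ := hf
  obtain ⟨D, hD⟩ := hg
  refine ContinuousLinearMap.ext fun x => ?_
  rw [ContinuousLinearMap.sub_apply, sg_apply, sg_apply, sg_apply, Mf_sub hC hD, map_sub]

private theorem h80_sg_smul (J : XUa μ R1 →L[ℂ] XUa μ R2) (c : ℂ) {f : G → ℂ} (hf : f ∈ Bdf G) :
    sg J (fun γ => c * f γ) = c • sg J f := by
  obtain ⟨C, hC⟩ := hf
  refine ContinuousLinearMap.ext fun x => ?_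
  rw [ContinuousLinearMap.smul_apply, sg_apply, sg_apply, Mf_smul hC, map_smul]

private theorem h80_loc_add {T T' : XUa μ R1 →L[ℂ] XUa μ R1} (h : LocX R1 pd1 T)
    (h' : LocX R1 pd1 T') : LocX R1 pd1 (T + T') := by
  intro A B δ hδ hAB x
  rw [ContinuousLinearMap.add_apply, map_add, h A B δ hδ hAB x, h' A B δ hδ hAB x, add_zero]

private theorem h80_loc_smul {T : XUa μ R1 →L[ℂ] XUa μ R1} (h : LocX R1 pd1 T) (c : ℂ) :
    LocX R1 pd1 (c • T) := by
  intro A B δ hδ hAB x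
  rw [ContinuousLinearMap.smul_apply, map_smul, h A B δ hδ hAB x, smul_zero]

private theorem h80_iUX_le (B : Set G) (x : XUa μ R1) : ‖iUX R1 B x‖ ≤ ‖x‖ := by
  classical
  rw [Mf_ind]
  have h := norm_Mf_le (μ := μ) (R := R1) (f := B.indicator fun _ => (1 : ℂ)) (C := 1) (fun γ => by
    unfold Set.indicator
    split_ifs <;> simp) x
  rwa [one_mul] at h

private theorem h80_sg_small (J : XUa μ R1 →L[ℂ] XUa μ R2) {f : G → ℂ} (hf : f ∈ Bdf G) {ε : ℝ}
    (hε : 0 ≤ ε) (h : ∀ n, ∀ᶠ γ in R2.F n, ‖f γ‖ ≤ ε) (x : XUa μ R1) :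
    ‖sg J f x‖ ≤ ε * (‖ContinuousLinearMap.adjoint J‖ * (‖J‖ * ‖x‖)) := by
  obtain ⟨C, hC⟩ := hf
  rw [sg_apply]
  calc ‖ContinuousLinearMap.adjoint J (Mf μ R2 f (J x))‖
      ≤ ‖ContinuousLinearMap.adjoint J‖ * ‖Mf μ R2 f (J x)‖ :=
        ContinuousLinearMap.le_opNorm _ _
    _ ≤ ‖ContinuousLinearMap.adjoint J‖ * (ε * (‖J‖ * ‖x‖)) := by
        apply mul_le_mul_of_nonneg_left _ (norm_nonneg _)
        exact (Mf_small hC hε h _).trans
          (mul_le_mul_of_nonneg_left (ContinuousLinearMap.le_opNorm _ _) hε)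
    _ = ε * (‖ContinuousLinearMap.adjoint J‖ * (‖J‖ * ‖x‖)) := by ring

private theorem h80_lim {J J' : XUa μ R1 →L[ℂ] XUa μ R2} {f : G → ℂ} (hf : f ∈ Bdf G)
    (h : ∀ ε : ℝ, 0 < ε → ∃ g ∈ Bdf G, LocX R1 pd1 (sg J g - sg J' g) ∧
      ∀ n, ∀ᶠ γ in R2.F n, ‖f γ - g γ‖ ≤ ε) : LocX R1 pd1 (sg J f - sg J' f) := by
  intro A B δ hδ hAB x
  obtain ⟨y, hy⟩ : ∃ y, y = iUX R1 A x := ⟨_, rfl⟩
  rw [← hy]
  obtain ⟨K, hK⟩ : ∃ K, K = ‖ContinuousLinearMap.adjoint J‖ * (‖J‖ * ‖y‖) +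
    ‖ContinuousLinearMap.adjoint J'‖ * (‖J'‖ * ‖y‖) := ⟨_, rfl⟩
  have hK0 : 0 ≤ K := by
    rw [hK]
    positivity
  have key : ∀ ε : ℝ, 0 < ε → ‖iUX R1 B ((sg J f - sg J' f) y)‖ ≤ ε * K := by
    intro ε hε
    obtain ⟨g, hg, hl, hn⟩ := h ε hε
    have h0 := hl A B δ hδ hAB x
    rw [← hy] at h0
    have hfg : (fun γ => f γ - g γ) ∈ Bdf G := (Bdf G).sub_mem hf hg
    have e1 : (sg J f - sg J' f) y = (sg J g - sg J' g) y +
        (sg J (fun γ => f γ - g γ) y - sg J' (fun γ => f γ - g γ) y) := by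
      rw [h80_sg_sub J hf hg, h80_sg_sub J' hf hg]
      simp only [ContinuousLinearMap.sub_apply]
      abel
    rw [e1, map_add, h0, zero_add]
    refine (h80_iUX_le B _).trans ((norm_sub_le _ _).trans ?_)
    have h1 := h80_sg_small J hfg hε.le hn y
    have h2 := h80_sg_small J' hfg hε.le hn y
    rw [hK, mul_add]
    exact add_le_add h1 h2
  have h3 : ‖iUX R1 B ((sg J f - sg J' f) y)‖ ≤ 0 := by
    refine le_of_forall_pos_le_add fun ε hε => ?_
    rw [zero_add]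
    refine (key (ε / (K + 1)) (by positivity)).trans ?_
    rw [div_mul_eq_mul_div, div_le_iff₀ (by positivity)]
    nlinarith
  exact norm_le_zero_iff.1 h3

theorem loc_dense {d : ℕ} {P : G → MN N} (hP : Pm pd2 d P) {J J' : XUa μ R1 →L[ℂ] XUa μ R2}
    (hstep : ∀ f ∈ Bdf G, LocX R1 pd1 (sg J f - sg J' f) → ∀ i j : Fin N,
      LocX R1 pd1 (sg J (fun γ => P γ i j * f γ) - sg J' (fun γ => P γ i j * f γ)))
    (h1 : LocX R1 pd1 (sg J (fun _ => 1) - sg J' (fun _ => 1))) {f : G → ℂ} (hf : AV R2 pd2 f) :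
    LocX R1 pd1 (sg J f - sg J' f) := by
  have hS : ∀ E : G → ℂ, UC pd2 E → E ∈ Bdf G →
      E ∈ {f : G → ℂ | f ∈ Bdf G ∧ LocX R1 pd1 (sg J f - sg J' f)} := by
    intro E hE hEb
    refine uc_poly hP {f : G → ℂ | f ∈ Bdf G ∧ LocX R1 pd1 (sg J f - sg J' f)}
      ⟨(Bdf G).one_mem, h1⟩ ?_ ?_ ?_ ?_ hE hEb
    · rintro a ⟨ha, ha'⟩ b ⟨hb, hb'⟩
      refine ⟨(Bdf G).add_mem ha hb, ?_⟩
      rw [h80_sg_add J ha hb, h80_sg_add J' ha hb]
      have e : sg J a + sg J b - (sg J' a + sg J' b) =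
        (sg J a - sg J' a) + (sg J b - sg J' b) := by abel
      rw [e]
      exact h80_loc_add ha' hb'
    · rintro c a ⟨ha, ha'⟩
      refine ⟨?_, ?_⟩
      · obtain ⟨C, hC⟩ := ha
        exact ⟨‖c‖ * C, fun γ => by
          rw [norm_mul]
          exact mul_le_mul_of_nonneg_left (hC γ) (norm_nonneg _)⟩
      · have e : c • sg J a - c • sg J' a = c • (sg J a - sg J' a) := by
          refine ContinuousLinearMap.ext fun x => ?_
          simp only [ContinuousLinearMap.sub_apply, ContinuousLinearMap.smul_apply, smul_sub]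
        rw [h80_sg_smul J c ha, h80_sg_smul J' c ha, e]
        exact h80_loc_smul ha' c
    · rintro a ⟨ha, ha'⟩ i j
      exact ⟨(Bdf G).mul_mem (hP.bdf i j) ha, hstep a ha ha' i j⟩
    · intro a ha h
      refine ⟨ha, h80_lim ha fun ε hε => ?_⟩
      obtain ⟨g, ⟨hg, hg'⟩, hag⟩ := h ε hε
      exact ⟨g, hg, hg', fun n => Eventually.of_forall hag⟩
  refine h80_lim hf.bdd fun ε hε => ?_
  obtain ⟨E, hE, hn⟩ := hf.apx ε hε
  obtain ⟨hEb, hEl⟩ := hS E (fun ε' hε' => SF.uc hE hε') (SF.bdd hE)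
  exact ⟨E, hEb, hEl, hn⟩

end Pool.Agent.Helper45.DC
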