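import Pool.Agent.Helper45.DC.Schur
import Pool.Agent.Helper45.DC.CoreL

/-!
# Layer DC, block 6: one step for lines

`J, J' : XUa μ R2 → XUa μ R1`; the adjoints satisfy `Inc`. Apply `core_lines` with `A = Bdf G`, `M = (XUa μ R2 →L[ℂ] XUa μ R2)`, `σ h = sg J h`, `l i j Y = Mf (P_ij) ∘ Y`, `r i j Y = Y ∘ Mf (P_ij)`, `p i j = ⟨p_ij, hp.bdf⟩`.
`hl`: `∑_j Mf(P_ij) J* Mf(p_jk) = J* Mf(p_ik)` is `Inc` for `J*`; `hr`: its adjoint `∑_j Mf(p_kj) J Mf(P_ji) = Mf(p_ki) J` (entries real and symmetric, `Mf_adj`), so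
`∑_j J* Mf(p_jk h) J Mf(P_ij) = J* Mf(h) Mf(p_ik) J`. `hdet`: `Min3 P`, `Mf_mul`, `Mf_add`, `Mf_sub`, `Mf_const`. Do this for `J` and `J'` and subtract: for `Z = sg J (p_ad f) - sg J' (p_ad f)`, `Y = sg J f - sg J' f`:
`2 Z - ∑_{c,b} P_cb Z P_bc = ∑_{b,c} P_ab P_cd Y P_bc - ∑_{b,c} P_ad P_cb Y P_bc + P_ad Y`. `Y` is local, so it commutes with `Mf(P_ij)` (`loc_Mf`, `Pm.av`), and the right side is
`(∑_{b,c} P_ab P_bc P_cd - P_ad ∑_{b,c} P_cb P_bc + P_ad) Y = (P_ad - 2 P_ad + P_ad) Y = 0` (`idem`, `tr`). So `2 Z = ∑_{i,j} P_ij Z P_ji`: `loc_schur` with `d = 2`.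
-/

set_option autoImplicit false
set_option linter.unusedSectionVars false

open MeasureTheory Filter Topology

namespace Pool.Agent.Helper45.DC

open Pool.Agent.Helper84 Pool.Agent.Helper84.GN Pool.Agent.Helper84.GN.S3 Pool.Agent.Helper84.GN.S3.X
open Pool.Agent.Helper84.NI Pool.Agent.Helper84.GVN Pool.Agent.Helper90.RK
open Pool.Agent.Helper96.RK Pool.Agent.Helper66.FR Pool.Agent.Helper84.FR Pool.Agent.Helper55.FR
open Pool.Agent.Helper78.BM

variable {G X : Type} [Group G] [MeasurableSpace X] {μ : Measure X} {R1 R2 : Reg G} {pd1 pd2 : PD G} {N : ℕ}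

/-- Multiplication by bounded functions, as a ring homomorphism. -/
private noncomputable def mfh52 (μ : Measure X) (R : Reg G) : Bdf G →+* (XUa μ R →L[ℂ] XUa μ R) where
  toFun f := Mf μ R f.1
  map_one' := by
    refine ContinuousLinearMap.ext fun x => ?_
    have h1 : ((1 : Bdf G) : G → ℂ) = fun _ => 1 := rfl
    rw [h1, Mf_const, one_smul]
    rfl
  map_mul' := by
    rintro ⟨f, C, hC⟩ ⟨g, D, hD⟩
    refine ContinuousLinearMap.ext fun x => ?_
    exact (Mf_mul hC hD x).symm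
  map_zero' := by
    refine ContinuousLinearMap.ext fun x => ?_
    have h1 : ((0 : Bdf G) : G → ℂ) = fun _ => 0 := rfl
    rw [h1, Mf_const, zero_smul]
    rfl
  map_add' := by
    rintro ⟨f, C, hC⟩ ⟨g, D, hD⟩
    refine ContinuousLinearMap.ext fun x => ?_
    exact Mf_add hC hD x

private theorem mfh52_apply (f : Bdf G) (x : XUa μ R2) : mfh52 μ R2 f x = Mf μ R2 f.1 x := rfl

/-- The operator `J* f J`, additive in `f`. -/
private noncomputable def sgh52 (J : XUa μ R2 →L[ℂ] XUa μ R1) : Bdf G →+ (XUa μ R2 →L[ℂ] XUa μ R2) where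
  toFun f := sg J f.1
  map_zero' := by
    refine ContinuousLinearMap.ext fun x => ?_
    have h1 : ((0 : Bdf G) : G → ℂ) = fun _ => 0 := rfl
    rw [sg_apply, h1, Mf_const, zero_smul, map_zero]
    rfl
  map_add' := by
    rintro ⟨f, C, hC⟩ ⟨g, D, hD⟩
    refine ContinuousLinearMap.ext fun x => ?_
    have h1 := Mf_add (μ := μ) (R := R1) hC hD (J x)
    change ContinuousLinearMap.adjoint J (Mf μ R1 (fun γ => f γ + g γ) (J x)) = _
    rw [h1, map_add]
    rfl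

private theorem sgh52_apply (J : XUa μ R2 →L[ℂ] XUa μ R1) (f : Bdf G) (x : XUa μ R2) :
    sgh52 J f x = ContinuousLinearMap.adjoint J (Mf μ R1 f.1 (J x)) := rfl

private noncomputable def pe52 {pd : PD G} {d : ℕ} {p : G → MN N} (hp : Pm pd d p) (i j : Fin N) : Bdf G :=
  ⟨fun γ => p γ i j, hp.bdf i j⟩

private theorem pe52_symm {pd : PD G} {d : ℕ} {p : G → MN N} (hp : Pm pd d p) (i j : Fin N) :
    pe52 hp j i = pe52 hp i j := Subtype.ext (funext fun γ => hp.symm γ i j)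

private theorem pe52_tr {pd : PD G} {d : ℕ} {p : G → MN N} (hp : Pm pd d p) :
    ∑ i, pe52 hp i i = (d : Bdf G) := by
  apply Subtype.ext
  rw [AddSubmonoidClass.coe_finsetSum]
  funext γ
  rw [Finset.sum_apply]
  exact hp.tr γ

private theorem pe52_idem {pd : PD G} {d : ℕ} {p : G → MN N} (hp : Pm pd d p) (i j : Fin N) :
    ∑ k, pe52 hp i k * pe52 hp k j = pe52 hp i j := by
  apply Subtype.ext
  rw [AddSubmonoidClass.coe_finsetSum]
  funext γ
  rw [Finset.sum_apply]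
  exact hp.idem γ i j

/-- The adjoint of the incidence relation. -/
private theorem inc_adj52 {p P : G → MN N} (hp : Pm pd1 1 p) (hP : Pm pd2 2 P)
    {J : XUa μ R2 →L[ℂ] XUa μ R1} (hJ : Inc μ p P (ContinuousLinearMap.adjoint J)) (i k : Fin N)
    (x : XUa μ R2) :
    ∑ j, Mf μ R1 (fun γ => p γ j k) (J (Mf μ R2 (fun γ => P γ i j) x)) =
      Mf μ R1 (fun γ => p γ i k) (J x) := by
  have hadj1 : ∀ (a b : Fin N) (y z : XUa μ R1), inner ℂ (Mf μ R1 (fun γ => p γ a b) y) z =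
      inner ℂ y (Mf μ R1 (fun γ => p γ a b) z) := by
    intro a b y z
    rw [Mf_adj (C := 1) fun γ => hp.le_one γ a b]
    simp only [hp.re]
  have hadj2 : ∀ (a b : Fin N) (y z : XUa μ R2), inner ℂ (Mf μ R2 (fun γ => P γ a b) y) z =
      inner ℂ y (Mf μ R2 (fun γ => P γ a b) z) := by
    intro a b y z
    rw [Mf_adj (C := 1) fun γ => hP.le_one γ a b]
    simp only [hP.re]
  refine ext_inner_right ℂ fun y => ?_
  rw [sum_inner, hadj1, ← ContinuousLinearMap.adjoint_inner_right, ← hJ k i y, inner_sum]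
  refine Finset.sum_congr rfl fun j _ => ?_
  rw [hadj1, ← ContinuousLinearMap.adjoint_inner_right, hadj2]

/-- The identity for one operator. -/
private theorem one_side52 {p P : G → MN N} (hp : Pm pd1 1 p) (hP : Pm pd2 2 P) (hP3 : Min3 P)
    {J : XUa μ R2 →L[ℂ] XUa μ R1} (hJ : Inc μ p P (ContinuousLinearMap.adjoint J)) (h : Bdf G) (a d : Fin N) :
    (2 : ℕ) • sgh52 J (pe52 hp a d * h) - ∑ c, ∑ b, mfh52 μ R2 (pe52 hP c b) *
        (sgh52 J (pe52 hp a d * h) * mfh52 μ R2 (pe52 hP b c)) =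
      ∑ b, ∑ c, mfh52 μ R2 (pe52 hP a b) * (mfh52 μ R2 (pe52 hP c d) *
        (sgh52 J h * mfh52 μ R2 (pe52 hP b c))) -
      ∑ b, ∑ c, mfh52 μ R2 (pe52 hP a d) * (mfh52 μ R2 (pe52 hP c b) *
        (sgh52 J h * mfh52 μ R2 (pe52 hP b c))) +
      mfh52 μ R2 (pe52 hP a d) * sgh52 J h := by
  have h1 := core_lines (sgh52 J) (fun i j => AddMonoidHom.mulLeft (mfh52 μ R2 (pe52 hP i j)))
    (fun i j => AddMonoidHom.mulRight (mfh52 μ R2 (pe52 hP i j))) (pe52 hp)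
    (fun i j => pe52_symm hp i j) (fun i j => by rw [pe52_symm hP i j]) (fun i j => by rw [pe52_symm hP i j])
    (fun i j k m x => by
      simp only [AddMonoidHom.coe_mulLeft, AddMonoidHom.mulRight_apply, mul_assoc])
    (fun i j k m x => by
      simp only [AddMonoidHom.coe_mulLeft]
      rw [← mul_assoc, ← mul_assoc, ← map_mul, ← map_mul, mul_comm (pe52 hP i j)])
    (fun i k h => by
      simp only [AddMonoidHom.coe_mulLeft]
      refine ContinuousLinearMap.ext fun x => ?_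
      rw [sum_apply]
      obtain ⟨f, C, hC⟩ := h
      have e1 : ∀ m n : Fin N, Mf μ R1 ((pe52 hp m n * (⟨f, C, hC⟩ : Bdf G) : Bdf G) : G → ℂ) (J x) =
          Mf μ R1 (fun γ => p γ m n) (Mf μ R1 f (J x)) := fun m n =>
        (Mf_mul (fun γ => hp.le_one γ m n) hC (J x)).symm
      rw [sgh52_apply, e1, ← hJ k i (Mf μ R1 f (J x))]
      refine Finset.sum_congr rfl fun j _ => ?_
      change Mf μ R2 (fun γ => P γ i j) (sgh52 J (pe52 hp j k * (⟨f, C, hC⟩ : Bdf G)) x) = _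
      rw [sgh52_apply, e1])
    (fun i k h => by
      simp only [AddMonoidHom.mulRight_apply]
      refine ContinuousLinearMap.ext fun x => ?_
      rw [sum_apply]
      obtain ⟨f, C, hC⟩ := h
      have e1 : ∀ (m n : Fin N) (y : XUa μ R1),
          Mf μ R1 ((pe52 hp m n * (⟨f, C, hC⟩ : Bdf G) : Bdf G) : G → ℂ) y =
          Mf μ R1 f (Mf μ R1 (fun γ => p γ m n) y) := fun m n y => by
        rw [mul_comm]
        exact (Mf_mul hC (fun γ => hp.le_one γ m n) y).symm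
      rw [sgh52_apply, e1, ← inc_adj52 hp hP hJ i k x, map_sum, map_sum]
      refine Finset.sum_congr rfl fun j _ => ?_
      change sgh52 J (pe52 hp j k * (⟨f, C, hC⟩ : Bdf G)) (Mf μ R2 (fun γ => P γ i j) x) = _
      rw [sgh52_apply, e1])
    (fun h => by
      rw [← map_sum, ← Finset.sum_mul, pe52_tr hp, Nat.cast_one, one_mul])
    (fun a b c d e f x => by
      simp only [AddMonoidHom.coe_mulLeft]
      have e2 : pe52 hP a b * pe52 hP c d * pe52 hP e f - pe52 hP a b * pe52 hP c f * pe52 hP e d -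
          pe52 hP a d * pe52 hP c b * pe52 hP e f + pe52 hP a d * pe52 hP c f * pe52 hP e b +
          pe52 hP a f * pe52 hP c b * pe52 hP e d - pe52 hP a f * pe52 hP c d * pe52 hP e b = 0 :=
        Subtype.ext (funext fun γ => hP3 γ a b c d e f)
      have e3 := congrArg (fun y => mfh52 μ R2 y * x) e2
      simp only [map_sub, map_add, map_mul, map_zero, sub_mul, add_mul, zero_mul, mul_assoc] at e3
      exact e3)
    a d h
  simp only [AddMonoidHom.coe_mulLeft, AddMonoidHom.mulRight_apply] at h1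
  exact h1

theorem step_ln {p P : G → MN N} (hp : Pm pd1 1 p) (hP : Pm pd2 2 P) (hP3 : Min3 P)
    {J J' : XUa μ R2 →L[ℂ] XUa μ R1} (hJ : Inc μ p P (ContinuousLinearMap.adjoint J))
    (hJ' : Inc μ p P (ContinuousLinearMap.adjoint J'))
    {f : G → ℂ} (hf : f ∈ Bdf G) (hY : LocX R2 pd2 (sg J f - sg J' f)) (i j : Fin N) :
    LocX R2 pd2 (sg J (fun γ => p γ i j * f γ) - sg J' (fun γ => p γ i j * f γ)) := by
  obtain ⟨Z, hZ⟩ : ∃ Z, Z = sg J (fun γ => p γ i j * f γ) - sg J' (fun γ => p γ i j * f γ) := ⟨_, rfl⟩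
  obtain ⟨Y, hYd⟩ : ∃ Y, Y = sg J f - sg J' f := ⟨_, rfl⟩
  rw [← hZ]
  rw [← hYd] at hY
  have h1 := one_side52 hp hP hP3 hJ ⟨f, hf⟩ i j
  have h2 := one_side52 hp hP hP3 hJ' ⟨f, hf⟩ i j
  have eZ : sgh52 J (pe52 hp i j * ⟨f, hf⟩) - sgh52 J' (pe52 hp i j * ⟨f, hf⟩) = Z := hZ.symm
  have eY : sgh52 J ⟨f, hf⟩ - sgh52 J' ⟨f, hf⟩ = Y := hYd.symm
  -- the difference
  have h3 : (2 : ℕ) • Z - ∑ c, ∑ b, mfh52 μ R2 (pe52 hP c b) * (Z * mfh52 μ R2 (pe52 hP b c)) =
      ∑ b, ∑ c, mfh52 μ R2 (pe52 hP i b) * (mfh52 μ R2 (pe52 hP c j) *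
        (Y * mfh52 μ R2 (pe52 hP b c))) -
      ∑ b, ∑ c, mfh52 μ R2 (pe52 hP i j) * (mfh52 μ R2 (pe52 hP c b) *
        (Y * mfh52 μ R2 (pe52 hP b c))) +
      mfh52 μ R2 (pe52 hP i j) * Y := by
    rw [← eZ, ← eY]
    simp only [sub_mul, mul_sub, smul_sub, Finset.sum_sub_distrib]
    have h4 := congrArg₂ (fun u v => u - v) h1 h2
    refine Eq.trans ?_ (h4.trans ?_) <;> abel
  have hcomm : ∀ b c : Fin N, Y * mfh52 μ R2 (pe52 hP b c) = mfh52 μ R2 (pe52 hP b c) * Y := by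
    intro b c
    refine ContinuousLinearMap.ext fun x => ?_
    exact loc_Mf hY (hP.av b c) x
  have h5 : ∑ b, ∑ c, mfh52 μ R2 (pe52 hP i b) * (mfh52 μ R2 (pe52 hP c j) *
        (Y * mfh52 μ R2 (pe52 hP b c))) = mfh52 μ R2 (pe52 hP i j) * Y := by
    have e1 : ∀ b c : Fin N, mfh52 μ R2 (pe52 hP i b) * (mfh52 μ R2 (pe52 hP c j) *
        (Y * mfh52 μ R2 (pe52 hP b c))) =
        mfh52 μ R2 (pe52 hP i b * pe52 hP b c * pe52 hP c j) * Y := by
      intro b c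
      rw [hcomm, ← mul_assoc, ← mul_assoc, ← map_mul, ← map_mul]
      congr 2
      ring
    simp only [e1]
    rw [Finset.sum_comm]
    simp only [← Finset.sum_mul, ← map_sum]
    simp only [pe52_idem]
  have h6 : ∑ b, ∑ c, mfh52 μ R2 (pe52 hP i j) * (mfh52 μ R2 (pe52 hP c b) *
        (Y * mfh52 μ R2 (pe52 hP b c))) = (2 : ℕ) • (mfh52 μ R2 (pe52 hP i j) * Y) := by
    have e1 : ∀ b c : Fin N, mfh52 μ R2 (pe52 hP i j) * (mfh52 μ R2 (pe52 hP c b) *
        (Y * mfh52 μ R2 (pe52 hP b c))) =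
        mfh52 μ R2 (pe52 hP i j * (pe52 hP c b * pe52 hP b c)) * Y := by
      intro b c
      rw [hcomm, ← mul_assoc, ← mul_assoc, ← map_mul, ← map_mul, mul_assoc]
    simp only [e1]
    rw [Finset.sum_comm]
    simp only [← Finset.sum_mul, ← map_sum, ← Finset.mul_sum]
    simp only [pe52_idem, pe52_tr]
    rw [mul_comm, Nat.cast_ofNat, two_mul, map_add, add_mul, two_nsmul]
  rw [h5, h6] at h3
  have h7 : (2 : ℕ) • Z = ∑ c, ∑ b, mfh52 μ R2 (pe52 hP c b) * (Z * mfh52 μ R2 (pe52 hP b c)) := by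
    rw [← sub_eq_zero, h3, two_nsmul]
    abel
  refine loc_schur (d := 2) hP Z fun x => ?_
  have h8 := congrArg (fun T : XUa μ R2 →L[ℂ] XUa μ R2 => T x) h7
  simp only [sum_apply] at h8
  refine Eq.trans ?_ h8
  rw [two_nsmul, Nat.cast_ofNat, two_smul]
  rfl

end Pool.Agent.Helper45.DC
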