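import Pool.Agent.Helper45.DC.StepP
import Pool.Agent.Helper45.DC.StepL
import Pool.Agent.Helper45.DC.Dense

/-!
# Layer DC: locality of the compressed operators
-/

set_option autoImplicit false
set_option linter.unusedSectionVars false

open MeasureTheory Filter Topology

namespace Pool.Agent.Helper45.DC

open Pool.Agent.Helper84 Pool.Agent.Helper84.GN Pool.Agent.Helper84.GN.S3 Pool.Agent.Helper84.GN.S3.X
open Pool.Agent.Helper84.NI Pool.Agent.Helper84.GVN Pool.Agent.Helper90.RK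
open Pool.Agent.Helper96.RK Pool.Agent.Helper66.FR Pool.Agent.Helper84.FR Pool.Agent.Helper55.FR
open Pool.Agent.Helper78.BM

variable {G X : Type} [Group G] [MeasurableSpace X] {μ : Measure X} {R1 R2 : Reg G} {pd1 pd2 : PD G} {N : ℕ}

/-- **Outer points, inner lines.** -/
theorem loc_pt {p P : G → MN N} (hp : Pm pd1 1 p) (hP : Pm pd2 2 P) (hP3 : Min3 P)
    {J J' : XUa μ R1 →L[ℂ] XUa μ R2} (hJ : Inc μ p P J) (hJ' : Inc μ p P J')
    (h1 : LocX R1 pd1 (sg J (fun _ => 1) - sg J' (fun _ => 1))) {f : G → ℂ} (hf : AV R2 pd2 f) :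
    LocX R1 pd1 (sg J f - sg J' f) :=
  loc_dense hP (fun _ hf hY i j => step_pt hp hP hP3 hJ hJ' hf hY i j) h1 hf

/-- **Outer lines, inner points.** -/
theorem loc_ln {p P : G → MN N} (hp : Pm pd1 1 p) (hP : Pm pd2 2 P) (hP3 : Min3 P)
    {J J' : XUa μ R2 →L[ℂ] XUa μ R1} (hJ : Inc μ p P (ContinuousLinearMap.adjoint J))
    (hJ' : Inc μ p P (ContinuousLinearMap.adjoint J'))
    (h1 : LocX R2 pd2 (sg J (fun _ => 1) - sg J' (fun _ => 1))) {f : G → ℂ} (hf : AV R1 pd1 f) :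
    LocX R2 pd2 (sg J f - sg J' f) :=
  loc_dense hp (fun _ hf hY i j => step_ln hp hP hP3 hJ hJ' hf hY i j) h1 hf

end Pool.Agent.Helper45.DC
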