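import Pool.Agent.Helper45.DC.Trans

/-!
# Layer DC: the boundary maps from incidence

`bmap_pt`: if the incidence relation holds for `(v, u)` and the line valued measure `Φ_u` is not invariant under the centraliser of `b_v`, then there is a boundary map at `v`. `bmap_ln`: the dual statement. `com_pt`, `com_ln`: if there is a
boundary map at `v` (at `u`) then `Φ_u(f)` commutes with it (`Φ_v(f)` commutes with it).
-/

set_option autoImplicit false
set_option linter.unusedSectionVars false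

open MeasureTheory Filter Topology

namespace Pool.Agent.Helper45.DC

open Pool.Agent.Helper84 Pool.Agent.Helper84.GN Pool.Agent.Helper84.GN.S3 Pool.Agent.Helper84.GN.S3.X
open Pool.Agent.Helper84.NI Pool.Agent.Helper84.GVN Pool.Agent.Helper90.RK
open Pool.Agent.Helper96.RK Pool.Agent.Helper66.FR Pool.Agent.Helper84.FR Pool.Agent.Helper55.FR
open Pool.Agent.Helper78.BM

variable {G1 X G Λ : Type} [Group G1] [TopologicalSpace G1] [IsTopologicalGroup G1] [MeasurableSpace X] [MulAction G1 X]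
  [MeasurableConstSMul G1 X] [Group G] [Group Λ] [Countable Λ] {μ : Measure X} [SMulInvariantMeasure G1 X μ]
  [IsProbabilityMeasure μ] {a : Cocy G1 X Λ} {E : Emb Λ G} {R R1 R2 : Reg G} {pd pd1 pd2 : PD G} {b bv bu : ℕ → G1} {N : ℕ}

theorem loc_zero : LocX R pd (0 : XUa μ R →L[ℂ] XUa μ R) := by
  intro A B δ _ _ x
  rw [_root_.zero_apply, map_zero]

/-- Adjoint of `T_u V_q T_v*`. -/
theorem adj_J (q : G1) :
    ContinuousLinearMap.adjoint ((Tb μ a E R2 bu).comp ((Vq μ a E q).comp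
      (ContinuousLinearMap.adjoint (Tb μ a E R1 bv)))) =
    (Tb μ a E R1 bv).comp ((Vq μ a E q⁻¹).comp (ContinuousLinearMap.adjoint (Tb μ a E R2 bu))) := by
  rw [ContinuousLinearMap.adjoint_comp, ContinuousLinearMap.adjoint_comp, adj_Vq,
    ContinuousLinearMap.adjoint_adjoint]
  rfl

theorem adj_J1 :
    ContinuousLinearMap.adjoint ((Tb μ a E R2 bu).comp (ContinuousLinearMap.adjoint (Tb μ a E R1 bv))) =
    (Tb μ a E R1 bv).comp (ContinuousLinearMap.adjoint (Tb μ a E R2 bu)) := by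
  rw [ContinuousLinearMap.adjoint_comp, ContinuousLinearMap.adjoint_adjoint]

/-- The masses of `J` and its translates agree. -/
theorem sg_sub_one (h3 : Tendsto (fun g : G1 => μ {x | a.a g x ≠ 1}) (𝓝 1) (𝓝 0)) (hEu : ErgU μ a E (Ctr bu)) (q : G1) :
    sg ((Tb μ a E R2 bu).comp (ContinuousLinearMap.adjoint (Tb μ a E R1 bv))) (fun _ => 1) -
      sg ((Tb μ a E R2 bu).comp ((Vq μ a E q).comp (ContinuousLinearMap.adjoint (Tb μ a E R1 bv)))) (fun _ => 1) = 0 := by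
  rw [sg_eq, sg_eq_one]
  ext x : 1
  simp only [_root_.sub_apply, ContinuousLinearMap.comp_apply, _root_.zero_apply]
  rw [Po_one h3 hEu, Po_one h3 hEu, map_smul, map_smul, map_smul, Vq_inv, sub_self]

/-- **Boundary map at `v`.** -/
theorem bmap_pt {p P : G → MN N} (hp : Pm pd1 1 p) (hP : Pm pd2 2 P) (hP3 : Min3 P) (hPS1 : PSh R1 pd1)
    (hPL1 : PLf R1 pd1) (h3 : Tendsto (fun g : G1 => μ {x | a.a g x ≠ 1}) (𝓝 1) (𝓝 0))
    (hEv : ErgU μ a E (Ctr bv)) (hEu : ErgU μ a E (Ctr bu)) (h0 : XPpr R1 (vec μ a E bv) ≠ 0)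
    (hI : Inc μ p P ((Tb μ a E R2 bu).comp (ContinuousLinearMap.adjoint (Tb μ a E R1 bv)))) (q : cen bv)
    {f : G → ℂ} (hf : AV R2 pd2 f)
    (hne : ∃ φ, Po μ a E R2 bu f (Vq μ a E (q : G1) φ) ≠ Vq μ a E (q : G1) (Po μ a E R2 bu f φ)) :
    Nonempty (BMap μ a E R1 pd1 bv) := by
  refine crit hPS1 h3 hEv h0
    (Po μ a E R2 bu f - (Vq μ a E (q : G1)⁻¹).comp ((Po μ a E R2 bu f).comp (Vq μ a E (q : G1)))) ?_ ?_
  · obtain ⟨φ, hφ⟩ := hne
    refine ⟨φ, fun h => hφ ?_⟩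
    rw [_root_.sub_apply, sub_eq_zero] at h
    rw [h]
    exact (Vq_inv' (q : G1) _).symm
  · have h := loc_pt hp hP hP3 hI (inc_cen_v hp hPL1 hI q)
      (by rw [sg_sub_one h3 hEu]; exact loc_zero) hf
    rw [sg_eq, sg_eq_one, ← ContinuousLinearMap.comp_sub, ← ContinuousLinearMap.sub_comp] at h
    exact h

/-- **Boundary map at `u`.** -/
theorem bmap_ln {p P : G → MN N} (hp : Pm pd1 1 p) (hP : Pm pd2 2 P) (hP3 : Min3 P) (hPS2 : PSh R2 pd2)
    (hPL2 : PLf R2 pd2) (h3 : Tendsto (fun g : G1 => μ {x | a.a g x ≠ 1}) (𝓝 1) (𝓝 0))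
    (hEv : ErgU μ a E (Ctr bv)) (hEu : ErgU μ a E (Ctr bu)) (h0 : XPpr R2 (vec μ a E bu) ≠ 0)
    (hI : Inc μ p P ((Tb μ a E R2 bu).comp (ContinuousLinearMap.adjoint (Tb μ a E R1 bv)))) (q : cen bu)
    {f : G → ℂ} (hf : AV R1 pd1 f)
    (hne : ∃ φ, Po μ a E R1 bv f (Vq μ a E (q : G1) φ) ≠ Vq μ a E (q : G1) (Po μ a E R1 bv f φ)) :
    Nonempty (BMap μ a E R2 pd2 bu) := by
  refine crit hPS2 h3 hEu h0
    (Po μ a E R1 bv f - (Vq μ a E (q : G1)⁻¹).comp ((Po μ a E R1 bv f).comp (Vq μ a E (q : G1)))) ?_ ?_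
  · obtain ⟨φ, hφ⟩ := hne
    refine ⟨φ, fun h => hφ ?_⟩
    rw [_root_.sub_apply, sub_eq_zero] at h
    rw [h]
    exact (Vq_inv' (q : G1) _).symm
  · have hI1 : Inc μ p P (ContinuousLinearMap.adjoint ((Tb μ a E R1 bv).comp
        (ContinuousLinearMap.adjoint (Tb μ a E R2 bu)))) := by
      rw [adj_J1]
      exact hI
    have hI2 : Inc μ p P (ContinuousLinearMap.adjoint ((Tb μ a E R1 bv).comp ((Vq μ a E (q : G1)).comp
        (ContinuousLinearMap.adjoint (Tb μ a E R2 bu))))) := by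
      rw [adj_J]
      exact inc_cen_u hP hPL2 hI q⁻¹
    have h := loc_ln (pd1 := pd1) hp hP hP3 hI1 hI2
      (by rw [sg_sub_one h3 hEv]; exact loc_zero) hf
    rw [sg_eq, sg_eq_one, ← ContinuousLinearMap.comp_sub, ← ContinuousLinearMap.sub_comp] at h
    exact h

/-- Operators `Z` with `T Z T*` local commute with the boundary map. -/
theorem com_of_loc (B : BMap μ a E R pd b) {Z : XL μ (L2 G) →L[ℂ] XL μ (L2 G)}
    (hZ : LocX R pd ((Tb μ a E R b).comp (Z.comp (ContinuousLinearMap.adjoint (Tb μ a E R b))))) {g : G → ℂ}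
    (hg : AV R pd g) (φ : XL μ (L2 G)) : Z (B.Ph g φ) = B.Ph g (Z φ) := by
  refine B.T_inj ?_
  rw [B.T_Ph hg]
  have h1 := loc_Mf hZ hg (Tb μ a E R b φ)
  simp only [ContinuousLinearMap.comp_apply] at h1
  rw [B.TT, map_smul, map_smul, map_smul] at h1
  have h2 : ContinuousLinearMap.adjoint (Tb μ a E R b) (Mf μ R g (Tb μ a E R b φ)) = (B.p : ℂ) • B.Ph g φ := by
    rw [B.Ph_apply, smul_smul, mul_inv_cancel₀ B.pne, one_smul]
  rw [h2, map_smul, map_smul] at h1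
  exact smul_right_injective _ B.pne h1

/-- The zero operator satisfies `Inc`. -/
theorem inc_zero {p P : G → MN N} : Inc μ p P (0 : XUa μ R1 →L[ℂ] XUa μ R2) := by
  intro i k x
  simp only [_root_.zero_apply, map_zero, Finset.sum_const_zero]

theorem sg_zero (f : G → ℂ) : sg (0 : XUa μ R1 →L[ℂ] XUa μ R2) f = 0 := by
  ext x : 1
  rw [sg_apply, _root_.zero_apply, map_zero, map_zero]
  rfl

/-- **`Φ_u(f)` commutes with the boundary map at `v`.** -/
theorem com_pt {p P : G → MN N} (hp : Pm pd1 1 p) (hP : Pm pd2 2 P) (hP3 : Min3 P)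
    (h3 : Tendsto (fun g : G1 => μ {x | a.a g x ≠ 1}) (𝓝 1) (𝓝 0)) (hEu : ErgU μ a E (Ctr bu))
    (hI : Inc μ p P ((Tb μ a E R2 bu).comp (ContinuousLinearMap.adjoint (Tb μ a E R1 bv))))
    (B : BMap μ a E R1 pd1 bv) {f g : G → ℂ} (hf : AV R2 pd2 f) (hg : AV R1 pd1 g) (φ : XL μ (L2 G)) :
    Po μ a E R2 bu f (B.Ph g φ) = B.Ph g (Po μ a E R2 bu f φ) := by
  refine com_of_loc B ?_ hg φ
  have h := loc_pt hp hP hP3 hI (inc_zero (R1 := R1) (R2 := R2))
    (by
      rw [sg_zero, sub_zero, sg_eq_one]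
      have e : (Tb μ a E R1 bv).comp ((Po μ a E R2 bu fun _ => 1).comp
          (ContinuousLinearMap.adjoint (Tb μ a E R1 bv))) =
          ((‖XPpr R2 (vec μ a E bu)‖ ^ 2 : ℝ) : ℂ) • (Tb μ a E R1 bv).comp
            (ContinuousLinearMap.adjoint (Tb μ a E R1 bv)) := by
        ext x : 1
        simp only [ContinuousLinearMap.comp_apply, _root_.smul_apply]
        rw [Po_one h3 hEu, map_smul]
      rw [e]
      intro A B' δ hδ hAB x
      rw [_root_.smul_apply, map_smul, B.loc A B' δ hδ hAB, smul_zero]) hf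
  rwa [sg_zero, sub_zero, sg_eq_one] at h

/-- **`Φ_v(f)` commutes with the boundary map at `u`.** -/
theorem com_ln {p P : G → MN N} (hp : Pm pd1 1 p) (hP : Pm pd2 2 P) (hP3 : Min3 P)
    (h3 : Tendsto (fun g : G1 => μ {x | a.a g x ≠ 1}) (𝓝 1) (𝓝 0)) (hEv : ErgU μ a E (Ctr bv))
    (hI : Inc μ p P ((Tb μ a E R2 bu).comp (ContinuousLinearMap.adjoint (Tb μ a E R1 bv))))
    (B : BMap μ a E R2 pd2 bu) {f g : G → ℂ} (hf : AV R1 pd1 f) (hg : AV R2 pd2 g) (φ : XL μ (L2 G)) :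
    Po μ a E R1 bv f (B.Ph g φ) = B.Ph g (Po μ a E R1 bv f φ) := by
  refine com_of_loc B ?_ hg φ
  have hI1 : Inc μ p P (ContinuousLinearMap.adjoint ((Tb μ a E R1 bv).comp
      (ContinuousLinearMap.adjoint (Tb μ a E R2 bu)))) := by
    rw [adj_J1]
    exact hI
  have hI2 : Inc μ p P (ContinuousLinearMap.adjoint (0 : XUa μ R2 →L[ℂ] XUa μ R1)) := by
    rw [map_zero]
    exact inc_zero
  have h := loc_ln (pd1 := pd1) hp hP hP3 hI1 hI2
    (by
      rw [sg_zero, sub_zero, sg_eq_one]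
      have e : (Tb μ a E R2 bu).comp ((Po μ a E R1 bv fun _ => 1).comp
          (ContinuousLinearMap.adjoint (Tb μ a E R2 bu))) =
          ((‖XPpr R1 (vec μ a E bv)‖ ^ 2 : ℝ) : ℂ) • (Tb μ a E R2 bu).comp
            (ContinuousLinearMap.adjoint (Tb μ a E R2 bu)) := by
        ext x : 1
        simp only [ContinuousLinearMap.comp_apply, _root_.smul_apply]
        rw [Po_one h3 hEv, map_smul]
      rw [e]
      intro A B' δ hδ hAB x
      rw [_root_.smul_apply, map_smul, B.loc A B' δ hδ hAB, smul_zero]) hf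
  rwa [sg_zero, sub_zero, sg_eq_one] at h

end Pool.Agent.Helper45.DC
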