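import Pool.Agent.Helper45.DC.Defs

/-!
# Layer DC, block 9: the kernel of `J` vanishes on non incident pairs

Let `c ≤ ns ((1 - P γ') * p γ)` for `γ ∈ A`, `γ' ∈ B`. As in `Schur.lean`: split `A` (for `pd1`) and `B` (for `pd2`) into finitely many pieces on which all entries vary by at most `ε`, `N^2 (2 ε + ε^2) + ε < √c / N` (total boundedness of `pd1`, `pd2`, uniform continuity
of the entries). For pieces `A' ∋ α`, `B' ∋ β`: `W = iUX R2 B' ∘ J ∘ iUX R1 A'`. `Inc` with `iUX R2 B'` on the left and `iUX R1 A'` on the right (`iUX` commutes with `Mf`: `Mf_ind`, `Mf_mul`): `∑_j Mf(P_cj) W Mf(p_ja) = W Mf(p_ca)` for all `a`, `c`. On the pieces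
`Mf(P_cj) = P β c j + u`, `Mf(p_ja) = p α j a + v`, `|u|, |v| ≤ ε` (operator norms, `norm_Mf_le`), so `((P β * p α) c a - p α c a) W = ` an operator of norm `≤ (N (2 ε + ε^2) + ε) ‖W‖`. There are `a`, `c` with `|((1 - P β) * p α) c a| ≥ √c / N`
(`ns` = sum of the squares of the `N^2` entries; if `N = 0` then `ns = 0 < c`, so `A` or `B` is empty). So `W = 0`. Sum over the pieces. The second statement is the adjoint of the first (`iUX` is self-adjoint: `Mf_ind`, `Mf_adj`).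
If `A` or `B` is empty: `iUX R ∅ = 0`.
-/

set_option autoImplicit false
set_option linter.unusedSectionVars false

open MeasureTheory Filter Topology

namespace Pool.Agent.Helper45.DC

open Pool.Agent.Helper84 Pool.Agent.Helper84.GN Pool.Agent.Helper84.GN.S3 Pool.Agent.Helper84.GN.S3.X
open Pool.Agent.Helper84.NI Pool.Agent.Helper84.GVN Pool.Agent.Helper90.RK
open Pool.Agent.Helper96.RK Pool.Agent.Helper66.FR Pool.Agent.Helper84.FR Pool.Agent.Helper55.FR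
open Pool.Agent.Helper78.BM

variable {G X : Type} [Group G] [MeasurableSpace X] {μ : Measure X} {R1 R2 : Reg G} {pd1 pd2 : PD G} {N : ℕ}

private lemma ind_le74 (A : Set G) (γ : G) : ‖(A.indicator fun _ => (1 : ℂ)) γ‖ ≤ 1 := by
  unfold Set.indicator
  split_ifs <;> simp

private lemma iUX_empty74 {R : Reg G} (x : XUa μ R) : iUX R (∅ : Set G) x = 0 := by
  rw [Mf_ind]
  have e : ((∅ : Set G).indicator fun _ => (1 : ℂ)) = fun _ => 0 := by
    funext γ
    simp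
  rw [e, Mf_const, zero_smul]

private lemma iUX_iUX74 {R : Reg G} (A B : Set G) (x : XUa μ R) :
    iUX R A (iUX R B x) = iUX R (A ∩ B) x := by
  rw [Mf_ind, Mf_ind, Mf_ind, Mf_mul (ind_le74 A) (ind_le74 B)]
  refine congrArg (fun f => Mf μ R f x) ?_
  funext γ
  by_cases h1 : γ ∈ A <;> by_cases h2 : γ ∈ B <;> simp [h1, h2]

private lemma iUX_idem74 {R : Reg G} (A : Set G) (x : XUa μ R) : iUX R A (iUX R A x) = iUX R A x := by
  rw [iUX_iUX74, Set.inter_self]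

private lemma iUX_Mf74 {R : Reg G} (A : Set G) {f : G → ℂ} {C : ℝ} (hC : ∀ γ, ‖f γ‖ ≤ C) (x : XUa μ R) :
    iUX R A (Mf μ R f x) = Mf μ R f (iUX R A x) := by
  rw [Mf_ind, Mf_ind, Mf_mul (ind_le74 A) hC, Mf_mul hC (ind_le74 A)]
  refine congrArg (fun f => Mf μ R f x) ?_
  funext γ
  exact mul_comm _ _

private lemma iUX_sa74 {R : Reg G} (A : Set G) (x y : XUa μ R) :
    inner ℂ (iUX R A x) y = inner ℂ x (iUX R A y) := by
  rw [Mf_ind, Mf_ind, Mf_adj (ind_le74 A)]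
  refine congrArg (fun f => inner ℂ x (Mf μ R f y)) ?_
  funext γ
  by_cases h1 : γ ∈ A <;> simp [h1]

private lemma iUX_part74 {R : Reg G} (A : Set G) (κ : G → G) (F : Finset G) (x : XUa μ R) :
    iUX R (A ∩ κ ⁻¹' (F : Set G)) x = ∑ c ∈ F, iUX R (A ∩ κ ⁻¹' {c}) x := by
  classical
  induction F using Finset.induction_on with
  | empty =>
    simp only [Finset.coe_empty, Set.preimage_empty, Set.inter_empty, Finset.sum_empty]
    exact iUX_empty74 x
  | insert c F hc ih =>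
    rw [Finset.sum_insert hc, ← ih, Mf_ind, Mf_ind, Mf_ind, ← Mf_add (ind_le74 _) (ind_le74 _)]
    refine congrArg (fun f => Mf μ R f x) ?_
    funext γ
    by_cases h1 : γ ∈ A
    · by_cases h2 : κ γ = c
      · have h3 : κ γ ∉ F := by
          rw [h2]
          exact hc
        simp [Set.indicator, h1, h2, hc]
      · by_cases h3 : κ γ ∈ F
        · simp [Set.indicator, h1, h2, h3]
        · simp [Set.indicator, h1, h2, h3]
    · simp [Set.indicator, h1]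

private lemma iUX_sum74 {R : Reg G} (A : Set G) {κ : G → G} {F : Finset G} (hκ : ∀ γ, κ γ ∈ F) (x : XUa μ R) :
    iUX R A x = ∑ c ∈ F, iUX R (A ∩ κ ⁻¹' {c}) x := by
  rw [← iUX_part74]
  have h : A ∩ κ ⁻¹' (F : Set G) = A := by
    ext γ
    simp [hκ γ]
  rw [h]

private lemma exists_part74 (pd : PD G) {p : G → MN N} (h : ∀ i j, UC pd fun γ => p γ i j) {ε : ℝ} (hε : 0 < ε) :
    ∃ (F : Finset G) (κ : G → G), (∀ γ, κ γ ∈ F) ∧
      ∀ γ γ', κ γ = κ γ' → ∀ i j, ‖p γ i j - p γ' i j‖ ≤ ε := by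
  classical
  choose δ hδ hδ2 using fun i j => h i j ε hε
  obtain ⟨η, hη, hη2⟩ : ∃ η : ℝ, 0 < η ∧ ∀ i j, η ≤ δ i j := by
    have h1 : ∀ᶠ η : ℝ in 𝓝[>] 0, ∀ i j, η ≤ δ i j := by
      refine eventually_all.2 fun i => eventually_all.2 fun j => ?_
      filter_upwards [Ioc_mem_nhdsGT (hδ i j)] with η hη
      exact hη.2
    obtain ⟨η, h2, h3⟩ := (h1.and self_mem_nhdsWithin).exists
    exact ⟨η, h3, h2⟩
  obtain ⟨F, hF⟩ := pd.tb (η / 2) (half_pos hη)
  choose κ hκ hκ2 using hF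
  refine ⟨F, κ, hκ, fun γ γ' e i j => hδ2 i j γ γ' ?_⟩
  have h1 := pd.tri γ (κ γ) γ'
  have h2 := hκ2 γ'
  rw [← e, pd.symm γ' (κ γ)] at h2
  linarith [hκ2 γ, hη2 i j]

private lemma piece_zero74 {d1 d2 : ℕ} {p P : G → MN N} (hp : Pm pd1 d1 p) (hP : Pm pd2 d2 P)
    {J : XUa μ R1 →L[ℂ] XUa μ R2} (hJ : Inc μ p P J) {A B : Set G} {c ε : ℝ} (hε : 0 < ε)
    (hε2 : (N : ℝ) * (N * ((2 * N + 1) * ε) ^ 2) < c)
    (hA : ∀ γ ∈ A, ∀ γ' ∈ A, ∀ i j, ‖p γ i j - p γ' i j‖ ≤ ε)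
    (hB : ∀ γ ∈ B, ∀ γ' ∈ B, ∀ i j, ‖P γ i j - P γ' i j‖ ≤ ε)
    (hAB : ∀ γ ∈ A, ∀ γ' ∈ B, c ≤ ns ((1 - P γ') * p γ)) (x : XUa μ R1) :
    iUX R2 B (J (iUX R1 A x)) = 0 := by
  classical
  rcases A.eq_empty_or_nonempty with rfl | ⟨α, hα⟩
  · rw [iUX_empty74, map_zero, map_zero]
  rcases B.eq_empty_or_nonempty with rfl | ⟨β, hβ⟩
  · rw [iUX_empty74]
  set W : XUa μ R1 →L[ℂ] XUa μ R2 := (iUX R2 B).comp (J.comp (iUX R1 A)) with hW
  have hWx : ∀ y, W y = iUX R2 B (J (iUX R1 A y)) := fun _ => rfl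
  have hpb : ∀ (a b : Fin N) γ, ‖(fun γ => p γ a b) γ‖ ≤ 1 := fun a b γ => hp.le_one γ a b
  have hPb : ∀ (a b : Fin N) γ, ‖(fun γ => P γ a b) γ‖ ≤ 1 := fun a b γ => hP.le_one γ a b
  have hWI : ∀ (a c : Fin N) y, ∑ b, Mf μ R2 (fun γ => P γ c b) (W (Mf μ R1 (fun γ => p γ b a) y)) =
      W (Mf μ R1 (fun γ => p γ c a) y) := by
    intro a c y
    have h := congrArg (iUX R2 B) (hJ a c (iUX R1 A y))
    rw [map_sum] at h
    rw [hWx, iUX_Mf74 A (hpb c a), ← h]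
    refine Finset.sum_congr rfl fun b _ => ?_
    rw [hWx, iUX_Mf74 B (hPb c b), iUX_Mf74 A (hpb b a)]
  have hWB : ∀ y, iUX R2 B (W y) = W y := fun y => by
    rw [hWx, iUX_idem74]
  have hWA : ∀ y, W (iUX R1 A y) = W y := fun y => by
    rw [hWx, hWx, iUX_idem74]
  have hb : ∀ (c b : Fin N) y, ‖Mf μ R2 (fun γ => P γ c b) (W y) - P β c b • W y‖ ≤ ε * ‖W y‖ := by
    intro c b y
    have e1 : Mf μ R2 (fun γ => P γ c b) (W y) =
        Mf μ R2 (fun γ => P γ c b * (B.indicator fun _ => (1 : ℂ)) γ) (W y) := by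
      rw [← Mf_mul (hPb c b) (ind_le74 B), ← Mf_ind, hWB]
    have e2 : P β c b • W y = Mf μ R2 (fun γ => P β c b * (B.indicator fun _ => (1 : ℂ)) γ) (W y) := by
      rw [Mf_smul (ind_le74 B), ← Mf_ind, hWB]
    have e3 : Mf μ R2 (fun γ => P γ c b) (W y) - P β c b • W y =
        Mf μ R2 (fun γ => P γ c b * (B.indicator fun _ => (1 : ℂ)) γ -
          P β c b * (B.indicator fun _ => (1 : ℂ)) γ) (W y) := by
      rw [Mf_sub (f := fun γ => P γ c b * (B.indicator fun _ => (1 : ℂ)) γ)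
        (g := fun γ => P β c b * (B.indicator fun _ => (1 : ℂ)) γ) (C := 1 * 1) (D := 1 * 1), ← e1, ← e2]
      · intro γ
        rw [norm_mul]
        exact mul_le_mul (hPb c b γ) (ind_le74 B γ) (norm_nonneg _) zero_le_one
      · intro γ
        rw [norm_mul]
        exact mul_le_mul (hPb c b β) (ind_le74 B γ) (norm_nonneg _) zero_le_one
    rw [e3]
    refine norm_Mf_le (fun γ => ?_) _
    by_cases h1 : γ ∈ B
    · simpa [h1] using hB γ h1 β hβ c b
    · simpa [h1] using hε.le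
  have ha : ∀ (b a : Fin N) y, ‖W (Mf μ R1 (fun γ => p γ b a) y) - p α b a • W y‖ ≤ ‖W‖ * (ε * ‖y‖) := by
    intro b a y
    have e1 : W (Mf μ R1 (fun γ => p γ b a) y) =
        W (Mf μ R1 (fun γ => p γ b a * (A.indicator fun _ => (1 : ℂ)) γ) y) := by
      rw [← Mf_mul (hpb b a) (ind_le74 A), ← Mf_ind, ← iUX_Mf74 A (hpb b a), hWA]
    have e2 : p α b a • W y = W (Mf μ R1 (fun γ => p α b a * (A.indicator fun _ => (1 : ℂ)) γ) y) := by
      rw [Mf_smul (ind_le74 A), ← Mf_ind, map_smul, hWA]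
    have e3 : W (Mf μ R1 (fun γ => p γ b a) y) - p α b a • W y =
        W (Mf μ R1 (fun γ => p γ b a * (A.indicator fun _ => (1 : ℂ)) γ -
          p α b a * (A.indicator fun _ => (1 : ℂ)) γ) y) := by
      rw [Mf_sub (f := fun γ => p γ b a * (A.indicator fun _ => (1 : ℂ)) γ)
        (g := fun γ => p α b a * (A.indicator fun _ => (1 : ℂ)) γ) (C := 1 * 1) (D := 1 * 1), map_sub, ← e1, ← e2]
      · intro γ
        rw [norm_mul]
        exact mul_le_mul (hpb b a γ) (ind_le74 A γ) (norm_nonneg _) zero_le_one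
      · intro γ
        rw [norm_mul]
        exact mul_le_mul (hpb b a α) (ind_le74 A γ) (norm_nonneg _) zero_le_one
    rw [e3]
    refine (W.le_opNorm _).trans (mul_le_mul_of_nonneg_left ?_ (norm_nonneg _))
    refine norm_Mf_le (fun γ => ?_) _
    by_cases h1 : γ ∈ A
    · simpa [h1] using hA γ h1 α hα b a
    · simpa [h1] using hε.le
  -- the entries
  have hent : ∀ (a c : Fin N) y, ‖(((1 - P β) * p α) c a) • W y‖ ≤ ((2 * N + 1) * ε) * ‖W‖ * ‖y‖ := by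
    intro a c y
    have e1 : ((1 - P β) * p α) c a = p α c a - ∑ b, P β c b * p α b a := by
      rw [sub_mul, one_mul, Matrix.sub_apply, Matrix.mul_apply]
    have e2 : (((1 - P β) * p α) c a) • W y =
        (∑ b, (Mf μ R2 (fun γ => P γ c b) (W (Mf μ R1 (fun γ => p γ b a) y)) - (P β c b * p α b a) • W y)) -
          (W (Mf μ R1 (fun γ => p γ c a) y) - p α c a • W y) := by
      rw [Finset.sum_sub_distrib, hWI, e1, sub_smul, Finset.sum_smul]
      abel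
    rw [e2]
    have h1 : ∀ b ∈ (Finset.univ : Finset (Fin N)),
        ‖Mf μ R2 (fun γ => P γ c b) (W (Mf μ R1 (fun γ => p γ b a) y)) - (P β c b * p α b a) • W y‖ ≤
          2 * ε * ‖W‖ * ‖y‖ := by
      intro b _
      have e3 : Mf μ R2 (fun γ => P γ c b) (W (Mf μ R1 (fun γ => p γ b a) y)) - (P β c b * p α b a) • W y =
          (Mf μ R2 (fun γ => P γ c b) (W (Mf μ R1 (fun γ => p γ b a) y)) -
            P β c b • W (Mf μ R1 (fun γ => p γ b a) y)) +
          P β c b • (W (Mf μ R1 (fun γ => p γ b a) y) - p α b a • W y) := by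
        rw [smul_sub, smul_smul]
        abel
      rw [e3]
      refine (norm_add_le _ _).trans ?_
      have h2 := hb c b (Mf μ R1 (fun γ => p γ b a) y)
      have h3 : ‖W (Mf μ R1 (fun γ => p γ b a) y)‖ ≤ ‖W‖ * (1 * ‖y‖) :=
        (W.le_opNorm _).trans (mul_le_mul_of_nonneg_left (norm_Mf_le (hpb b a) y) (norm_nonneg _))
      have h4 : ‖P β c b • (W (Mf μ R1 (fun γ => p γ b a) y) - p α b a • W y)‖ ≤ 1 * (‖W‖ * (ε * ‖y‖)) := by
        rw [norm_smul]
        exact mul_le_mul (hPb c b β) (ha b a y) (norm_nonneg _) zero_le_one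
      have h5 := mul_le_mul_of_nonneg_left h3 hε.le
      linarith
    refine (norm_sub_le _ _).trans ?_
    have h2 := (norm_sum_le _ _).trans (Finset.sum_le_sum h1)
    rw [Finset.sum_const, Finset.card_univ, Fintype.card_fin, nsmul_eq_mul] at h2
    have h3 := ha c a y
    linarith
  by_contra hne
  have hW0 : 0 < ‖W‖ := by
    by_contra h0
    apply hne
    rw [← hWx]
    have h1 := W.le_opNorm x
    have h2 : ‖W‖ * ‖x‖ ≤ 0 := mul_nonpos_of_nonpos_of_nonneg (not_lt.1 h0) (norm_nonneg _)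
    exact norm_le_zero_iff.1 (h1.trans h2)
  have hent2 : ∀ a c : Fin N, ‖((1 - P β) * p α) c a‖ ≤ (2 * N + 1) * ε := by
    intro a c
    by_contra hlt
    rw [not_le] at hlt
    have hE : 0 < ‖((1 - P β) * p α) c a‖ := lt_trans (by positivity) hlt
    have h1 : ‖W‖ ≤ ((2 * N + 1) * ε) * ‖W‖ / ‖((1 - P β) * p α) c a‖ := by
      refine ContinuousLinearMap.opNorm_le_bound _ (by positivity) fun y => ?_
      have h2 := hent a c y
      rw [norm_smul] at h2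
      rw [div_mul_eq_mul_div, le_div_iff₀ hE, mul_comm]
      exact h2
    rw [le_div_iff₀ hE, mul_comm] at h1
    exact absurd (le_of_mul_le_mul_right h1 hW0) (not_le.2 hlt)
  have h1 : ns ((1 - P β) * p α) ≤ (N : ℝ) * (N * ((2 * N + 1) * ε) ^ 2) := by
    unfold ns
    have h2 : ∀ i ∈ (Finset.univ : Finset (Fin N)), ∑ j, ‖((1 - P β) * p α) i j‖ ^ 2 ≤
        N * ((2 * N + 1) * ε) ^ 2 := by
      intro i _
      have h3 : ∀ j ∈ (Finset.univ : Finset (Fin N)), ‖((1 - P β) * p α) i j‖ ^ 2 ≤ ((2 * N + 1) * ε) ^ 2 :=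
        fun j _ => pow_le_pow_left₀ (norm_nonneg _) (hent2 j i) 2
      refine (Finset.sum_le_sum h3).trans (le_of_eq ?_)
      rw [Finset.sum_const, Finset.card_univ, Fintype.card_fin, nsmul_eq_mul]
    refine (Finset.sum_le_sum h2).trans (le_of_eq ?_)
    rw [Finset.sum_const, Finset.card_univ, Fintype.card_fin, nsmul_eq_mul]
  have h2 := hAB α hα β hβ
  linarith

theorem inc_off {d1 d2 : ℕ} {p P : G → MN N} (hp : Pm pd1 d1 p) (hP : Pm pd2 d2 P)
    {J : XUa μ R1 →L[ℂ] XUa μ R2} (hJ : Inc μ p P J) {A B : Set G} {c : ℝ} (hc : 0 < c)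
    (hAB : ∀ γ ∈ A, ∀ γ' ∈ B, c ≤ ns ((1 - P γ') * p γ)) (x : XUa μ R1) :
    iUX R2 B (J (iUX R1 A x)) = 0 := by
  classical
  obtain ⟨ε, hε, hε2⟩ : ∃ ε : ℝ, 0 < ε ∧ (N : ℝ) * (N * ((2 * N + 1) * ε) ^ 2) < c := by
    refine ⟨Real.sqrt c / ((N + 1) * (2 * N + 1)), by positivity, ?_⟩
    have e : (2 * (N : ℝ) + 1) * (Real.sqrt c / ((N + 1) * (2 * N + 1))) = Real.sqrt c / (N + 1) := by
      field_simp
    rw [e, div_pow, Real.sq_sqrt hc.le, ← mul_assoc, mul_div_assoc', div_lt_iff₀ (by positivity)]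
    have hN : (0 : ℝ) ≤ N := by positivity
    nlinarith
  obtain ⟨F1, κ1, hκ1, h1⟩ := exists_part74 pd1 hp.uc hε
  obtain ⟨F2, κ2, hκ2, h2⟩ := exists_part74 pd2 hP.uc hε
  rw [iUX_sum74 A hκ1, map_sum, map_sum]
  refine Finset.sum_eq_zero fun a _ => ?_
  rw [iUX_sum74 B hκ2]
  refine Finset.sum_eq_zero fun b _ => ?_
  refine piece_zero74 hp hP hJ hε hε2 ?_ ?_ (fun γ hγ γ' hγ' => hAB γ hγ.1 γ' hγ'.1) x
  · rintro γ ⟨-, hγ⟩ γ' ⟨-, hγ'⟩
    exact h1 γ γ' (by rw [Set.mem_preimage, Set.mem_singleton_iff] at hγ hγ'; rw [hγ, hγ'])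
  · rintro γ ⟨-, hγ⟩ γ' ⟨-, hγ'⟩
    exact h2 γ γ' (by rw [Set.mem_preimage, Set.mem_singleton_iff] at hγ hγ'; rw [hγ, hγ'])

theorem inc_off' {d1 d2 : ℕ} {p P : G → MN N} (hp : Pm pd1 d1 p) (hP : Pm pd2 d2 P)
    {J : XUa μ R1 →L[ℂ] XUa μ R2} (hJ : Inc μ p P J) {A B : Set G} {c : ℝ} (hc : 0 < c)
    (hAB : ∀ γ ∈ A, ∀ γ' ∈ B, c ≤ ns ((1 - P γ') * p γ)) (x : XUa μ R2) :
    iUX R1 A (ContinuousLinearMap.adjoint J (iUX R2 B x)) = 0 := by
  refine ext_inner_right ℂ fun y => ?_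
  rw [inner_zero_left, iUX_sa74, ContinuousLinearMap.adjoint_inner_left, iUX_sa74, inc_off hp hP hJ hc hAB, inner_zero_right]

end Pool.Agent.Helper45.DC
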