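import Pool.Agent.Helper45.DC.Main
import Pool.Agent.Helper45.DC.Off
import Pool.Agent.Helper78.BM.Erg

/-!
# Layer DC: the operator valued measures are not invariant

`Full μ a E R b A`: an operator `Y` such that `T V_g Y` vanishes on `A` for all `g` is zero (Lemma F). `not_inv_ln`: the line valued measure `Φ_u` is not invariant under the centraliser of `b_v`; `not_inv_pt`: dually. The set of the `g` such that `V_g` commutes with all
`Φ_u(f)` is a closed subgroup which contains the centraliser of `b_u`; if it contains the centraliser of `b_v` it is everything (`hgen`), so `T_v V_g Φ_u(f) = T_v Φ_u(f) V_g` vanishes on the points which are not incident with the support of `f`.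
-/

set_option autoImplicit false
set_option linter.unusedSectionVars false

open MeasureTheory Filter Topology

namespace Pool.Agent.Helper45.DC

open Pool.Agent.Helper84 Pool.Agent.Helper84.GN Pool.Agent.Helper84.GN.S3 Pool.Agent.Helper84.GN.S3.X
open Pool.Agent.Helper84.NI Pool.Agent.Helper84.GVN Pool.Agent.Helper90.RK
open Pool.Agent.Helper96.RK Pool.Agent.Helper66.FR Pool.Agent.Helper84.FR Pool.Agent.Helper55.FR
open Pool.Agent.Helper78.BM
open Pool.Agent.Helper96.FR (contVec)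

variable {G1 X G Λ : Type} [Group G1] [TopologicalSpace G1] [IsTopologicalGroup G1] [MeasurableSpace X] [MulAction G1 X]
  [MeasurableConstSMul G1 X] [Group G] [Group Λ] [Countable Λ] {μ : Measure X} [SMulInvariantMeasure G1 X μ]
  [IsProbabilityMeasure μ] {a : Cocy G1 X Λ} {E : Emb Λ G} {R R1 R2 : Reg G} {pd pd1 pd2 : PD G} {b bv bu : ℕ → G1} {N : ℕ}

/-- `A` is full: an operator `Y` such that `T V_g Y` vanishes on `A` for all `g` is zero. -/
def Full (μ : Measure X) [SMulInvariantMeasure G1 X μ] [IsProbabilityMeasure μ] (a : Cocy G1 X Λ)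
    (E : Emb Λ G) (R : Reg G) (b : ℕ → G1) (A : Set G) : Prop :=
  ∀ Y : XL μ (L2 G) →L[ℂ] XL μ (L2 G),
    (∀ (g : G1) (φ : XL μ (L2 G)), iUX R A (Tb μ a E R b (Vq μ a E g (Y φ))) = 0) → ∀ φ, Y φ = 0

/-- `Φ(f)` commutes with the centraliser. -/
theorem Po_cen (hPL : PLf R pd) {f : G → ℂ} (hf : AV R pd f) (q : cen b) (φ : XL μ (L2 G)) :
    Po μ a E R b f (Vq μ a E (q : G1) φ) = Vq μ a E (q : G1) (Po μ a E R b f φ) := by
  refine ext_inner_left ℂ fun ψ => ?_
  rw [Po_apply, ContinuousLinearMap.adjoint_inner_right, Tb_cen, ← oL_Mf hPL hf,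
    ← inner_conj_symm, opL_adj (xmUa μ b R) (cres a (cen b)) (uhomU (μ := μ) (R := R) (b := b) (E := E)),
    inner_conj_symm]
  have h1 : opL (xmUa μ b R) (cres a (cen b)) (CRep.ext (XAU R) E) q⁻¹ (Tb μ a E R b ψ) =
      Tb μ a E R b (Vq μ a E ((q⁻¹ : cen b) : G1) ψ) := (Tb_cen q⁻¹ ψ).symm
  rw [h1, ← ContinuousLinearMap.adjoint_inner_right, ← Po_apply]
  have h2 : (((q⁻¹ : cen b) : cen b) : G1) = ((q : G1))⁻¹ := rfl
  rw [h2, inner_Vq_left, inv_inv]

/-- The group of the `g` such that `V_g` commutes with all `Φ(f)`. -/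
noncomputable def comG (μ : Measure X) [SMulInvariantMeasure G1 X μ] [IsProbabilityMeasure μ] (a : Cocy G1 X Λ)
    (E : Emb Λ G) (R : Reg G) (pd : PD G) (b : ℕ → G1) : Subgroup G1 where
  carrier := {g | ∀ f, AV R pd f → ∀ φ, Po μ a E R b f (Vq μ a E g φ) = Vq μ a E g (Po μ a E R b f φ)}
  one_mem' := by
    intro f _ φ
    rw [vg_one, vg_one]
  mul_mem' := by
    intro g h hg hh f hf φ
    rw [vg_mul, vg_mul, hg f hf, hh f hf]
  inv_mem' := by
    intro g hg f hf φ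
    have h := hg f hf (Vq μ a E g⁻¹ φ)
    rw [Vq_inv'] at h
    rw [h, Vq_inv]

theorem mem_comG {g : G1} : g ∈ comG μ a E R pd b ↔
    ∀ f, AV R pd f → ∀ φ, Po μ a E R b f (Vq μ a E g φ) = Vq μ a E g (Po μ a E R b f φ) := Iff.rfl

theorem isClosed_comG (h3 : Tendsto (fun g : G1 => μ {x | a.a g x ≠ 1}) (𝓝 1) (𝓝 0)) (hK : Kcont G1 μ) :
    IsClosed (comG μ a E R pd b : Set G1) := by
  have hc : ∀ φ : XL μ (L2 G), Continuous fun g : G1 => Vq μ a E g φ := by
    intro φ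
    rw [continuous_iff_continuousAt]
    intro g
    exact tendsto_contVec (contVec_vg h3 hK (jjR E) φ) g
  have e : (comG μ a E R pd b : Set G1) = ⋂ f : {f : G → ℂ // AV R pd f}, ⋂ φ : XL μ (L2 G),
      {g | Po μ a E R b f.1 (Vq μ a E g φ) = Vq μ a E g (Po μ a E R b f.1 φ)} := by
    ext g
    simp only [SetLike.mem_coe, mem_comG, Set.mem_iInter, Set.mem_ofPred_eq, Subtype.forall]
  rw [e]
  refine isClosed_iInter fun f => isClosed_iInter fun φ => ?_
  exact isClosed_eq ((Po μ a E R b f.1).continuous.comp (hc φ)) (hc _)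

/-- Close positions. -/
theorem Pm.near {G : Type} {pd : PD G} {N d : ℕ} {p : G → MN N} (hp : Pm pd d p) {ε : ℝ} (hε : 0 < ε) :
    ∃ δ : ℝ, 0 < δ ∧ ∀ γ γ', pd.d γ γ' < δ → ns (p γ - p γ') ≤ ε := by
  obtain ⟨η, hη, hη2⟩ : ∃ η : ℝ, 0 < η ∧ (N : ℝ) * (N * η ^ 2) ≤ ε := by
    refine ⟨min 1 (ε / (N * N + 1)), by positivity, ?_⟩
    have h1 : (min 1 (ε / (N * N + 1)) : ℝ) ^ 2 ≤ ε / (N * N + 1) := by
      have h2 : (min 1 (ε / (N * N + 1)) : ℝ) ≤ 1 := min_le_left _ _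
      have h3 : (min 1 (ε / (N * N + 1)) : ℝ) ≤ ε / (N * N + 1) := min_le_right _ _
      have h4 : (0 : ℝ) ≤ min 1 (ε / (N * N + 1)) := by positivity
      nlinarith
    calc (N : ℝ) * (N * (min 1 (ε / (N * N + 1)) : ℝ) ^ 2)
        ≤ (N : ℝ) * (N * (ε / (N * N + 1))) := by gcongr
      _ = (N * N) * ε / (N * N + 1) := by ring
      _ ≤ ε := by
        rw [div_le_iff₀ (by positivity)]
        nlinarith
  have h1 : ∀ i j : Fin N, ∃ δ : ℝ, 0 < δ ∧ ∀ γ γ', pd.d γ γ' < δ → ‖p γ i j - p γ' i j‖ ≤ η :=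
    fun i j => hp.uc i j η hη
  choose δ hδ hδ2 using h1
  obtain ⟨δ0, hδ0, hle⟩ : ∃ δ0 : ℝ, 0 < δ0 ∧ ∀ i j, δ0 ≤ δ i j := by
    by_cases hN : Nonempty (Fin N × Fin N)
    · obtain ⟨x, hx⟩ := Finite.exists_min fun x : Fin N × Fin N => δ x.1 x.2
      exact ⟨δ x.1 x.2, hδ _ _, fun i j => hx (i, j)⟩
    · exact ⟨1, one_pos, fun i j => (hN ⟨(i, j)⟩).elim⟩
  refine ⟨δ0, hδ0, fun γ γ' hd => ?_⟩
  refine le_trans ?_ hη2
  unfold ns
  calc ∑ i, ∑ j, ‖(p γ - p γ') i j‖ ^ 2 ≤ ∑ _i : Fin N, ∑ _j : Fin N, η ^ 2 := by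
        refine Finset.sum_le_sum fun i _ => Finset.sum_le_sum fun j _ => ?_
        exact pow_le_pow_left₀ (norm_nonneg _) (hδ2 i j γ γ' (lt_of_lt_of_le hd (hle i j))) 2
    _ = (N : ℝ) * (N * η ^ 2) := by simp

theorem Pm.ns_le {G : Type} {pd : PD G} {N d : ℕ} {p : G → MN N} (hp : Pm pd d p) (γ : G) :
    ns (p γ) ≤ N * N := by
  unfold ns
  calc ∑ i, ∑ j, ‖p γ i j‖ ^ 2 ≤ ∑ _i : Fin N, ∑ _j : Fin N, (1 : ℝ) := by
        refine Finset.sum_le_sum fun i _ => Finset.sum_le_sum fun j _ => ?_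
        have h := hp.le_one γ i j
        nlinarith [norm_nonneg (p γ i j)]
    _ = N * N := by simp

private theorem ns_add_le45 {N : ℕ} (A B : MN N) : ns (A + B) ≤ 2 * (ns A + ns B) := by
  unfold ns
  simp only [Matrix.add_apply]
  rw [← Finset.sum_add_distrib, Finset.mul_sum]
  refine Finset.sum_le_sum fun i _ => ?_
  rw [← Finset.sum_add_distrib, Finset.mul_sum]
  refine Finset.sum_le_sum fun j _ => ?_
  have h := norm_add_le (A i j) (B i j)
  nlinarith [norm_nonneg (A i j + B i j), sq_nonneg (‖A i j‖ - ‖B i j‖), norm_nonneg (A i j), norm_nonneg (B i j)]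

/-- Incidence defect and close positions. -/
theorem near_inc {N : ℕ} {A A' B : MN N} {c : ℝ} (hB : ns B ≤ N * N)
    (hc : c ≤ ns (A * B)) (hA : ns (A - A') * (N * N) ≤ c / 4) : c / 4 ≤ ns (A' * B) := by
  have h1 : A * B = (A - A') * B + A' * B := by rw [← Matrix.add_mul, sub_add_cancel]
  have h2 := ns_add_le45 ((A - A') * B) (A' * B)
  rw [← h1] at h2
  have h3 := ns_mul_le (A - A') B
  have h4 : ns (A - A') * ns B ≤ ns (A - A') * (N * N) :=
    mul_le_mul_of_nonneg_left hB (ns_nonneg _)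
  linarith

theorem near_inc' {N : ℕ} {A B B' : MN N} {c : ℝ} (hA0 : ns A ≤ 2 * (N + N * N))
    (hc : c ≤ ns (A * B)) (hB : 2 * (N + N * N) * ns (B - B') ≤ c / 4) : c / 4 ≤ ns (A * B') := by
  have h1 : A * B = A * (B - B') + A * B' := by rw [← Matrix.mul_add, sub_add_cancel]
  have h2 := ns_add_le45 (A * (B - B')) (A * B')
  rw [← h1] at h2
  have h3 := ns_mul_le A (B - B')
  have h4 : ns A * ns (B - B') ≤ 2 * (N + N * N) * ns (B - B') :=
    mul_le_mul_of_nonneg_right hA0 (ns_nonneg _)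
  linarith

theorem ns_one (N : ℕ) : ns (1 : MN N) = N := by
  unfold ns
  have h : ∀ i : Fin N, ∑ j, ‖(1 : MN N) i j‖ ^ 2 = 1 := by
    intro i
    rw [Finset.sum_eq_single i]
    · rw [Matrix.one_apply_eq, norm_one, one_pow]
    · intro j _ hj
      rw [Matrix.one_apply_ne (Ne.symm hj), norm_zero]
      norm_num
    · intro h
      exact absurd (Finset.mem_univ i) h
  rw [Finset.sum_congr rfl fun i _ => h i]
  simp

theorem Pm.ns_one_sub {G : Type} {pd : PD G} {N d : ℕ} {p : G → MN N} (hp : Pm pd d p) (γ : G) :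
    ns (1 - p γ) ≤ 2 * (N + N * N) := by
  have h1 := ns_add_le45 1 (-p γ)
  have h2 : ns (-p γ) = ns (p γ) := by
    unfold ns
    simp
  rw [← sub_eq_add_neg, h2, ns_one] at h1
  have h3 := hp.ns_le γ
  linarith

/-- `Φ(f) = T* 1_B f T` for `f` supported in `B`. -/
theorem Po_supp {f : G → ℂ} {C : ℝ} (hC : ∀ γ, ‖f γ‖ ≤ C) {B : Set G} (hB : ∀ γ, f γ ≠ 0 → γ ∈ B)
    (φ : XL μ (L2 G)) : Po μ a E R b f φ =
      ContinuousLinearMap.adjoint (Tb μ a E R b) (iUX R B (Mf μ R f (Tb μ a E R b φ))) := by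
  classical
  rw [Po_apply, Mf_ind, Mf_mul (C := 1) (fun γ => by
    unfold Set.indicator
    split_ifs <;> simp) hC]
  have e : (fun γ => (B.indicator fun _ => (1 : ℂ)) γ * f γ) = f := by
    funext γ
    unfold Set.indicator
    split_ifs with h
    · rw [one_mul]
    · rw [zero_mul]
      by_contra hne
      exact h (hB γ (Ne.symm hne))
  rw [e]

/-- If `Φ(f) = 0` for the functions of small support then `T = 0`. -/
theorem Po_small (hu : XPpr R (vec μ a E b) ≠ 0) {δ : ℝ} (hδ : 0 < δ)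
    (h : ∀ (γ0 : G) (f : G → ℂ), UC pd f → (∀ γ, ‖f γ‖ ≤ 1) → (∀ γ, f γ ≠ 0 → pd.d γ γ0 < δ) →
      ∀ φ, Po μ a E R b f φ = 0) : False := by
  obtain ⟨I, f, hf0, hf1, hfd, hfU⟩ := pou pd hδ
  have hfle : ∀ i ∈ I, ∀ γ, ‖((f i γ : ℝ) : ℂ)‖ ≤ 1 := by
    intro i hi γ
    rw [Complex.norm_real, Real.norm_eq_abs, abs_of_nonneg (hf0 i γ), ← hf1 γ]
    exact Finset.single_le_sum (f := fun j => f j γ) (fun j _ => hf0 j γ) hi
  have h1 : ∀ i ∈ I, ∀ φ, Po μ a E R b (fun γ => ((f i γ : ℝ) : ℂ)) φ = 0 := by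
    intro i hi φ
    refine h i _ (hfU i hi) (hfle i hi) (fun γ hγ => ?_) φ
    have h2 : f i γ ≠ 0 := fun h3 => hγ (by rw [h3, Complex.ofReal_zero])
    linarith [hfd i γ h2]
  have h2 : ∀ (s : Finset G), s ⊆ I → ∀ φ, Po μ a E R b (fun γ => ∑ i ∈ s, ((f i γ : ℝ) : ℂ)) φ = 0 := by
    classical
    intro s
    induction s using Finset.induction_on with
    | empty =>
      intro _ φ
      simp only [Finset.sum_empty]
      rw [Po_apply, Mf_const, zero_smul, map_zero]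
    | insert i s hi ih =>
      intro hs φ
      simp only [Finset.sum_insert hi]
      have hC : ∀ γ, ‖∑ j ∈ s, ((f j γ : ℝ) : ℂ)‖ ≤ s.card := by
        intro γ
        refine (norm_sum_le _ _).trans ?_
        refine (Finset.sum_le_card_nsmul _ _ 1 fun j hj =>
          hfle j (hs (Finset.mem_insert_of_mem hj)) γ).trans ?_
        simp
      rw [Po_apply, Mf_add (hfle i (hs (Finset.mem_insert_self i s))) hC, map_add, ← Po_apply, ← Po_apply,
        h1 i (hs (Finset.mem_insert_self i s)), ih fun j hj => hs (Finset.mem_insert_of_mem hj), add_zero]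
  have h3 := h2 I (Finset.Subset.refl I) (cst μ (dl 1))
  have e : (fun γ => ∑ i ∈ I, ((f i γ : ℝ) : ℂ)) = fun _ => 1 := by
    funext γ
    rw [← Complex.ofReal_sum, hf1, Complex.ofReal_one]
  rw [e, Po_apply, Mf_const, one_smul] at h3
  have h4 : inner ℂ (cst μ (dl 1 : L2 G)) (ContinuousLinearMap.adjoint (Tb μ a E R b)
      (Tb μ a E R b (cst μ (dl 1)))) = (0 : ℂ) := by
    rw [h3, inner_zero_right]
  rw [ContinuousLinearMap.adjoint_inner_right, inner_self_eq_zero, Tb_one] at h4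
  exact hu h4

/-- **The line valued measure is not invariant under the centraliser of `b_v`.** -/
theorem not_inv_ln {p P : G → MN N} (hp : Pm pd1 1 p) (hP : Pm pd2 2 P) (hPL2 : PLf R2 pd2)
    (h3 : Tendsto (fun g : G1 => μ {x | a.a g x ≠ 1}) (𝓝 1) (𝓝 0)) (hK : Kcont G1 μ)
    (hgen : ∀ Z : Subgroup G1, IsClosed (Z : Set G1) → cen bv ≤ Z → cen bu ≤ Z → Z = ⊤)
    (hu : XPpr R2 (vec μ a E bu) ≠ 0)
    (hI : Inc μ p P ((Tb μ a E R2 bu).comp (ContinuousLinearMap.adjoint (Tb μ a E R1 bv))))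
    (hF : ∃ c : ℝ, 0 < c ∧ ∀ γ0, Full μ a E R1 bv {γ | c ≤ ns ((1 - P γ0) * p γ)}) :
    ∃ (q : cen bv) (f : G → ℂ), AV R2 pd2 f ∧
      ∃ φ, Po μ a E R2 bu f (Vq μ a E (q : G1) φ) ≠ Vq μ a E (q : G1) (Po μ a E R2 bu f φ) := by
  by_contra hcon
  push Not at hcon
  have htop : comG μ a E R2 pd2 bu = ⊤ :=
    hgen _ (isClosed_comG h3 hK) (fun q hq f hf φ => hcon ⟨q, hq⟩ f hf φ)
      (fun q hq f hf φ => Po_cen hPL2 hf ⟨q, hq⟩ φ)
  have hcom : ∀ (g : G1) (f : G → ℂ), AV R2 pd2 f → ∀ φ,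
      Po μ a E R2 bu f (Vq μ a E g φ) = Vq μ a E g (Po μ a E R2 bu f φ) := by
    intro g f hf φ
    have h : g ∈ comG μ a E R2 pd2 bu := by
      rw [htop]
      exact Subgroup.mem_top g
    exact h f hf φ
  obtain ⟨c, hc, hF⟩ := hF
  obtain ⟨δ, hδ, hnear⟩ := hP.near (ε := c / (4 * (N * N + 1))) (by positivity)
  refine Po_small (pd := pd2) hu hδ fun γ0 f hfU hf1 hfs => hF γ0 _ fun g φ => ?_
  rw [← hcom g f (AV.of_uc hfU hf1), Po_supp hf1 hfs]
  have h := inc_off' hp hP hI (A := {γ | c ≤ ns ((1 - P γ0) * p γ)}) (B := {γ | pd2.d γ γ0 < δ})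
    (c := c / 4) (by positivity) (fun γ hγ γ' hγ' => by
      have h1 : c ≤ ns ((1 - P γ0) * p γ) := hγ
      have h2 := hnear γ' γ0 hγ'
      refine near_inc (hp.ns_le γ) h1 ?_
      have e : (1 - P γ0) - (1 - P γ') = P γ' - P γ0 := by abel
      rw [e]
      have hN : (0 : ℝ) ≤ N * N := by positivity
      calc ns (P γ' - P γ0) * (N * N) ≤ c / (4 * (N * N + 1)) * (N * N) :=
            mul_le_mul_of_nonneg_right h2 hN
        _ = c / 4 * ((N * N) / (N * N + 1)) := by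
            field_simp
        _ ≤ c / 4 * 1 := by
            refine mul_le_mul_of_nonneg_left ?_ (by positivity)
            rw [div_le_one (by positivity)]
            linarith
        _ = c / 4 := mul_one _)
    (Mf μ R2 f (Tb μ a E R2 bu (Vq μ a E g φ)))
  rw [adj_J1] at h
  exact h

/-- **The point valued measure is not invariant under the centraliser of `b_u`.** -/
theorem not_inv_pt {p P : G → MN N} (hp : Pm pd1 1 p) (hP : Pm pd2 2 P) (hPL1 : PLf R1 pd1)
    (h3 : Tendsto (fun g : G1 => μ {x | a.a g x ≠ 1}) (𝓝 1) (𝓝 0)) (hK : Kcont G1 μ)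
    (hgen : ∀ Z : Subgroup G1, IsClosed (Z : Set G1) → cen bv ≤ Z → cen bu ≤ Z → Z = ⊤)
    (hv : XPpr R1 (vec μ a E bv) ≠ 0)
    (hI : Inc μ p P ((Tb μ a E R2 bu).comp (ContinuousLinearMap.adjoint (Tb μ a E R1 bv))))
    (hF : ∃ c : ℝ, 0 < c ∧ ∀ γ0, Full μ a E R2 bu {γ | c ≤ ns ((1 - P γ) * p γ0)}) :
    ∃ (q : cen bu) (f : G → ℂ), AV R1 pd1 f ∧
      ∃ φ, Po μ a E R1 bv f (Vq μ a E (q : G1) φ) ≠ Vq μ a E (q : G1) (Po μ a E R1 bv f φ) := by
  by_contra hcon
  push Not at hcon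
  have htop : comG μ a E R1 pd1 bv = ⊤ :=
    hgen _ (isClosed_comG h3 hK) (fun q hq f hf φ => Po_cen hPL1 hf ⟨q, hq⟩ φ)
      (fun q hq f hf φ => hcon ⟨q, hq⟩ f hf φ)
  have hcom : ∀ (g : G1) (f : G → ℂ), AV R1 pd1 f → ∀ φ,
      Po μ a E R1 bv f (Vq μ a E g φ) = Vq μ a E g (Po μ a E R1 bv f φ) := by
    intro g f hf φ
    have h : g ∈ comG μ a E R1 pd1 bv := by
      rw [htop]
      exact Subgroup.mem_top g
    exact h f hf φ
  obtain ⟨c, hc, hF⟩ := hF
  obtain ⟨δ, hδ, hnear⟩ := hp.near (ε := c / (8 * (N + N * N + 1))) (by positivity)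
  refine Po_small (pd := pd1) hv hδ fun γ0 f hfU hf1 hfs => hF γ0 _ fun g φ => ?_
  rw [← hcom g f (AV.of_uc hfU hf1), Po_supp hf1 hfs]
  have h := inc_off hp hP hI (A := {γ | pd1.d γ γ0 < δ}) (B := {γ | c ≤ ns ((1 - P γ) * p γ0)})
    (c := c / 4) (by positivity) (fun γ hγ γ' hγ' => by
      have h1 : c ≤ ns ((1 - P γ') * p γ0) := hγ'
      have h2 := hnear γ γ0 hγ
      have e : ns (p γ0 - p γ) = ns (p γ - p γ0) := by
        unfold ns
        refine Finset.sum_congr rfl fun i _ => Finset.sum_congr rfl fun j _ => ?_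
        rw [Matrix.sub_apply, Matrix.sub_apply, norm_sub_rev]
      refine near_inc' (hP.ns_one_sub γ') h1 ?_
      rw [e]
      have hN : (0 : ℝ) ≤ 2 * (N + N * N) := by positivity
      calc 2 * (N + N * N) * ns (p γ - p γ0) ≤ 2 * (N + N * N) * (c / (8 * (N + N * N + 1))) :=
            mul_le_mul_of_nonneg_left h2 hN
        _ = c / 4 * ((N + N * N) / (N + N * N + 1)) := by
            field_simp
            ring
        _ ≤ c / 4 * 1 := by
            refine mul_le_mul_of_nonneg_left ?_ (by positivity)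
            rw [div_le_one (by positivity)]
            linarith
        _ = c / 4 := mul_one _)
    (Mf μ R1 f (Tb μ a E R1 bv (Vq μ a E g φ)))
  exact h

end Pool.Agent.Helper45.DC
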