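import Pool.Agent.Helper45.DC.Defs

/-!
# Layer DC, block 7: polynomials in the entries are dense (Stone-Weierstrass)

Let `K` be the closure of the range of `P : G → MN N` (compact: entries bounded by `1`, `Pm.le_one`; use the product topology of `MN N = Fin N → Fin N → ℂ`). The set of the `F : C(K, ℂ)` such that `γ ↦ F (P γ)` is in `S` is a closed (by `hlim`) submodule
containing `1` and stable under the multiplication by the coordinates `M ↦ M i j`, so it contains the subalgebra generated by the coordinates (`Algebra.adjoin_induction` or: the set of the `F` with `F * S' ⊆ S'` is a subalgebra), so by Stone-Weierstrass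
(`ContinuousMap.starSubalgebra_topologicalClosure_eq_top_of_separatesPoints`; the entries are real on `K`, so the subalgebra is a star subalgebra) it is everything.
A function `f` which is uniformly continuous for `pd` is, up to `ε`, of this form: take `δ` for `f`, `ε`, `c` from `hP.sep δ`: if `ns (P γ - P γ') < c` then `|f γ - f γ'| ≤ ε`. Finitely many centres `γ_k` such that every `γ` has a centre with `ns (P γ - P γ_k) < c / 4` (total boundedness of `pd` and uniform
continuity of the entries); `w_k M = max (c / 2 - ns (M - P γ_k)) 0`, `W = ∑ w_k > 0` on `K` (`≥ c / 4` on the range, so on the closure), `F = ∑ f(γ_k) w_k / W`. `|f γ - F (P γ)| ≤ ε`.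
-/

set_option autoImplicit false
set_option linter.unusedSectionVars false

open MeasureTheory Filter Topology

namespace Pool.Agent.Helper45.DC

open Pool.Agent.Helper84 Pool.Agent.Helper84.GN Pool.Agent.Helper84.GN.S3 Pool.Agent.Helper84.GN.S3.X
open Pool.Agent.Helper84.NI Pool.Agent.Helper84.GVN Pool.Agent.Helper90.RK
open Pool.Agent.Helper96.RK Pool.Agent.Helper66.FR Pool.Agent.Helper84.FR Pool.Agent.Helper55.FR
open Pool.Agent.Helper78.BM

section

variable {G : Type} {N : ℕ}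

private abbrev X28 (N : ℕ) : Type := Fin N → Fin N → Set.Icc (-1 : ℝ) 1

private theorem bd28 {pd : PD G} {d : ℕ} {P : G → MN N} (hP : Pm pd d P) (γ : G) (i j : Fin N) :
    (P γ i j).re ∈ Set.Icc (-1 : ℝ) 1 := by
  have h := (Complex.abs_re_le_norm (P γ i j)).trans (hP.le_one γ i j)
  rw [abs_le] at h
  exact ⟨h.1, h.2⟩

private noncomputable def Q28 {pd : PD G} {d : ℕ} {P : G → MN N} (hP : Pm pd d P) (γ : G) : X28 N :=
  fun i j => ⟨(P γ i j).re, bd28 hP γ i j⟩

private noncomputable def nx28 (x : X28 N) (M : MN N) : ℝ :=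
  ∑ i, ∑ j, ((x i j : ℝ) - (M i j).re) ^ 2

private theorem re28 {pd : PD G} {d : ℕ} {P : G → MN N} (hP : Pm pd d P) (γ : G) (i j : Fin N) :
    (((P γ i j).re : ℝ) : ℂ) = P γ i j := Complex.conj_eq_iff_re.1 (hP.re γ i j)

private theorem nx28_eq {pd : PD G} {d : ℕ} {P : G → MN N} (hP : Pm pd d P) (γ γ' : G) :
    nx28 (Q28 hP γ) (P γ') = ns (P γ - P γ') := by
  unfold nx28 ns
  refine Finset.sum_congr rfl fun i _ => Finset.sum_congr rfl fun j _ => ?_
  rw [Matrix.sub_apply, ← re28 hP γ i j, ← re28 hP γ' i j, ← Complex.ofReal_sub, Complex.norm_real,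
    Real.norm_eq_abs, sq_abs]
  rfl

private theorem nx28_cont (M : MN N) : Continuous fun x : X28 N => nx28 x M := by
  unfold nx28
  fun_prop

/-- Every continuous function of the entries is in `S`. -/
private theorem cont28 {pd : PD G} {d : ℕ} {P : G → MN N} (hP : Pm pd d P) (S : Set (G → ℂ))
    (h1 : (fun _ => 1) ∈ S) (hadd : ∀ f ∈ S, ∀ g ∈ S, (fun γ => f γ + g γ) ∈ S)
    (hsmul : ∀ (c : ℂ), ∀ f ∈ S, (fun γ => c * f γ) ∈ S)
    (hmul : ∀ f ∈ S, ∀ i j, (fun γ => P γ i j * f γ) ∈ S)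
    (hlim : ∀ f : G → ℂ, f ∈ Bdf G → (∀ ε : ℝ, 0 < ε → ∃ g ∈ S, ∀ γ, ‖f γ - g γ‖ ≤ ε) → f ∈ S)
    {F : X28 N → ℝ} (hF : Continuous F) : (fun γ => ((F (Q28 hP γ) : ℝ) : ℂ)) ∈ S := by
  let A : Subalgebra ℝ C(X28 N, ℝ) :=
    { carrier := {F | ∀ g ∈ S, (fun γ => ((F (Q28 hP γ) : ℝ) : ℂ) * g γ) ∈ S}
      mul_mem' := by
        intro a b ha hb g hg
        have h := ha _ (hb g hg)
        convert h using 1
        funext γ
        rw [ContinuousMap.mul_apply]
        push_cast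
        ring
      add_mem' := by
        intro a b ha hb g hg
        have h := hadd _ (ha g hg) _ (hb g hg)
        convert h using 1
        funext γ
        rw [ContinuousMap.add_apply]
        push_cast
        ring
      algebraMap_mem' := by
        intro r g hg
        exact hsmul (r : ℂ) g hg }
  have hA : A.SeparatesPoints := by
    intro x y hxy
    obtain ⟨i, hi⟩ := Function.ne_iff.1 hxy
    obtain ⟨j, hj⟩ := Function.ne_iff.1 hi
    let φ : C(X28 N, ℝ) := ⟨fun x => (x i j : ℝ), by fun_prop⟩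
    have hφ : φ ∈ A := by
      intro g hg
      have h := hmul g hg i j
      convert h using 1
      funext γ
      have h2 : ((φ (Q28 hP γ) : ℝ) : ℂ) = P γ i j := re28 hP γ i j
      rw [h2]
    exact ⟨φ, ⟨φ, hφ, rfl⟩, fun h => hj (Subtype.ext h)⟩
  refine hlim _ ?_ ?_
  · obtain ⟨C, hC⟩ := (isCompact_univ : IsCompact (Set.univ : Set (X28 N))).exists_bound_of_continuousOn
      hF.continuousOn
    exact ⟨C, fun γ => by
      rw [Complex.norm_real]
      exact hC _ (Set.mem_univ _)⟩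
  · intro ε hε
    obtain ⟨g, hg⟩ := ContinuousMap.exists_mem_subalgebra_near_continuous_of_separatesPoints A hA F hF
      ε hε
    have h3 := g.2 _ h1
    refine ⟨_, h3, fun γ => ?_⟩
    have h4 := (hg (Q28 hP γ)).le
    rw [mul_one, ← Complex.ofReal_sub, Complex.norm_real, norm_sub_rev]
    exact h4

end

theorem uc_poly {G : Type} {pd : PD G} {N d : ℕ} {P : G → MN N} (hP : Pm pd d P) (S : Set (G → ℂ))
    (h1 : (fun _ => 1) ∈ S) (hadd : ∀ f ∈ S, ∀ g ∈ S, (fun γ => f γ + g γ) ∈ S)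
    (hsmul : ∀ (c : ℂ), ∀ f ∈ S, (fun γ => c * f γ) ∈ S)
    (hmul : ∀ f ∈ S, ∀ i j, (fun γ => P γ i j * f γ) ∈ S)
    (hlim : ∀ f : G → ℂ, f ∈ Bdf G → (∀ ε : ℝ, 0 < ε → ∃ g ∈ S, ∀ γ, ‖f γ - g γ‖ ≤ ε) → f ∈ S)
    {f : G → ℂ} (hf : UC pd f) (hfb : f ∈ Bdf G) : f ∈ S := by
  classical
  refine hlim f hfb fun ε hε => ?_
  obtain ⟨δ, hδ, hfδ⟩ := hf ε hε
  obtain ⟨c, hc, hsep⟩ := hP.sep δ hδ
  have hclose : ∀ γ γ', ns (P γ - P γ') < c → ‖f γ - f γ'‖ ≤ ε := by
    intro γ γ' h
    refine hfδ γ γ' ?_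
    by_contra h2
    have := hsep γ γ' (not_lt.1 h2)
    linarith
  -- the centres
  obtain ⟨e, he, hee⟩ : ∃ e : ℝ, 0 < e ∧ (N : ℝ) * ((N : ℝ) * e ^ 2) < c / 4 := by
    have h2 : Tendsto (fun e : ℝ => (N : ℝ) * ((N : ℝ) * e ^ 2)) (𝓝[>] 0) (𝓝 0) := by
      have h3 : Continuous fun e : ℝ => (N : ℝ) * ((N : ℝ) * e ^ 2) := by fun_prop
      have h4 := h3.tendsto 0
      simp only [ne_eq, OfNat.ofNat_ne_zero, not_false_eq_true, zero_pow, mul_zero] at h4
      exact h4.mono_left nhdsWithin_le_nhds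
    have h3 : ∀ᶠ e : ℝ in 𝓝[>] 0, (N : ℝ) * ((N : ℝ) * e ^ 2) < c / 4 :=
      h2.eventually (gt_mem_nhds (by positivity))
    obtain ⟨e, h4, h5⟩ := (h3.and self_mem_nhdsWithin).exists
    exact ⟨e, h5, h4⟩
  choose δ' hδ' hδ'' using fun i j => hP.uc i j e he
  obtain ⟨δ₀, hδ₀, hδ₁⟩ : ∃ δ₀ : ℝ, 0 < δ₀ ∧ ∀ i j, δ₀ < δ' i j := by
    have h2 : ∀ᶠ x : ℝ in 𝓝[>] 0, ∀ i j, x < δ' i j := by
      rw [eventually_all]
      intro i
      rw [eventually_all]
      intro j
      exact nhdsWithin_le_nhds (gt_mem_nhds (hδ' i j))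
    obtain ⟨x, h4, h5⟩ := (h2.and self_mem_nhdsWithin).exists
    exact ⟨x, h5, h4⟩
  obtain ⟨T, hT⟩ := pd.tb δ₀ hδ₀
  have hT' : ∀ γ, ∃ γ' ∈ T, ns (P γ - P γ') < c / 4 := by
    intro γ
    obtain ⟨γ', hγ', h2⟩ := hT γ
    refine ⟨γ', hγ', lt_of_le_of_lt ?_ hee⟩
    unfold ns
    calc ∑ i, ∑ j, ‖(P γ - P γ') i j‖ ^ 2 ≤ ∑ _i : Fin N, ∑ _j : Fin N, e ^ 2 := by
          refine Finset.sum_le_sum fun i _ => Finset.sum_le_sum fun j _ => ?_
          exact pow_le_pow_left₀ (norm_nonneg _) (hδ'' i j γ γ' (h2.trans (hδ₁ i j))) 2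
      _ = (N : ℝ) * ((N : ℝ) * e ^ 2) := by
          simp [Finset.sum_const, nsmul_eq_mul]
  -- the partition of unity
  let w : G → X28 N → ℝ := fun k x => max (c / 2 - nx28 x (P k)) 0
  let W : X28 N → ℝ := fun x => ∑ k ∈ T, w k x
  have hw0 : ∀ k x, 0 ≤ w k x := fun k x => le_max_right _ _
  have hwc : ∀ k, Continuous (w k) := fun k =>
    (continuous_const.sub (nx28_cont (P k))).max continuous_const
  have hWc : Continuous W := continuous_finsetSum _ fun k _ => hwc k
  have hM0 : ∀ x, 0 < max (W x) (c / 4) := fun x => lt_of_lt_of_le (by positivity) (le_max_right _ _)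
  have hFc : ∀ k, Continuous fun x => w k x / max (W x) (c / 4) := fun k =>
    (hwc k).div (hWc.max continuous_const) fun x => (hM0 x).ne'
  have hWγ : ∀ γ, max (W (Q28 hP γ)) (c / 4) = W (Q28 hP γ) := by
    intro γ
    obtain ⟨k, hk, h2⟩ := hT' γ
    refine max_eq_left ?_
    have h3 : w k (Q28 hP γ) ≤ W (Q28 hP γ) :=
      Finset.single_le_sum (f := fun k => w k (Q28 hP γ)) (fun k _ => hw0 k _) hk
    have h4 : c / 2 - nx28 (Q28 hP γ) (P k) ≤ w k (Q28 hP γ) := le_max_left _ _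
    rw [nx28_eq] at h4
    linarith
  -- finite sums
  have hsum : ∀ T' : Finset G,
      (fun γ => ∑ k ∈ T', f k * (((w k (Q28 hP γ) / max (W (Q28 hP γ)) (c / 4) : ℝ)) : ℂ)) ∈ S := by
    intro T'
    induction T' using Finset.induction_on with
    | empty =>
      have h2 := hsmul 0 _ h1
      convert h2 using 1
      funext γ
      simp
    | insert a s ha ih =>
      have h2 := hadd _ (hsmul (f a) _ (cont28 hP S h1 hadd hsmul hmul hlim (hFc a))) _ ih
      convert h2 using 1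
      funext γ
      rw [Finset.sum_insert ha]
  refine ⟨_, hsum T, fun γ => ?_⟩
  have hpos : 0 < W (Q28 hP γ) := by
    rw [← hWγ]
    exact hM0 _
  rw [hWγ]
  have e1 : ∑ k ∈ T, w k (Q28 hP γ) / W (Q28 hP γ) = 1 := by
    rw [← Finset.sum_div]
    exact div_self hpos.ne'
  have e2 : f γ = ∑ k ∈ T, f γ * (((w k (Q28 hP γ) / W (Q28 hP γ) : ℝ)) : ℂ) := by
    rw [← Finset.mul_sum, ← Complex.ofReal_sum, e1]
    simp
  rw [e2, ← Finset.sum_sub_distrib]
  calc ‖∑ k ∈ T, (f γ * (((w k (Q28 hP γ) / W (Q28 hP γ) : ℝ)) : ℂ) -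
        f k * (((w k (Q28 hP γ) / W (Q28 hP γ) : ℝ)) : ℂ))‖ ≤
      ∑ k ∈ T, ε * (w k (Q28 hP γ) / W (Q28 hP γ)) := by
        refine norm_sum_le_of_le _ fun k _ => ?_
        rw [← sub_mul, norm_mul, Complex.norm_real, Real.norm_eq_abs,
          abs_of_nonneg (div_nonneg (hw0 k _) hpos.le)]
        by_cases h2 : w k (Q28 hP γ) = 0
        · rw [h2]
          simp
        · refine mul_le_mul_of_nonneg_right (hclose γ k ?_) (div_nonneg (hw0 k _) hpos.le)
          by_contra h3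
          refine h2 (max_eq_right ?_)
          rw [nx28_eq]
          have := not_lt.1 h3
          linarith
    _ = ε := by rw [← Finset.mul_sum, e1, mul_one]

end Pool.Agent.Helper45.DC
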