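import Pool.Agent.Helper45.DC.Defs

/-!
# Layer DC, block 2: an operator with `d X = ∑ p_ij X p_ji` is local

Let `δ > 0`, `δ ≤ pd.d γ γ'` for `γ ∈ A`, `γ' ∈ B`; `c > 0` from `hp.sep δ`. We may assume `N ≥ 1` (otherwise `d = 0` or `G` is empty; if `N = 0` then `sep` gives `c ≤ ns 0 = 0`, so `A` or `B` is empty).
Let `ε > 0` with `N^2 (2 ε + ε^2) < c / 2`. By the total boundedness of `pd` and the uniform continuity of the entries there is `η > 0` and a finite set `F` of centres such that every `γ` is at distance `< η` from a centre and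
`‖p γ i j - p γ' i j‖ ≤ ε` if `pd.d γ γ' < 2 η`. Split `A`, `B` into finitely many pieces of `pd`-diameter `< 2 η`; `iUX R A = ∑` of the `iUX` of disjoint pieces (or by induction: it suffices that `iUX R B' (X (iUX R A' x)) = 0` for pieces,
`iUX` of a union of two disjoint sets is the sum; a cleaner way is `Mf_ind` and `Mf_add`).
For pieces `A' ∋ α`, `B' ∋ β`: put `Z = iUX R B' ∘ X ∘ iUX R A'`. Since `iUX` commutes with `Mf`, `d Z = ∑_{ij} Mf p_ij Z Mf p_ji`, `Z = iUX B' Z iUX A'`. On `B'`: `p_ij = p β i j + u_ij`, `|u_ij| ≤ ε`; on `A'`: `p_ji = p α j i + v_ji`, `|v_ji| ≤ ε`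
(`Mf p_ij (iUX B' y) = p β i j • iUX B' y + Mf (indicator B' (p_ij - p β i j)) y`, norm of the last operator `≤ ε`, `norm_Mf_le`). So
`(d - ∑ p β i j p α j i) Z = ∑ (u_ij Z p α j i + p β i j Z v_ji + u_ij Z v_ji)`, norm `≤ N^2 (2 ε + ε^2) ‖Z‖` (`|p α j i| ≤ 1`: `Pm.le_one`), and
`d - ∑ p β i j p α j i = ns (p α - p β) / 2 ≥ c / 2` (real symmetric, `∑ |p_ij|^2 = ∑ p_ij p_ji = tr = d`). So `‖Z‖ (c / 2) ≤ N^2 (2 ε + ε^2) ‖Z‖`, `Z = 0`.
-/

set_option autoImplicit false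
set_option linter.unusedSectionVars false

open MeasureTheory Filter Topology

namespace Pool.Agent.Helper45.DC

open Pool.Agent.Helper84 Pool.Agent.Helper84.GN Pool.Agent.Helper84.GN.S3 Pool.Agent.Helper84.GN.S3.X
open Pool.Agent.Helper84.NI Pool.Agent.Helper84.GVN Pool.Agent.Helper90.RK
open Pool.Agent.Helper96.RK Pool.Agent.Helper66.FR Pool.Agent.Helper84.FR Pool.Agent.Helper55.FR
open Pool.Agent.Helper78.BM

variable {G X : Type} [Group G] [MeasurableSpace X] {μ : Measure X} {R : Reg G} {pd : PD G} {N : ℕ}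

private theorem ind_le82 (A : Set G) (γ : G) : ‖(A.indicator fun _ => (1 : ℂ)) γ‖ ≤ 1 := by
  unfold Set.indicator
  split_ifs <;> simp

private theorem comm82 {f : G → ℂ} (hf : ∀ γ, ‖f γ‖ ≤ 1) (B : Set G) (y : XUa μ R) :
    iUX R B (Mf μ R f y) = Mf μ R f (iUX R B y) := by
  rw [Mf_ind, Mf_ind, Mf_mul (ind_le82 B) hf, Mf_mul hf (ind_le82 B)]
  refine congrArg (fun f => Mf μ R f y) ?_
  funext γ
  exact mul_comm _ _

private theorem idem82 (B : Set G) (y : XUa μ R) : iUX R B (iUX R B y) = iUX R B y := by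
  rw [Mf_ind, Mf_ind, Mf_mul (ind_le82 B) (ind_le82 B)]
  refine congrArg (fun f => Mf μ R f y) ?_
  funext γ
  unfold Set.indicator
  split_ifs <;> simp

private theorem near82 {f : G → ℂ} (hf : ∀ γ, ‖f γ‖ ≤ 1) (B : Set G) (c0 : ℂ) {ε : ℝ} (hε : 0 ≤ ε)
    (hB : ∀ γ ∈ B, ‖f γ - c0‖ ≤ ε) (w : XUa μ R) :
    ‖Mf μ R f (iUX R B w) - c0 • iUX R B w‖ ≤ ε * ‖w‖ := by
  have h1 : ∀ γ, ‖f γ * (B.indicator fun _ => (1 : ℂ)) γ‖ ≤ 1 * 1 := fun γ => by
    rw [norm_mul]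
    exact mul_le_mul (hf γ) (ind_le82 B γ) (norm_nonneg _) zero_le_one
  have h2 : ∀ γ, ‖c0 * (B.indicator fun _ => (1 : ℂ)) γ‖ ≤ ‖c0‖ * 1 := fun γ => by
    rw [norm_mul]
    exact mul_le_mul le_rfl (ind_le82 B γ) (norm_nonneg _) (norm_nonneg _)
  rw [Mf_ind, Mf_mul hf (ind_le82 B), ← Mf_smul (ind_le82 B), ← Mf_sub h1 h2]
  refine norm_Mf_le (fun γ => ?_) w
  by_cases hγ : γ ∈ B
  · rw [Set.indicator_of_mem hγ, mul_one, mul_one]
    exact hB γ hγ
  · rw [Set.indicator_of_notMem hγ, mul_zero, mul_zero, sub_zero, norm_zero]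
    exact hε

private theorem ns82 {d : ℕ} {p : G → MN N} (hp : Pm pd d p) (α β : G) :
    (d : ℂ) - ∑ i, ∑ j, p β i j * p α j i = ((ns (p α - p β) / 2 : ℝ) : ℂ) := by
  have h0 : ∀ γ, ∑ i, ∑ j, p γ i j * p γ i j = (d : ℂ) := by
    intro γ
    rw [← hp.tr γ]
    refine Finset.sum_congr rfl fun i _ => ?_
    rw [← hp.idem γ i i]
    refine Finset.sum_congr rfl fun j _ => ?_
    rw [hp.symm γ i j]
  have h1 : ((ns (p α - p β) : ℝ) : ℂ) = ∑ i, ∑ j, (p α i j - p β i j) * (p α i j - p β i j) := by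
    unfold ns
    rw [Complex.ofReal_sum]
    refine Finset.sum_congr rfl fun i _ => ?_
    rw [Complex.ofReal_sum]
    refine Finset.sum_congr rfl fun j _ => ?_
    have h3 := Complex.mul_conj (p α i j - p β i j)
    rw [map_sub, hp.re, hp.re, Complex.normSq_eq_norm_sq] at h3
    rw [h3]
    rfl
  have h2 : ∑ i, ∑ j, (p α i j - p β i j) * (p α i j - p β i j) =
      ∑ i, ∑ j, p α i j * p α i j + ∑ i, ∑ j, p β i j * p β i j - 2 * ∑ i, ∑ j, p β i j * p α j i := by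
    rw [Finset.mul_sum, ← Finset.sum_add_distrib, ← Finset.sum_sub_distrib]
    refine Finset.sum_congr rfl fun i _ => ?_
    rw [Finset.mul_sum, ← Finset.sum_add_distrib, ← Finset.sum_sub_distrib]
    refine Finset.sum_congr rfl fun j _ => ?_
    rw [hp.symm α i j]
    ring
  rw [h0, h0] at h2
  rw [Complex.ofReal_div, h1, h2]
  push_cast
  ring

private theorem cell82 {d : ℕ} {p : G → MN N} (hp : Pm pd d p) (Z : XUa μ R →L[ℂ] XUa μ R)
    (h : ∀ x, (d : ℂ) • Z x = ∑ i, ∑ j, Mf μ R (fun γ => p γ i j) (Z (Mf μ R (fun γ => p γ j i) x)))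
    {A B : Set G} {α β : G} {ε c : ℝ} (hε : 0 ≤ ε) (hA : ∀ γ ∈ A, ∀ i j, ‖p γ i j - p α i j‖ ≤ ε)
    (hB : ∀ γ ∈ B, ∀ i j, ‖p γ i j - p β i j‖ ≤ ε) (hc0 : 0 < c) (hc : c ≤ ns (p α - p β))
    (hεc : (N : ℝ) * (N * (2 * ε)) < c / 2) (x : XUa μ R) : iUX R B (Z (iUX R A x)) = 0 := by
  obtain ⟨Y, hY⟩ : ∃ Y : XUa μ R →L[ℂ] XUa μ R, Y = (iUX R B).comp (Z.comp (iUX R A)) := ⟨_, rfl⟩
  have hYx : ∀ x, Y x = iUX R B (Z (iUX R A x)) := fun x => by
    rw [hY]
    rfl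
  have hYB : ∀ x, iUX R B (Y x) = Y x := fun x => by
    rw [hYx, idem82]
  have hYA : ∀ x, Y (iUX R A x) = Y x := fun x => by
    rw [hYx, hYx, idem82]
  have h1 : ∀ x, (d : ℂ) • Y x =
      ∑ i, ∑ j, Mf μ R (fun γ => p γ i j) (Y (Mf μ R (fun γ => p γ j i) x)) := by
    intro x
    rw [hYx, ← map_smul, h, map_sum]
    refine Finset.sum_congr rfl fun i _ => ?_
    rw [map_sum]
    refine Finset.sum_congr rfl fun j _ => ?_
    rw [comm82 (fun γ => hp.le_one γ i j), hYx, comm82 (fun γ => hp.le_one γ j i)]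
  have h2 : ∀ x i j, ‖Mf μ R (fun γ => p γ i j) (Y (Mf μ R (fun γ => p γ j i) x)) -
      (p β i j * p α j i) • Y x‖ ≤ 2 * ε * (‖Y‖ * ‖x‖) := by
    intro x i j
    obtain ⟨m, hm⟩ : ∃ m, m = Mf μ R (fun γ => p γ j i) x := ⟨_, rfl⟩
    rw [← hm]
    have hmn : ‖m‖ ≤ 1 * ‖x‖ := by
      rw [hm]
      exact norm_Mf_le (fun γ => hp.le_one γ j i) x
    have e1 := near82 (μ := μ) (R := R) (f := fun γ => p γ i j) (fun γ => hp.le_one γ i j) B (p β i j) hε
      (fun γ hγ => hB γ hγ i j) (Y m)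
    rw [hYB] at e1
    have e2 := near82 (μ := μ) (R := R) (f := fun γ => p γ j i) (fun γ => hp.le_one γ j i) A (p α j i) hε
      (fun γ hγ => hA γ hγ j i) x
    rw [← comm82 (fun γ => hp.le_one γ j i), ← hm] at e2
    have e3 : ‖Y m - p α j i • Y x‖ ≤ ‖Y‖ * (ε * ‖x‖) := by
      have e4 : Y m - p α j i • Y x = Y (iUX R A m - p α j i • iUX R A x) := by
        rw [map_sub, map_smul, hYA, hYA]
      rw [e4]
      exact (Y.le_opNorm _).trans (mul_le_mul_of_nonneg_left e2 (norm_nonneg _))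
    have e5 : Mf μ R (fun γ => p γ i j) (Y m) - (p β i j * p α j i) • Y x =
        (Mf μ R (fun γ => p γ i j) (Y m) - p β i j • Y m) + p β i j • (Y m - p α j i • Y x) := by
      rw [smul_sub, smul_smul]
      abel
    have e6 : ‖p β i j • (Y m - p α j i • Y x)‖ ≤ 1 * (‖Y‖ * (ε * ‖x‖)) := by
      rw [norm_smul]
      exact mul_le_mul (hp.le_one β i j) e3 (norm_nonneg _) zero_le_one
    have e7 : ε * ‖Y m‖ ≤ ε * (‖Y‖ * ‖x‖) := by
      refine mul_le_mul_of_nonneg_left ((Y.le_opNorm _).trans ?_) hε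
      refine mul_le_mul_of_nonneg_left ?_ (norm_nonneg _)
      linarith
    rw [e5]
    refine (norm_add_le _ _).trans ?_
    linarith
  have h3 : ∀ x, (c / 2) * ‖Y x‖ ≤ (N : ℝ) * (N * (2 * ε)) * (‖Y‖ * ‖x‖) := by
    intro x
    have e1 : ((ns (p α - p β) / 2 : ℝ) : ℂ) • Y x =
        ∑ i, ∑ j, (Mf μ R (fun γ => p γ i j) (Y (Mf μ R (fun γ => p γ j i) x)) -
          (p β i j * p α j i) • Y x) := by
      rw [← ns82 hp, sub_smul, h1, Finset.sum_smul, ← Finset.sum_sub_distrib]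
      refine Finset.sum_congr rfl fun i _ => ?_
      rw [Finset.sum_smul, ← Finset.sum_sub_distrib]
    have e2 : ‖((ns (p α - p β) / 2 : ℝ) : ℂ) • Y x‖ ≤ (N : ℝ) * (N * (2 * ε)) * (‖Y‖ * ‖x‖) := by
      rw [e1]
      refine (norm_sum_le _ _).trans ?_
      have e3 : ∀ i : Fin N, ‖∑ j, (Mf μ R (fun γ => p γ i j) (Y (Mf μ R (fun γ => p γ j i) x)) -
          (p β i j * p α j i) • Y x)‖ ≤ N * (2 * ε * (‖Y‖ * ‖x‖)) := by
        intro i
        refine (norm_sum_le _ _).trans ?_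
        refine (Finset.sum_le_sum fun j _ => h2 x i j).trans ?_
        rw [Finset.sum_const, Finset.card_univ, Fintype.card_fin, nsmul_eq_mul]
      refine (Finset.sum_le_sum fun i _ => e3 i).trans ?_
      rw [Finset.sum_const, Finset.card_univ, Fintype.card_fin, nsmul_eq_mul]
      exact le_of_eq (by ring)
    rw [norm_smul, Complex.norm_real, Real.norm_eq_abs, abs_of_nonneg (by linarith)] at e2
    exact (mul_le_mul_of_nonneg_right (by linarith) (norm_nonneg _)).trans e2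
  have hK : 0 ≤ (N : ℝ) * (N * (2 * ε)) := by positivity
  have h4 : ‖Y‖ ≤ (N : ℝ) * (N * (2 * ε)) * ‖Y‖ / (c / 2) := by
    refine Y.opNorm_le_bound (by positivity) fun x => ?_
    rw [div_mul_eq_mul_div, le_div_iff₀ (by positivity)]
    have := h3 x
    linarith
  have h5 : ‖Y‖ = 0 := by
    rw [le_div_iff₀ (by positivity)] at h4
    by_contra hne
    have hpos : 0 < ‖Y‖ := lt_of_le_of_ne (norm_nonneg Y) (Ne.symm hne)
    nlinarith
  rw [← hYx]
  have h6 := Y.le_opNorm x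
  rw [h5, zero_mul] at h6
  exact norm_le_zero_iff.1 h6

private theorem split82 (c : G → G) (A : Set G) (S : Finset G) (x : XUa μ R) :
    iUX R (A ∩ {γ | c γ ∈ S}) x = ∑ f ∈ S, iUX R (A ∩ {γ | c γ = f}) x := by
  classical
  induction S using Finset.induction_on with
  | empty =>
    rw [Finset.sum_empty, Mf_ind]
    have e : ((A ∩ {γ | c γ ∈ (∅ : Finset G)}).indicator fun _ => (1 : ℂ)) = fun _ => 0 := by
      funext γ
      refine Set.indicator_of_notMem ?_ _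
      simp
    rw [e, Mf_const, zero_smul]
  | insert f S hf ih =>
    rw [Finset.sum_insert hf, ← ih, Mf_ind, Mf_ind, Mf_ind, ← Mf_add (ind_le82 _) (ind_le82 _)]
    refine congrArg (fun f => Mf μ R f x) ?_
    funext γ
    by_cases hA : γ ∈ A
    · by_cases h1 : c γ = f
      · have h2 : c γ ∉ S := by
          rw [h1]
          exact hf
        simp [Set.indicator, hA, h1, hf]
      · simp [Set.indicator, hA, h1]
    · simp [Set.indicator, hA]

theorem loc_schur {d : ℕ} {p : G → MN N} (hp : Pm pd d p) (Z : XUa μ R →L[ℂ] XUa μ R)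
    (h : ∀ x, (d : ℂ) • Z x = ∑ i, ∑ j, Mf μ R (fun γ => p γ i j) (Z (Mf μ R (fun γ => p γ j i) x))) :
    LocX R pd Z := by
  intro A B δ hδ hAB x
  obtain ⟨c, hc0, hc⟩ := hp.sep δ hδ
  obtain ⟨ε, hε, hεc⟩ : ∃ ε : ℝ, 0 < ε ∧ (N : ℝ) * (N * (2 * ε)) < c / 2 := by
    refine ⟨c / (8 * ((N : ℝ) * N + 1)), by positivity, ?_⟩
    have h1 : (N : ℝ) * (N * (2 * (c / (8 * ((N : ℝ) * N + 1))))) =
        (N * N) / ((N : ℝ) * N + 1) * (c / 4) := by
      field_simp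
      ring
    rw [h1]
    have h2 : ((N : ℝ) * N) / ((N : ℝ) * N + 1) ≤ 1 := by
      rw [div_le_one (by positivity)]
      linarith
    nlinarith
  have huc := fun i j => hp.uc i j ε hε
  choose ρ hρ0 hρ using huc
  obtain ⟨η, hη0, hη⟩ : ∃ η : ℝ, 0 < η ∧ ∀ i j, η < ρ i j := by
    have h1 : ∀ᶠ η in 𝓝[>] (0 : ℝ), ∀ i j, η < ρ i j := by
      rw [Filter.eventually_all]
      intro i
      rw [Filter.eventually_all]
      intro j
      filter_upwards [Ioo_mem_nhdsGT (hρ0 i j)] with η h2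
      exact h2.2
    obtain ⟨η, h2, h3⟩ := (h1.and self_mem_nhdsWithin).exists
    exact ⟨η, h3, h2⟩
  obtain ⟨F, hF⟩ := pd.tb (η / 2) (by positivity)
  choose cc hccF hcc using hF
  have hall : ∀ A : Set G, A = A ∩ {γ | cc γ ∈ F} := by
    intro A
    ext γ
    simp [hccF γ]
  rw [hall A, hall B, split82, split82]
  refine Finset.sum_eq_zero fun g _ => ?_
  rw [map_sum, map_sum]
  refine Finset.sum_eq_zero fun f _ => ?_
  have hz : ∀ y : XUa μ R, iUX R (∅ : Set G) y = 0 := by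
    intro y
    rw [Mf_ind, Set.indicator_empty, Mf_const, zero_smul]
  rcases (A ∩ {γ | cc γ = f}).eq_empty_or_nonempty with h1 | ⟨α, hα⟩
  · rw [h1, hz, map_zero, map_zero]
  rcases (B ∩ {γ | cc γ = g}).eq_empty_or_nonempty with h1 | ⟨β, hβ⟩
  · rw [h1, hz]
  have hcl : ∀ γ γ' : G, cc γ = cc γ' → ∀ i j, ‖p γ i j - p γ' i j‖ ≤ ε := by
    intro γ γ' h2 i j
    refine hρ i j γ γ' ?_
    have h3 := pd.tri γ (cc γ) γ'
    have h4 := hcc γ
    have h5 := hcc γ'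
    rw [← h2, pd.symm] at h5
    have := hη i j
    linarith
  refine cell82 hp Z h (α := α) (β := β) hε.le ?_ ?_ hc0 (hc α β (hAB α hα.1 β hβ.1)) hεc x
  · intro γ hγ
    exact hcl γ α (hγ.2.trans hα.2.symm)
  · intro γ hγ
    exact hcl γ β (hγ.2.trans hβ.2.symm)

end Pool.Agent.Helper45.DC
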