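import Pool.Agent.Helper45.DC.Schur
import Pool.Agent.Helper45.DC.CoreP

/-!
# Layer DC, block 5: one step for points

Apply `core_points` with `A = Bdf G`, `M = (XUa μ R1 →L[ℂ] XUa μ R1)`, `σ h = sg J h` (additive: `Mf_add`), `l i j Y = Mf (p_ij) ∘ Y`, `r i j Y = Y ∘ Mf (p_ij)`, `P i j = ⟨P_ij, hP.bdf⟩`.
`hr`: `∑_j sg J (P_jk h) Mf(p_ij) = J* Mf(h) ∑_j Mf(P_jk) J Mf(p_ij) = J* Mf(h) J Mf(p_ik)` by `Inc` (symmetric; `Mf_mul`). `hl`: the adjoint of `Inc` (`Mf_adj`, entries real): `∑_j Mf(p_ij) J* Mf(P_jk) = Mf(p_ik) J*`.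
`hlt`, `hrt`: `∑_i Mf(p_ii) = id` (`Mf_add`, trace one, `Mf_const`). Do this for `J` and `J'` and subtract: for `Z = sg J (P_ab f) - sg J' (P_ab f)`, `Y = sg J f - sg J' f`:
`Z - ∑_{f,d} p_fd Z p_df = p_ab Y + Y p_ab - ∑_f p_fb Y p_af - ∑_d p_ad Y p_db`. `Y` is local, so it commutes with `Mf(p_ij)` (`loc_Mf`, `Pm.av`), and the right side is `p_ab Y + p_ab Y - ∑_f p_fb p_af Y - ∑_d p_ad p_db Y = 0` (`idem`, `symm`).
So `Z = ∑_{i,j} p_ij Z p_ji`: `loc_schur` with `d = 1`.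
-/

set_option autoImplicit false
set_option linter.unusedSectionVars false

open MeasureTheory Filter Topology

namespace Pool.Agent.Helper45.DC

open Pool.Agent.Helper84 Pool.Agent.Helper84.GN Pool.Agent.Helper84.GN.S3 Pool.Agent.Helper84.GN.S3.X
open Pool.Agent.Helper84.NI Pool.Agent.Helper84.GVN Pool.Agent.Helper90.RK
open Pool.Agent.Helper96.RK Pool.Agent.Helper66.FR Pool.Agent.Helper84.FR Pool.Agent.Helper55.FR
open Pool.Agent.Helper78.BM

variable {G X : Type} [Group G] [MeasurableSpace X] {μ : Measure X} {R1 R2 : Reg G} {pd1 pd2 : PD G} {N : ℕ}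

private theorem mfsum47 {R : Reg G} {ι : Type} (s : Finset ι) (f : ι → G → ℂ) {C : ℝ}
    (hC : ∀ i γ, ‖f i γ‖ ≤ C) (x : XUa μ R) :
    Mf μ R (fun γ => ∑ i ∈ s, f i γ) x = ∑ i ∈ s, Mf μ R (f i) x := by
  classical
  induction s using Finset.induction_on with
  | empty =>
    simp only [Finset.sum_empty]
    rw [Mf_const, zero_smul]
  | insert a s ha ih =>
    simp only [Finset.sum_insert ha]
    rw [Mf_add (hC a) (D := s.card * C) (fun γ => (norm_sum_le_of_le s fun i _ => hC i γ).trans (by simp)), ih]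

private theorem tr47 {p : G → MN N} (hp : Pm pd1 1 p) (x : XUa μ R1) :
    ∑ i, Mf μ R1 (fun γ => p γ i i) x = x := by
  rw [← mfsum47 Finset.univ (fun i γ => p γ i i) (C := 1) (fun i γ => hp.le_one γ i i)]
  have h1 : (fun γ => ∑ i, p γ i i) = fun _ : G => (1 : ℂ) := by
    funext γ
    rw [hp.tr]
    simp
  rw [h1, Mf_const, one_smul]

private theorem idem47 {p : G → MN N} (hp : Pm pd1 1 p) (a b : Fin N) (x : XUa μ R1) :
    ∑ f, Mf μ R1 (fun γ => p γ a f) (Mf μ R1 (fun γ => p γ f b) x) = Mf μ R1 (fun γ => p γ a b) x := by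
  rw [Finset.sum_congr rfl fun f _ => Mf_mul (C := 1) (D := 1) (fun γ => hp.le_one γ a f)
    (fun γ => hp.le_one γ f b) x]
  rw [← mfsum47 Finset.univ (fun f γ => p γ a f * p γ f b) (C := 1) (fun f γ => by
    rw [norm_mul]
    exact mul_le_one₀ (hp.le_one γ a f) (norm_nonneg _) (hp.le_one γ f b))]
  refine congrArg (fun g : G → ℂ => Mf μ R1 g x) (funext fun γ => hp.idem γ a b)

private theorem idem47' {p : G → MN N} (hp : Pm pd1 1 p) (a b : Fin N) (x : XUa μ R1) :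
    ∑ f, Mf μ R1 (fun γ => p γ f b) (Mf μ R1 (fun γ => p γ a f) x) = Mf μ R1 (fun γ => p γ a b) x := by
  rw [← idem47 hp a b x]
  refine Finset.sum_congr rfl fun f _ => ?_
  rw [Mf_mul (C := 1) (D := 1) (fun γ => hp.le_one γ f b) (fun γ => hp.le_one γ a f),
    Mf_mul (C := 1) (D := 1) (fun γ => hp.le_one γ a f) (fun γ => hp.le_one γ f b)]
  exact congrArg (fun g : G → ℂ => Mf μ R1 g x) (funext fun γ => mul_comm _ _)

private theorem adj_re47 {R : Reg G} {f : G → ℂ} {C : ℝ} (hC : ∀ γ, ‖f γ‖ ≤ C)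
    (hre : ∀ γ, (starRingEnd ℂ) (f γ) = f γ) (x y : XUa μ R) :
    inner ℂ (Mf μ R f x) y = inner ℂ x (Mf μ R f y) := by
  rw [Mf_adj hC]
  exact congrArg (fun g : G → ℂ => inner ℂ x (Mf μ R g y)) (funext hre)

/-- The adjoint of the incidence relation. -/
private theorem inc_adj47 {p P : G → MN N} (hp : Pm pd1 1 p) (hP : Pm pd2 2 P)
    {J : XUa μ R1 →L[ℂ] XUa μ R2} (hJ : Inc μ p P J) (i k : Fin N) (y : XUa μ R2) :
    ∑ j, Mf μ R1 (fun γ => p γ i j) (ContinuousLinearMap.adjoint J (Mf μ R2 (fun γ => P γ j k) y)) =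
      Mf μ R1 (fun γ => p γ i k) (ContinuousLinearMap.adjoint J y) := by
  refine ext_inner_left ℂ fun x => ?_
  rw [inner_sum]
  have h1 : ∀ j, inner ℂ x (Mf μ R1 (fun γ => p γ i j)
      (ContinuousLinearMap.adjoint J (Mf μ R2 (fun γ => P γ j k) y))) =
      inner ℂ (Mf μ R2 (fun γ => P γ k j) (J (Mf μ R1 (fun γ => p γ j i) x))) y := by
    intro j
    have e1 : (fun γ => p γ i j) = fun γ => p γ j i := funext fun γ => (hp.symm γ i j).symm
    have e2 : (fun γ => P γ j k) = fun γ => P γ k j := funext fun γ => (hP.symm γ j k).symm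
    rw [e1, e2, ← adj_re47 (C := 1) (fun γ => hp.le_one γ j i) (fun γ => hp.re γ j i),
      ContinuousLinearMap.adjoint_inner_right,
      ← adj_re47 (C := 1) (fun γ => hP.le_one γ k j) (fun γ => hP.re γ k j)]
  rw [Finset.sum_congr rfl fun j _ => h1 j, ← sum_inner, hJ i k x]
  have e3 : (fun γ => p γ i k) = fun γ => p γ k i := funext fun γ => (hp.symm γ i k).symm
  rw [e3, ← adj_re47 (C := 1) (fun γ => hp.le_one γ k i) (fun γ => hp.re γ k i),
    ContinuousLinearMap.adjoint_inner_right]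

private theorem sg_mul47 {P : G → MN N} (hP : Pm pd2 2 P) (J : XUa μ R1 →L[ℂ] XUa μ R2)
    {h : G → ℂ} {D : ℝ} (hD : ∀ γ, ‖h γ‖ ≤ D) (j k : Fin N) (x : XUa μ R1) :
    sg J (fun γ => P γ j k * h γ) x =
      ContinuousLinearMap.adjoint J (Mf μ R2 (fun γ => P γ j k) (Mf μ R2 h (J x))) := by
  rw [sg_apply, Mf_mul (C := 1) (D := D) (fun γ => hP.le_one γ j k) hD]

private theorem sg_mul47' {P : G → MN N} (hP : Pm pd2 2 P) (J : XUa μ R1 →L[ℂ] XUa μ R2)
    {h : G → ℂ} {D : ℝ} (hD : ∀ γ, ‖h γ‖ ≤ D) (j k : Fin N) (x : XUa μ R1) :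
    sg J (fun γ => P γ j k * h γ) x =
      ContinuousLinearMap.adjoint J (Mf μ R2 h (Mf μ R2 (fun γ => P γ j k) (J x))) := by
  rw [sg_apply, Mf_mul (C := D) (D := 1) hD (fun γ => hP.le_one γ j k)]
  exact congrArg (fun g : G → ℂ => ContinuousLinearMap.adjoint J (Mf μ R2 g (J x)))
    (funext fun γ => mul_comm _ _)

/-- `sg J` as an additive map. -/
private noncomputable def sgA47 (J : XUa μ R1 →L[ℂ] XUa μ R2) : Bdf G →+ (XUa μ R1 →L[ℂ] XUa μ R1) :=
  AddMonoidHom.mk' (fun h => sg J (h : G → ℂ)) fun f g => by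
    obtain ⟨C, hC⟩ := f.2
    obtain ⟨D, hD⟩ := g.2
    ext1 x
    rw [_root_.add_apply, sg_apply, sg_apply, sg_apply, ← map_add]
    exact congrArg (ContinuousLinearMap.adjoint J) (Mf_add hC hD (J x))

private noncomputable def lA47 (μ : Measure X) (R : Reg G) (f : G → ℂ) :
    (XUa μ R →L[ℂ] XUa μ R) →+ (XUa μ R →L[ℂ] XUa μ R) :=
  AddMonoidHom.mk' (fun Y => (Mf μ R f).comp Y) fun _ _ => ContinuousLinearMap.comp_add _ _ _

private noncomputable def rA47 (μ : Measure X) (R : Reg G) (f : G → ℂ) :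
    (XUa μ R →L[ℂ] XUa μ R) →+ (XUa μ R →L[ℂ] XUa μ R) :=
  AddMonoidHom.mk' (fun Y => Y.comp (Mf μ R f)) fun _ _ => ContinuousLinearMap.add_comp _ _ _

private theorem clm_sum47 {ι : Type} {R : Reg G} (s : Finset ι) (f : ι → (XUa μ R →L[ℂ] XUa μ R)) (x : XUa μ R) :
    (∑ i ∈ s, f i) x = ∑ i ∈ s, f i x := by
  rw [_root_.sum_apply]

private theorem ident47 {p P : G → MN N} (hp : Pm pd1 1 p) (hP : Pm pd2 2 P) (hP3 : Min3 P)
    {J : XUa μ R1 →L[ℂ] XUa μ R2} (hJ : Inc μ p P J) {h : G → ℂ} (hh : h ∈ Bdf G) (a b : Fin N)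
    (x : XUa μ R1) :
    sg J (fun γ => P γ a b * h γ) x - ∑ f, ∑ d, Mf μ R1 (fun γ => p γ f d)
        (sg J (fun γ => P γ a b * h γ) (Mf μ R1 (fun γ => p γ d f) x)) =
      Mf μ R1 (fun γ => p γ a b) (sg J h x) + sg J h (Mf μ R1 (fun γ => p γ a b) x) -
        ∑ f, Mf μ R1 (fun γ => p γ f b) (sg J h (Mf μ R1 (fun γ => p γ a f) x)) -
        ∑ d, Mf μ R1 (fun γ => p γ a d) (sg J h (Mf μ R1 (fun γ => p γ d b) x)) := by
  have hps : ∀ i j, (fun γ => p γ j i) = fun γ => p γ i j := fun i j => funext fun γ => hp.symm γ i j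
  have key := core_points (A := Bdf G) (M := (XUa μ R1 →L[ℂ] XUa μ R1)) (sgA47 J)
    (fun i j => lA47 μ R1 (fun γ => p γ i j)) (fun i j => rA47 μ R1 (fun γ => p γ i j))
    (fun i j => (⟨fun γ => P γ i j, hP.bdf i j⟩ : Bdf G))
    (fun i j => Subtype.ext (funext fun γ => hP.symm γ i j))
    (fun i j => congrArg (lA47 μ R1) (hps i j))
    (fun i j => congrArg (rA47 μ R1) (hps i j))
    (fun i j k m Y => rfl)
    (fun i k g => by
      obtain ⟨D, hD⟩ := g.2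
      ext1 y
      rw [clm_sum47]
      change ∑ j, Mf μ R1 (fun γ => p γ i j) (sg J (fun γ => P γ j k * (g : G → ℂ) γ) y) =
        Mf μ R1 (fun γ => p γ i k) (sg J (g : G → ℂ) y)
      rw [Finset.sum_congr rfl fun j _ => congrArg (Mf μ R1 (fun γ => p γ i j)) (sg_mul47 hP J hD j k y),
        inc_adj47 hp hP hJ i k, sg_apply])
    (fun i k g => by
      obtain ⟨D, hD⟩ := g.2
      ext1 y
      rw [clm_sum47]
      change ∑ j, sg J (fun γ => P γ j k * (g : G → ℂ) γ) (Mf μ R1 (fun γ => p γ i j) y) =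
        sg J (g : G → ℂ) (Mf μ R1 (fun γ => p γ i k) y)
      have h1 : ∀ j, sg J (fun γ => P γ j k * (g : G → ℂ) γ) (Mf μ R1 (fun γ => p γ i j) y) =
          ContinuousLinearMap.adjoint J (Mf μ R2 (g : G → ℂ)
            (Mf μ R2 (fun γ => P γ k j) (J (Mf μ R1 (fun γ => p γ j i) y)))) := by
        intro j
        rw [sg_mul47' hP J hD, hps j i]
        have e2 : (fun γ => P γ j k) = fun γ => P γ k j := funext fun γ => (hP.symm γ j k).symm
        rw [e2]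
      rw [Finset.sum_congr rfl fun j _ => h1 j, ← map_sum, ← map_sum, hJ i k y, sg_apply, hps i k])
    (fun Y => by
      ext1 y
      rw [clm_sum47]
      exact tr47 hp (Y y))
    (fun Y => by
      ext1 y
      rw [clm_sum47]
      change ∑ i, Y (Mf μ R1 (fun γ => p γ i i) y) = Y y
      rw [← map_sum, tr47 hp])
    (fun a b c d e f => Subtype.ext (funext fun γ => hP3 γ a b c d e f)) a b ⟨h, hh⟩
  have key2 := congrArg (fun T : XUa μ R1 →L[ℂ] XUa μ R1 => T x) key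
  simp only [_root_.sub_apply, _root_.add_apply, clm_sum47] at key2
  exact key2

theorem step_pt {p P : G → MN N} (hp : Pm pd1 1 p) (hP : Pm pd2 2 P) (hP3 : Min3 P)
    {J J' : XUa μ R1 →L[ℂ] XUa μ R2} (hJ : Inc μ p P J) (hJ' : Inc μ p P J')
    {f : G → ℂ} (hf : f ∈ Bdf G) (hY : LocX R1 pd1 (sg J f - sg J' f)) (i j : Fin N) :
    LocX R1 pd1 (sg J (fun γ => P γ i j * f γ) - sg J' (fun γ => P γ i j * f γ)) := by
  refine loc_schur (d := 1) hp _ fun x => ?_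
  have k1 := ident47 hp hP hP3 hJ hf i j x
  have k2 := ident47 hp hP hP3 hJ' hf i j x
  have hc : ∀ (a b : Fin N) (y : XUa μ R1), sg J f (Mf μ R1 (fun γ => p γ a b) y) -
      sg J' f (Mf μ R1 (fun γ => p γ a b) y) = Mf μ R1 (fun γ => p γ a b) (sg J f y - sg J' f y) :=
    fun a b y => loc_Mf hY (hp.av a b) y
  have k3 : ∑ g, Mf μ R1 (fun γ => p γ g j) (sg J f (Mf μ R1 (fun γ => p γ i g) x)) -
      ∑ g, Mf μ R1 (fun γ => p γ g j) (sg J' f (Mf μ R1 (fun γ => p γ i g) x)) =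
      Mf μ R1 (fun γ => p γ i j) (sg J f x - sg J' f x) := by
    rw [← Finset.sum_sub_distrib, ← idem47' hp i j]
    refine Finset.sum_congr rfl fun g _ => ?_
    rw [← map_sub, hc]
  have k4 : ∑ g, Mf μ R1 (fun γ => p γ i g) (sg J f (Mf μ R1 (fun γ => p γ g j) x)) -
      ∑ g, Mf μ R1 (fun γ => p γ i g) (sg J' f (Mf μ R1 (fun γ => p γ g j) x)) =
      Mf μ R1 (fun γ => p γ i j) (sg J f x - sg J' f x) := by
    rw [← Finset.sum_sub_distrib, ← idem47 hp i j]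
    refine Finset.sum_congr rfl fun g _ => ?_
    rw [← map_sub, hc]
  have k5 : ∑ a, ∑ b, Mf μ R1 (fun γ => p γ a b)
        ((sg J (fun γ => P γ i j * f γ) - sg J' (fun γ => P γ i j * f γ)) (Mf μ R1 (fun γ => p γ b a) x)) =
      ∑ a, ∑ b, Mf μ R1 (fun γ => p γ a b)
        (sg J (fun γ => P γ i j * f γ) (Mf μ R1 (fun γ => p γ b a) x)) -
      ∑ a, ∑ b, Mf μ R1 (fun γ => p γ a b)
        (sg J' (fun γ => P γ i j * f γ) (Mf μ R1 (fun γ => p γ b a) x)) := by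
    rw [← Finset.sum_sub_distrib]
    refine Finset.sum_congr rfl fun a _ => ?_
    rw [← Finset.sum_sub_distrib]
    refine Finset.sum_congr rfl fun b _ => ?_
    rw [_root_.sub_apply, map_sub]
  have k6 : Mf μ R1 (fun γ => p γ i j) (sg J f x - sg J' f x) =
      Mf μ R1 (fun γ => p γ i j) (sg J f x) - Mf μ R1 (fun γ => p γ i j) (sg J' f x) := map_sub _ _ _
  rw [Nat.cast_one, one_smul, k5, _root_.sub_apply]
  have k7 := hc i j x
  rw [k6] at k3 k4 k7
  generalize (∑ a, ∑ b, Mf μ R1 (fun γ => p γ a b)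
        (sg J (fun γ => P γ i j * f γ) (Mf μ R1 (fun γ => p γ b a) x))) = A1 at *
  generalize (∑ a, ∑ b, Mf μ R1 (fun γ => p γ a b)
        (sg J' (fun γ => P γ i j * f γ) (Mf μ R1 (fun γ => p γ b a) x))) = A2 at *
  generalize (∑ g, Mf μ R1 (fun γ => p γ g j) (sg J f (Mf μ R1 (fun γ => p γ i g) x))) = B1 at *
  generalize (∑ g, Mf μ R1 (fun γ => p γ g j) (sg J' f (Mf μ R1 (fun γ => p γ i g) x))) = B2 at *
  generalize (∑ g, Mf μ R1 (fun γ => p γ i g) (sg J f (Mf μ R1 (fun γ => p γ g j) x))) = C1 at *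
  generalize (∑ g, Mf μ R1 (fun γ => p γ i g) (sg J' f (Mf μ R1 (fun γ => p γ g j) x))) = C2 at *
  have e1 : sg J (fun γ => P γ i j * f γ) x = A1 + (Mf μ R1 (fun γ => p γ i j) (sg J f x) +
      sg J f (Mf μ R1 (fun γ => p γ i j) x) - B1 - C1) := by
    rw [← k1]
    abel
  have e2 : sg J' (fun γ => P γ i j * f γ) x = A2 + (Mf μ R1 (fun γ => p γ i j) (sg J' f x) +
      sg J' f (Mf μ R1 (fun γ => p γ i j) x) - B2 - C2) := by
    rw [← k2]
    abel
  rw [e1, e2]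
  have e3 : A1 + (Mf μ R1 (fun γ => p γ i j) (sg J f x) +
      sg J f (Mf μ R1 (fun γ => p γ i j) x) - B1 - C1) -
      (A2 + (Mf μ R1 (fun γ => p γ i j) (sg J' f x) +
      sg J' f (Mf μ R1 (fun γ => p γ i j) x) - B2 - C2)) =
      A1 - A2 + ((Mf μ R1 (fun γ => p γ i j) (sg J f x) - Mf μ R1 (fun γ => p γ i j) (sg J' f x)) +
      (sg J f (Mf μ R1 (fun γ => p γ i j) x) - sg J' f (Mf μ R1 (fun γ => p γ i j) x)) -
      (B1 - B2) - (C1 - C2)) := by abel
  rw [e3, k7, k3, k4]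
  abel

end Pool.Agent.Helper45.DC
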