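import Pool.Agent.Helper45.DC.Loc
import Pool.Agent.Helper45.DC.Crit

/-!
# Layer DC: translates by elements of the centraliser

`Po μ a E R b f = T* f T`: the operator valued measure. `J_q = T_u V_q T_v*` satisfies `Inc` if `q` commutes with `b_v` or with `b_u`.
-/

set_option autoImplicit false
set_option linter.unusedSectionVars false

open MeasureTheory Filter Topology

namespace Pool.Agent.Helper45.DC

open Pool.Agent.Helper84 Pool.Agent.Helper84.GN Pool.Agent.Helper84.GN.S3 Pool.Agent.Helper84.GN.S3.X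
open Pool.Agent.Helper84.NI Pool.Agent.Helper84.GVN Pool.Agent.Helper90.RK
open Pool.Agent.Helper96.RK Pool.Agent.Helper66.FR Pool.Agent.Helper84.FR Pool.Agent.Helper55.FR
open Pool.Agent.Helper78.BM

variable {G1 X G Λ : Type} [Group G1] [TopologicalSpace G1] [IsTopologicalGroup G1] [MeasurableSpace X] [MulAction G1 X]
  [MeasurableConstSMul G1 X] [Group G] [Group Λ] [Countable Λ] {μ : Measure X} [SMulInvariantMeasure G1 X μ]
  [IsProbabilityMeasure μ] {a : Cocy G1 X Λ} {E : Emb Λ G} {R R1 R2 : Reg G} {pd pd1 pd2 : PD G} {b bv bu : ℕ → G1} {N : ℕ}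

/-- The operator valued measure `T* f T`. -/
noncomputable def Po (μ : Measure X) [SMulInvariantMeasure G1 X μ] [IsProbabilityMeasure μ] (a : Cocy G1 X Λ)
    (E : Emb Λ G) (R : Reg G) (b : ℕ → G1) (f : G → ℂ) : XL μ (L2 G) →L[ℂ] XL μ (L2 G) :=
  (ContinuousLinearMap.adjoint (Tb μ a E R b)).comp ((Mf μ R f).comp (Tb μ a E R b))

theorem Po_apply (f : G → ℂ) (φ : XL μ (L2 G)) :
    Po μ a E R b f φ = ContinuousLinearMap.adjoint (Tb μ a E R b) (Mf μ R f (Tb μ a E R b φ)) := rfl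

/-- The adjoint of `V_q`. -/
theorem inner_Vq_left (q : G1) (φ ψ : XL μ (L2 G)) :
    inner ℂ (Vq μ a E q φ) ψ = inner ℂ φ (Vq μ a E q⁻¹ ψ) := by
  rw [← inner_Vq (a := a) (E := E) q φ (Vq μ a E q⁻¹ ψ), Vq_inv']

theorem adj_Vq (q : G1) : ContinuousLinearMap.adjoint (Vq μ a E q) = Vq μ a E q⁻¹ := by
  symm
  rw [ContinuousLinearMap.eq_adjoint_iff]
  intro φ ψ
  rw [inner_Vq_left, inv_inv]

/-- The adjoint form of `Tb_cen`. -/
theorem adj_cen (q : cen b) (x : XUa μ R) :
    Vq μ a E (q : G1)⁻¹ (ContinuousLinearMap.adjoint (Tb μ a E R b) x) =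
      ContinuousLinearMap.adjoint (Tb μ a E R b) (ContinuousLinearMap.adjoint (oL μ a E R b q) x) := by
  refine ext_inner_left ℂ fun φ => ?_
  rw [ContinuousLinearMap.adjoint_inner_right, ContinuousLinearMap.adjoint_inner_right, ← Tb_cen,
    ← inner_Vq_left, ContinuousLinearMap.adjoint_inner_right]

/-- `(oL q)*` commutes with the real functions which are uniformly continuous at infinity. -/
theorem adj_oL_Mf (hP : PLf R pd) {f : G → ℂ} (hf : AV R pd f) (hre : ∀ γ, (starRingEnd ℂ) (f γ) = f γ)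
    (q : cen b) (x : XUa μ R) :
    ContinuousLinearMap.adjoint (oL μ a E R b q) (Mf μ R f x) =
      Mf μ R f (ContinuousLinearMap.adjoint (oL μ a E R b q) x) := by
  obtain ⟨C, hC⟩ := hf.bdd
  have hself : ∀ y z : XUa μ R, inner ℂ (Mf μ R f y) z = inner ℂ y (Mf μ R f z) := by
    intro y z
    rw [Mf_adj hC]
    simp only [hre]
  refine ext_inner_left ℂ fun y => ?_
  rw [ContinuousLinearMap.adjoint_inner_right, ← hself, ← oL_Mf hP hf, ← hself,
    ContinuousLinearMap.adjoint_inner_right]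

/-- Translates by elements which commute with `b_v`. -/
theorem inc_cen_v {p P : G → MN N} (hp : Pm pd1 1 p) (hPL : PLf R1 pd1)
    (hI : Inc μ p P ((Tb μ a E R2 bu).comp (ContinuousLinearMap.adjoint (Tb μ a E R1 bv)))) (q : cen bv) :
    Inc μ p P ((Tb μ a E R2 bu).comp ((Vq μ a E (q : G1)).comp
      (ContinuousLinearMap.adjoint (Tb μ a E R1 bv)))) := by
  intro i k x
  have h1 : ∀ y : XUa μ R1, Vq μ a E (q : G1) (ContinuousLinearMap.adjoint (Tb μ a E R1 bv) y) =
      ContinuousLinearMap.adjoint (Tb μ a E R1 bv)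
        (ContinuousLinearMap.adjoint (oL μ a E R1 bv q⁻¹) y) := by
    intro y
    rw [← adj_cen]
    simp
  have h2 := hI i k (ContinuousLinearMap.adjoint (oL μ a E R1 bv q⁻¹) x)
  simp only [ContinuousLinearMap.comp_apply] at h2 ⊢
  rw [h1, adj_oL_Mf hPL (hp.av k i) (fun γ => hp.re γ k i), ← h2]
  refine Finset.sum_congr rfl fun j _ => ?_
  rw [h1, adj_oL_Mf hPL (hp.av j i) (fun γ => hp.re γ j i)]

/-- Translates by elements which commute with `b_u`. -/
theorem inc_cen_u {p P : G → MN N} (hP : Pm pd2 2 P) (hPL : PLf R2 pd2)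
    (hI : Inc μ p P ((Tb μ a E R2 bu).comp (ContinuousLinearMap.adjoint (Tb μ a E R1 bv)))) (q : cen bu) :
    Inc μ p P ((Tb μ a E R2 bu).comp ((Vq μ a E (q : G1)).comp
      (ContinuousLinearMap.adjoint (Tb μ a E R1 bv)))) := by
  intro i k x
  have h2 := hI i k x
  simp only [ContinuousLinearMap.comp_apply] at h2 ⊢
  rw [Tb_cen, ← h2, map_sum]
  refine Finset.sum_congr rfl fun j _ => ?_
  rw [Tb_cen, oL_Mf hPL (hP.av k j)]

/-- The compressed operators of `J = T_u V_q T_v*`. -/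
theorem sg_eq (q : G1) (f : G → ℂ) :
    sg ((Tb μ a E R2 bu).comp ((Vq μ a E q).comp (ContinuousLinearMap.adjoint (Tb μ a E R1 bv)))) f =
      (Tb μ a E R1 bv).comp (((Vq μ a E q⁻¹).comp ((Po μ a E R2 bu f).comp (Vq μ a E q))).comp
        (ContinuousLinearMap.adjoint (Tb μ a E R1 bv))) := by
  ext x : 1
  refine ext_inner_left ℂ fun y => ?_
  rw [sg_apply, ContinuousLinearMap.adjoint_inner_right]
  simp only [ContinuousLinearMap.comp_apply, Po_apply]
  rw [← ContinuousLinearMap.adjoint_inner_left (Tb μ a E R1 bv), ← inner_Vq_left,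
    ContinuousLinearMap.adjoint_inner_right]

theorem sg_eq_one (f : G → ℂ) :
    sg ((Tb μ a E R2 bu).comp (ContinuousLinearMap.adjoint (Tb μ a E R1 bv))) f =
      (Tb μ a E R1 bv).comp ((Po μ a E R2 bu f).comp
        (ContinuousLinearMap.adjoint (Tb μ a E R1 bv))) := by
  ext x : 1
  refine ext_inner_left ℂ fun y => ?_
  rw [sg_apply, ContinuousLinearMap.adjoint_inner_right]
  simp only [ContinuousLinearMap.comp_apply, Po_apply]
  rw [← ContinuousLinearMap.adjoint_inner_left (Tb μ a E R1 bv),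
    ContinuousLinearMap.adjoint_inner_right]

theorem Po_one (h3 : Tendsto (fun g : G1 => μ {x | a.a g x ≠ 1}) (𝓝 1) (𝓝 0)) (hE : ErgU μ a E (Ctr b))
    (φ : XL μ (L2 G)) : Po μ a E R b (fun _ => 1) φ = ((‖XPpr R (vec μ a E b)‖ ^ 2 : ℝ) : ℂ) • φ := by
  rw [Po_apply, Mf_const, one_smul]
  exact exists_mass hE h3 φ

end Pool.Agent.Helper45.DC
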